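import Mathlib
import Pool.Agent.H304Z.NH.Spec

set_option autoImplicit false
set_option linter.unusedSectionVars false
set_option linter.unusedVariables false

/-!
Spectral gap for genuine unitary representations of a group with a Kazhdan set.
-/

namespace Pool.Agent.H515Z.GM

open Finset
open scoped InnerProductSpace
open Pool.Agent.H304Z.NH

/-- uniform average -/
noncomputable def avg {I E : Type} [Fintype I] [AddCommGroup E] [Module ℂ E] (f : I → E) : E :=
  ((Fintype.card I : ℂ)⁻¹) • ∑ i, f i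

section avg

variable {I E : Type} [Fintype I]

theorem avg_add [AddCommGroup E] [Module ℂ E] (f g : I → E) :
    avg (fun i => f i + g i) = avg f + avg g := by
  simp [avg, sum_add_distrib, smul_add]

theorem avg_sub [AddCommGroup E] [Module ℂ E] (f g : I → E) :
    avg (fun i => f i - g i) = avg f - avg g := by
  simp [avg, sum_sub_distrib, smul_sub]

theorem avg_const [Nonempty I] [AddCommGroup E] [Module ℂ E] (x : E) :
    avg (fun _ : I => x) = x := by
  have h : (Fintype.card I : ℂ) ≠ 0 := by exact_mod_cast Fintype.card_ne_zero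
  simp only [avg, sum_const, card_univ]
  rw [← Nat.cast_smul_eq_nsmul ℂ, smul_smul, inv_mul_cancel₀ h, one_smul]

theorem map_avg {F : Type} [AddCommGroup E] [Module ℂ E] [AddCommGroup F] [Module ℂ F]
    (T : E →ₗ[ℂ] F) (f : I → E) : T (avg f) = avg (fun i => T (f i)) := by
  simp [avg, map_sum]

theorem avg_prod {J : Type} [Fintype J] [AddCommGroup E] [Module ℂ E] (f : I × J → E) :
    avg f = avg (fun i => avg (fun j => f (i, j))) := by
  simp only [avg, Fintype.card_prod, Nat.cast_mul, mul_inv, Fintype.sum_prod_type]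
  rw [← smul_sum, smul_smul]

theorem norm_avg [SeminormedAddCommGroup E] [NormedSpace ℂ E] (f : I → E) :
    ‖avg f‖ = (Fintype.card I : ℝ)⁻¹ * ‖∑ i, f i‖ := by
  simp [avg, norm_smul]

theorem norm_avg_le [Nonempty I] [SeminormedAddCommGroup E] [NormedSpace ℂ E] (f : I → E)
    (C : ℝ) (h : ∀ i, ‖f i‖ ≤ C) : ‖avg f‖ ≤ C := by
  rw [norm_avg]
  have hc : (0 : ℝ) < Fintype.card I := by exact_mod_cast Fintype.card_pos
  have : ‖∑ i, f i‖ ≤ Fintype.card I * C := by
    refine (norm_sum_le _ _).trans ?_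
    refine (sum_le_sum fun i _ => h i).trans ?_
    simp
  calc (Fintype.card I : ℝ)⁻¹ * ‖∑ i, f i‖ ≤ (Fintype.card I : ℝ)⁻¹ * (Fintype.card I * C) := by
        gcongr
    _ = C := by field_simp

end avg

variable {G : Type} [Group G]

theorem mem_unitary_of_norm {E : Type} [NormedAddCommGroup E] [InnerProductSpace ℂ E]
    [CompleteSpace E] (π : G →* (E →L[ℂ] E)) (h : ∀ g x, ‖π g x‖ = ‖x‖) (g : G) :
    π g ∈ unitary (E →L[ℂ] E) := by
  have hu : IsUnit (π g) := (Group.isUnit g).map π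
  exact hu.mem_unitary_of_star_mul_self
    ((π g).norm_map_iff_adjoint_comp_self.mp (h g))

/-- contraction by the factor `ρ` in all representations without invariant vectors -/
def Con (G : Type) [Group G] (ρ : ℝ) : Prop :=
  ∃ (I : Type) (_ : Fintype I) (_ : Nonempty I) (γ : I → G),
    ∀ (E : Type) [NormedAddCommGroup E] [InnerProductSpace ℂ E] [CompleteSpace E]
      (π : G →* (E →L[ℂ] E)), (∀ g : G, π g ∈ unitary (E →L[ℂ] E)) →
      (∀ w : E, (∀ g, π g w = w) → w = 0) → ∀ z : E, ‖avg (fun i => π (γ i) z)‖ ≤ ρ * ‖z‖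

theorem con_one : Con G 1 := by
  refine ⟨Unit, inferInstance, inferInstance, fun _ => 1, ?_⟩
  intro E _ _ _ π hπ hw z
  rw [avg_const]
  simp

theorem con_mul {ρ σ : ℝ} (hρ : 0 ≤ ρ) (h1 : Con G ρ) (h2 : Con G σ) : Con G (ρ * σ) := by
  obtain ⟨I, _, _, γ, hγ⟩ := h1
  obtain ⟨J, _, _, β, hβ⟩ := h2
  refine ⟨I × J, inferInstance, inferInstance, fun p => γ p.1 * β p.2, ?_⟩
  intro E _ _ _ π hπ hw z
  rw [avg_prod]
  have e : (fun i => avg (fun j => π (γ (i, j).1 * β (i, j).2) z)) =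
      fun i => π (γ i) (avg (fun j => π (β j) z)) := by
    funext i
    have := map_avg (I := J) (π (γ i) : E →ₗ[ℂ] E) (fun j => π (β j) z)
    simp only [ContinuousLinearMap.coe_coe] at this
    rw [this]
    simp [map_mul]
  rw [e]
  refine (hγ E π hπ hw _).trans ?_
  rw [mul_assoc]
  exact mul_le_mul_of_nonneg_left (hβ E π hπ hw z) hρ

theorem con_pow {ρ : ℝ} (hρ : 0 ≤ ρ) (h : Con G ρ) (k : ℕ) : Con G (ρ ^ k) := by
  induction k with
  | zero => simpa using con_one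
  | succ k ih => rw [pow_succ]; exact con_mul (pow_nonneg hρ k) ih h

/-- the displacement property -/
def Disp (G : Type) [Group G] (S : Finset G) (ε : ℝ) : Prop :=
  ∀ (E : Type) [NormedAddCommGroup E] [InnerProductSpace ℂ E] [CompleteSpace E]
      (π : G →* (E →L[ℂ] E)), (∀ g : G, π g ∈ unitary (E →L[ℂ] E)) →
      (∀ w : E, (∀ g, π g w = w) → w = 0) → ∀ z : E, z ≠ 0 → ∃ s ∈ S, ε * ‖z‖ ≤ ‖π s z - z‖

theorem disp_of_kaz {S : Finset G} (h : Kaz G S) : ∃ ε : ℝ, 0 < ε ∧ ε ≤ 1 ∧ Disp G S ε := by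
  obtain ⟨ε, hε, h⟩ := h
  refine ⟨min ε 1, lt_min hε one_pos, min_le_right _ _, ?_⟩
  intro E _ _ _ π hπ hw z hz
  by_contra hc
  push Not at hc
  have hz' : 0 < ‖z‖ := norm_pos_iff.mpr hz
  obtain ⟨w, hw0, hw1⟩ := h E π hπ ⟨((‖z‖⁻¹ : ℝ) : ℂ) • z, by
    rw [norm_smul]; simp [hz'.ne'], fun s hs => by
      have h1 := hc s hs
      rw [map_smul, ← smul_sub, norm_smul]
      have h2 : min ε 1 * ‖z‖ ≤ ε * ‖z‖ := by gcongr; exact min_le_left _ _
      have h3 : ‖((‖z‖⁻¹ : ℝ) : ℂ)‖ = ‖z‖⁻¹ := by simp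
      rw [h3, inv_mul_lt_iff₀ hz']
      linarith⟩
  exact hw0 (hw w hw1)

theorem con_of_disp {S : Finset G} {ε : ℝ} (h0 : 0 < ε) (h1 : ε ≤ 1) (h : Disp G S ε) :
    Con G (1 - ε ^ 2 / (4 * (S.card + 1))) := by
  classical
  refine ⟨Option S, inferInstance, inferInstance, fun o => o.elim 1 (fun s => s.1), ?_⟩
  intro E _ _ _ π hπ hw z
  by_cases hz : z = 0
  · subst hz
    simp [avg]
  obtain ⟨s, hs, hsz⟩ := h E π hπ hw z hz
  rw [norm_avg, Fintype.sum_option]
  simp only [Option.elim, map_one, ContinuousLinearMap.one_apply, Fintype.card_option,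
    Fintype.card_coe]
  have hn : ∀ g, ‖π g z‖ = ‖z‖ := fun g => (π g).norm_map_of_mem_unitary (hπ g) z
  rw [← add_sum_erase (univ : Finset S) (fun t : S => π t.1 z) (mem_univ ⟨s, hs⟩), ← add_assoc]
  have a1 : ‖∑ t ∈ (univ : Finset S).erase ⟨s, hs⟩, π t.1 z‖ ≤ (S.card - 1) * ‖z‖ := by
    refine (norm_sum_le _ _).trans ?_
    simp only [hn, sum_const, nsmul_eq_mul]
    rw [card_erase_of_mem (mem_univ _)]
    have : 1 ≤ S.card := card_pos.mpr ⟨s, hs⟩
    simp [Nat.cast_sub this]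
  have a2 : ‖z + π s z‖ ≤ (2 - ε ^ 2 / 4) * ‖z‖ := by
    have p := parallelogram_law_with_norm ℂ z (π s z)
    rw [hn, norm_sub_rev] at p
    have hz0 := norm_nonneg z
    have q : (ε * ‖z‖) ^ 2 ≤ ‖π s z - z‖ ^ 2 := by gcongr
    have he : ε ^ 2 ≤ 1 := by nlinarith
    refine abs_le_of_sq_le_sq' ?_ (by nlinarith) |>.2
    nlinarith [sq_nonneg (ε ^ 2 * ‖z‖)]
  have a3 := (norm_add_le _ _).trans (add_le_add a2 a1)
  have hc : (0 : ℝ) < (S.card : ℝ) + 1 := by positivity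
  push_cast
  rw [inv_mul_le_iff₀ hc]
  refine a3.trans (le_of_eq ?_)
  field_simp
  ring

theorem con_small {S : Finset G} {ε : ℝ} (h0 : 0 < ε) (h1 : ε ≤ 1) (h : Disp G S ε)
    (η : ℝ) (hη : 0 < η) : ∃ ρ, 0 ≤ ρ ∧ ρ ≤ η ∧ Con G ρ := by
  have hc : (0 : ℝ) < (S.card : ℝ) + 1 := by positivity
  have a : ε ^ 2 / (4 * (S.card + 1)) ≤ 1 := by
    rw [div_le_one (by positivity)]
    have : (0 : ℝ) ≤ S.card := by positivity
    nlinarith
  have b : 0 < ε ^ 2 / (4 * (S.card + 1)) := by positivity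
  obtain ⟨k, hk⟩ := exists_pow_lt_of_lt_one hη
    (show 1 - ε ^ 2 / (4 * (S.card + 1)) < 1 by linarith)
  exact ⟨_, pow_nonneg (by linarith) k, hk.le, con_pow (by linarith) (con_of_disp h0 h1 h) k⟩

section restrict

variable {E : Type} [NormedAddCommGroup E] [InnerProductSpace ℂ E] [CompleteSpace E]

/-- invariant vectors -/
def Inv (π : G →* (E →L[ℂ] E)) : Submodule ℂ E where
  carrier := {w | ∀ g, π g w = w}
  add_mem' := by
    intro a b ha hb g
    rw [map_add, ha g, hb g]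
  zero_mem' := fun g => map_zero _
  smul_mem' := by
    intro c a ha g
    rw [map_smul, ha g]

theorem inv_closed (π : G →* (E →L[ℂ] E)) : IsClosed (Inv π : Set E) := by
  have : (Inv π : Set E) = ⋂ g, {w | π g w = w} := by
    ext w; simp [Inv]
  rw [this]
  exact isClosed_iInter fun g => isClosed_eq (π g).continuous continuous_id

instance (π : G →* (E →L[ℂ] E)) : CompleteSpace (Inv π) := (inv_closed π).completeSpace_coe

theorem orth_mem (π : G →* (E →L[ℂ] E)) (hπ : ∀ g : G, π g ∈ unitary (E →L[ℂ] E)) (g : G)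
    (z : E) (hz : z ∈ (Inv π)ᗮ) : π g z ∈ (Inv π)ᗮ := by
  rw [Submodule.mem_orthogonal] at hz ⊢
  intro w hw
  rw [← hw g, (π g).inner_map_map_of_mem_unitary (hπ g)]
  exact hz w hw

/-- the restriction to the orthogonal complement of the invariant vectors -/
noncomputable def res (π : G →* (E →L[ℂ] E)) (hπ : ∀ g : G, π g ∈ unitary (E →L[ℂ] E)) :
    G →* ((Inv π)ᗮ →L[ℂ] (Inv π)ᗮ) where
  toFun g := ((π g).comp (Inv π)ᗮ.subtypeL).codRestrict _ (fun z => orth_mem π hπ g z z.2)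
  map_one' := by
    ext z
    simp
  map_mul' a b := by
    ext z
    simp

theorem res_coe (π : G →* (E →L[ℂ] E)) (hπ : ∀ g : G, π g ∈ unitary (E →L[ℂ] E)) (g : G)
    (z : (Inv π)ᗮ) : ((res π hπ g z : (Inv π)ᗮ) : E) = π g z := rfl

theorem res_unitary (π : G →* (E →L[ℂ] E)) (hπ : ∀ g : G, π g ∈ unitary (E →L[ℂ] E)) (g : G) :
    res π hπ g ∈ unitary ((Inv π)ᗮ →L[ℂ] (Inv π)ᗮ) := by
  refine mem_unitary_of_norm _ (fun g x => ?_) g
  exact (π g).norm_map_of_mem_unitary (hπ g) (x : E)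

theorem res_noinv (π : G →* (E →L[ℂ] E)) (hπ : ∀ g : G, π g ∈ unitary (E →L[ℂ] E))
    (w : (Inv π)ᗮ) (hw : ∀ g, res π hπ g w = w) : w = 0 := by
  have h1 : (w : E) ∈ Inv π := fun g => by rw [← res_coe π hπ, hw g]
  have h2 := (Submodule.mem_orthogonal _ _).mp w.2 w h1
  rw [inner_self_eq_zero] at h2
  exact Subtype.ext h2

end restrict

/-- spectral gap for genuine representations -/
theorem gap {S : Finset G} (hK : Kaz G S) : ∃ K : ℝ, 0 ≤ K ∧ ∀ η : ℝ, 0 < η →
    ∃ (I : Type) (_ : Fintype I) (_ : Nonempty I) (γ : I → G),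
      ∀ (E : Type) [NormedAddCommGroup E] [InnerProductSpace ℂ E] [CompleteSpace E]
        (π : G →* (E →L[ℂ] E)), (∀ g : G, π g ∈ unitary (E →L[ℂ] E)) → ∀ v : E,
        (∀ g, ‖avg (fun i => π (g * γ i) v) - avg (fun i => π (γ i) v)‖ ≤ η * ‖v‖) ∧
        ‖v - avg (fun i => π (γ i) v)‖ ^ 2 ≤ K * ∑ s ∈ S, ‖π s v - v‖ ^ 2 := by
  obtain ⟨ε, h0, h1, hd⟩ := disp_of_kaz hK
  refine ⟨4 / ε ^ 2, by positivity, fun η hη => ?_⟩
  obtain ⟨ρ, hρ0, hρ, I, _, _, γ, hγ⟩ := con_small h0 h1 hd (η / 2) (by positivity)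
  refine ⟨I, inferInstance, inferInstance, γ, ?_⟩
  intro E _ _ _ π hπ v
  obtain ⟨p, hp, z, hz, rfl⟩ := Submodule.exists_add_mem_mem_orthogonal (K := Inv π) v
  have hzv : ‖z‖ ≤ ‖p + z‖ := by
    have := norm_add_sq_eq_norm_sq_add_norm_sq_of_inner_eq_zero (𝕜 := ℂ) p z
      ((Submodule.mem_orthogonal _ _).mp hz p hp)
    refine abs_le_of_sq_le_sq' ?_ (norm_nonneg _) |>.2
    nlinarith [norm_nonneg p]
  have hA : ∀ g, avg (fun i => π (g * γ i) (p + z)) = p + π g (avg (fun i => π (γ i) z)) := by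
    intro g
    have := map_avg (I := I) (π g : E →ₗ[ℂ] E) (fun j => π (γ j) z)
    simp only [ContinuousLinearMap.coe_coe] at this
    rw [this]
    conv_rhs => rw [← avg_const (I := I) p]
    rw [← avg_add]
    congr 1
    funext i
    rw [map_add, hp, map_mul]
    rfl
  have hA1 : avg (fun i => π (γ i) (p + z)) = p + avg (fun i => π (γ i) z) := by
    simpa using hA 1
  have hB : ‖avg (fun i => π (γ i) z)‖ ≤ ρ * ‖z‖ := by
    have := hγ _ (res π hπ) (res_unitary π hπ) (res_noinv π hπ) ⟨z, hz⟩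
    have e := map_avg (I := I) ((Inv π)ᗮ.subtype) (fun i => res π hπ (γ i) ⟨z, hz⟩)
    simp only [Submodule.subtype_apply, res_coe] at e
    rw [← e]
    exact this
  refine ⟨fun g => ?_, ?_⟩
  · rw [hA, hA1, add_sub_add_left_eq_sub]
    refine (norm_sub_le _ _).trans ?_
    rw [(π g).norm_map_of_mem_unitary (hπ g)]
    have : ρ * ‖z‖ ≤ η / 2 * ‖p + z‖ := by gcongr
    linarith
  · rw [hA1, add_sub_add_left_eq_sub]
    have c1 : ‖z - avg (fun i => π (γ i) z)‖ ≤ 2 * ‖z‖ := by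
      refine (norm_sub_le _ _).trans ?_
      have := norm_avg_le (fun i => π (γ i) z) ‖z‖
        (fun i => ((π _).norm_map_of_mem_unitary (hπ _) z).le)
      linarith
    have c2 : (ε * ‖z‖) ^ 2 ≤ ∑ s ∈ S, ‖π s (p + z) - (p + z)‖ ^ 2 := by
      by_cases hz0 : z = 0
      · subst hz0
        simp only [norm_zero, mul_zero]
        rw [zero_pow two_ne_zero]
        positivity
      obtain ⟨s, hs, hsz⟩ := hd _ (res π hπ) (res_unitary π hπ) (res_noinv π hπ) ⟨z, hz⟩
        (fun h => hz0 (congrArg Subtype.val h))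
      replace hsz : ε * ‖z‖ ≤ ‖π s z - z‖ := hsz
      refine le_trans ?_ (single_le_sum (f := fun s => ‖π s (p + z) - (p + z)‖ ^ 2)
        (fun _ _ => by positivity) hs)
      rw [map_add, hp s, add_sub_add_left_eq_sub]
      gcongr
    calc ‖z - avg (fun i => π (γ i) z)‖ ^ 2 ≤ (2 * ‖z‖) ^ 2 := by gcongr
      _ = 4 / ε ^ 2 * (ε * ‖z‖) ^ 2 := by field_simp; ring
      _ ≤ _ := by gcongr

end Pool.Agent.H515Z.GM
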