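import Mathlib
import Pool.Agent.H515Z.GMHil

set_option autoImplicit false
set_option linter.unusedSectionVars false
set_option linter.unusedVariables false

/-!
Spectral gap for almost invariant kernels, by compactness.
-/

namespace Pool.Agent.H515Z.GM

open Finset Filter
open scoped InnerProductSpace Topology
open Pool.Agent.H304Z.NH

variable {G : Type} [Group G]

/-- finitely supported functions with a semi-inner product -/
def Pre (c : PreInnerProductSpace.Core ℂ (G →₀ ℂ)) : Type := G →₀ ℂ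

noncomputable instance (c : PreInnerProductSpace.Core ℂ (G →₀ ℂ)) : AddCommGroup (Pre c) :=
  inferInstanceAs (AddCommGroup (G →₀ ℂ))

noncomputable instance (c : PreInnerProductSpace.Core ℂ (G →₀ ℂ)) : Module ℂ (Pre c) :=
  inferInstanceAs (Module ℂ (G →₀ ℂ))

/-- the identity map -/
noncomputable def toPre (c : PreInnerProductSpace.Core ℂ (G →₀ ℂ)) : (G →₀ ℂ) ≃ₗ[ℂ] Pre c :=
  LinearEquiv.refl ℂ _

/-- the transported core -/
noncomputable abbrev preCore (c : PreInnerProductSpace.Core ℂ (G →₀ ℂ)) :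
    PreInnerProductSpace.Core ℂ (Pre c) where
  inner a b := c.inner ((toPre c).symm a) ((toPre c).symm b)
  conj_inner_symm a b := c.conj_inner_symm _ _
  re_inner_nonneg a := c.re_inner_nonneg _
  add_left a b d := c.add_left _ _ _
  smul_left a b r := c.smul_left _ _ _

noncomputable instance (c : PreInnerProductSpace.Core ℂ (G →₀ ℂ)) :
    SeminormedAddCommGroup (Pre c) :=
  InnerProductSpace.Core.toSeminormedAddCommGroup (c := preCore c)

noncomputable instance (c : PreInnerProductSpace.Core ℂ (G →₀ ℂ)) :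
    InnerProductSpace ℂ (Pre c) :=
  InnerProductSpace.ofCore (preCore c)

theorem pre_inner (c : PreInnerProductSpace.Core ℂ (G →₀ ℂ)) (a b : G →₀ ℂ) :
    ⟪toPre c a, toPre c b⟫_ℂ = c.inner a b := rfl

/-- left translation -/
noncomputable def tl (g : G) : (G →₀ ℂ) →ₗ[ℂ] (G →₀ ℂ) := Finsupp.lmapDomain ℂ ℂ (fun h => g * h)

theorem tl_single (g h : G) (r : ℂ) : tl g (Finsupp.single h r) = Finsupp.single (g * h) r := by
  simp [tl]

theorem tl_one (f : G →₀ ℂ) : tl (1 : G) f = f := by
  induction f using Finsupp.induction_linear with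
  | zero => simp
  | add a b ha hb => rw [map_add, ha, hb]
  | single h r => rw [tl_single, one_mul]

theorem tl_mul (a b : G) (f : G →₀ ℂ) : tl (a * b) f = tl a (tl b f) := by
  induction f using Finsupp.induction_linear with
  | zero => simp
  | add a b ha hb => rw [map_add, ha, hb, map_add, map_add]
  | single h r => rw [tl_single, tl_single, tl_single, mul_assoc]

section gns

variable (c : PreInnerProductSpace.Core ℂ (G →₀ ℂ))
  (hc : ∀ g a b, c.inner (tl g a) (tl g b) = c.inner a b)

/-- left translation on the pre-Hilbert space -/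
noncomputable def tlL (g : G) : Pre c →ₗ[ℂ] Pre c :=
  (toPre c).toLinearMap ∘ₗ tl g ∘ₗ (toPre c).symm.toLinearMap

include hc in
theorem tlL_norm (g : G) (x : Pre c) : ‖tlL c g x‖ = ‖x‖ := by
  rw [@norm_eq_sqrt_re_inner ℂ, @norm_eq_sqrt_re_inner ℂ]
  congr 2
  exact hc g _ _

/-- left translation as a bounded operator -/
noncomputable def tlC (g : G) : Pre c →L[ℂ] Pre c :=
  (tlL c g).mkContinuous 1 (fun x => by rw [tlL_norm c hc, one_mul])

theorem tlC_apply (g : G) (f : G →₀ ℂ) : tlC c hc g (toPre c f) = toPre c (tl g f) := rfl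

open UniformSpace in
/-- the representation on the completion -/
noncomputable def gnsRep : G →* (Completion (Pre c) →L[ℂ] Completion (Pre c)) where
  toFun g := (tlC c hc g).completion
  map_one' := by
    ext x
    induction x using Completion.induction_on with
    | hp => exact isClosed_eq (by fun_prop) (by fun_prop)
    | ih a =>
      obtain ⟨f, rfl⟩ := (toPre c).surjective a
      rw [ContinuousLinearMap.completion_apply_coe, tlC_apply, tl_one]
      rfl
  map_mul' g h := by
    ext x
    induction x using Completion.induction_on with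
    | hp => exact isClosed_eq (by fun_prop) (by fun_prop)
    | ih a =>
      obtain ⟨f, rfl⟩ := (toPre c).surjective a
      rw [ContinuousLinearMap.mul_apply, ContinuousLinearMap.completion_apply_coe,
        ContinuousLinearMap.completion_apply_coe, ContinuousLinearMap.completion_apply_coe,
        tlC_apply, tlC_apply, tlC_apply, tl_mul]

open UniformSpace in
theorem gnsRep_coe (g : G) (f : G →₀ ℂ) :
    gnsRep c hc g ((toPre c f : Pre c) : Completion (Pre c)) =
      ((toPre c (tl g f) : Pre c) : Completion (Pre c)) := by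
  show (tlC c hc g).completion _ = _
  rw [ContinuousLinearMap.completion_apply_coe, tlC_apply]

open UniformSpace in
theorem gnsRep_unitary (g : G) :
    gnsRep c hc g ∈ unitary (Completion (Pre c) →L[ℂ] Completion (Pre c)) := by
  refine mem_unitary_of_norm _ (fun g x => ?_) g
  induction x using Completion.induction_on with
  | hp => exact isClosed_eq (by fun_prop) (by fun_prop)
  | ih a =>
    obtain ⟨f, rfl⟩ := (toPre c).surjective a
    rw [gnsRep_coe, Completion.norm_coe, Completion.norm_coe]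
    exact tlL_norm c hc g _

open UniformSpace in
include hc in
theorem gns : ∃ (E : Type) (_ : NormedAddCommGroup E) (_ : InnerProductSpace ℂ E)
    (_ : CompleteSpace E) (π : G →* (E →L[ℂ] E)) (v : E),
    (∀ g, π g ∈ unitary (E →L[ℂ] E)) ∧ ∀ f : G →₀ ℂ,
      ‖Finsupp.linearCombination ℂ (fun g => π g v) f‖ ^ 2 = (c.inner f f).re := by
  refine ⟨Completion (Pre c), inferInstance, inferInstance, inferInstance, gnsRep c hc,
    ((toPre c (Finsupp.single 1 1) : Pre c) : Completion (Pre c)), gnsRep_unitary c hc, ?_⟩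
  intro f
  have e : Finsupp.linearCombination ℂ (fun g => gnsRep c hc g
      ((toPre c (Finsupp.single 1 1) : Pre c) : Completion (Pre c))) f =
      ((toPre c f : Pre c) : Completion (Pre c)) := by
    induction f using Finsupp.induction_linear with
    | zero => simp [Completion.coe_zero]
    | add a b ha hb => rw [map_add, ha, hb, map_add, Completion.coe_add]
    | single h r =>
      rw [Finsupp.linearCombination_single, gnsRep_coe, tl_single, mul_one, ← Completion.coe_smul,
        ← map_smul, Finsupp.smul_single, smul_eq_mul, mul_one]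
  rw [e, Completion.norm_coe, ← @inner_self_eq_norm_sq ℂ, pre_inner]
  rfl

end gns

section limit

variable {J : Type} (U : Ultrafilter J) (H : J → Type) [∀ j, SeminormedAddCommGroup (H j)]
  [∀ j, InnerProductSpace ℂ (H j)] (ξ : ∀ j, G → H j)

theorem lc_bound (hb : ∀ j g, ‖ξ j g‖ ≤ 1) (f : G →₀ ℂ) :
    ∃ C : ℝ, 0 ≤ C ∧ ∀ j, ‖Finsupp.linearCombination ℂ (ξ j) f‖ ≤ C := by
  refine ⟨∑ g ∈ f.support, ‖f g‖, by positivity, fun j => ?_⟩
  rw [Finsupp.linearCombination_apply, Finsupp.sum]
  refine (norm_sum_le _ _).trans (sum_le_sum fun g _ => ?_)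
  rw [norm_smul]
  exact mul_le_of_le_one_right (norm_nonneg _) (hb j g)

theorem lim_exists (hb : ∀ j g, ‖ξ j g‖ ≤ 1) (a b : G →₀ ℂ) : ∃ z : ℂ,
    Tendsto (fun j => ⟪Finsupp.linearCombination ℂ (ξ j) a,
      Finsupp.linearCombination ℂ (ξ j) b⟫_ℂ) U (𝓝 z) := by
  obtain ⟨C, hC0, hC⟩ := lc_bound H ξ hb a
  obtain ⟨D, hD0, hD⟩ := lc_bound H ξ hb b
  obtain ⟨z, -, hz⟩ := (isCompact_closedBall (0 : ℂ) (C * D)).ultrafilter_le_nhds'
    (U.map fun j => ⟪Finsupp.linearCombination ℂ (ξ j) a,
      Finsupp.linearCombination ℂ (ξ j) b⟫_ℂ) (by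
        rw [Ultrafilter.mem_map]
        refine univ_mem' fun j => ?_
        simp only [Set.mem_preimage, mem_closedBall_zero_iff]
        exact (norm_inner_le_norm _ _).trans (mul_le_mul (hC j) (hD j) (norm_nonneg _) hC0))
  exact ⟨z, hz⟩

theorem limit_rep (hb : ∀ j g, ‖ξ j g‖ ≤ 1)
    (hi : ∀ a g h, Tendsto (fun j => ⟪ξ j (a * g), ξ j (a * h)⟫_ℂ - ⟪ξ j g, ξ j h⟫_ℂ) U (𝓝 0)) :
    ∃ (E : Type) (_ : NormedAddCommGroup E) (_ : InnerProductSpace ℂ E)
    (_ : CompleteSpace E) (π : G →* (E →L[ℂ] E)) (v : E),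
    (∀ g, π g ∈ unitary (E →L[ℂ] E)) ∧ ∀ f : G →₀ ℂ,
      Tendsto (fun j => ‖Finsupp.linearCombination ℂ (ξ j) f‖ ^ 2) U
        (𝓝 (‖Finsupp.linearCombination ℂ (fun g => π g v) f‖ ^ 2)) := by
  choose B hB using lim_exists U H ξ hb
  let c : PreInnerProductSpace.Core ℂ (G →₀ ℂ) :=
    { inner := B
      conj_inner_symm := by
        intro a b
        have h1 := (Complex.continuous_conj.tendsto _).comp (hB b a)
        refine tendsto_nhds_unique h1 ((hB a b).congr fun j => ?_)
        simp
      re_inner_nonneg := by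
        intro a
        have h1 := (Complex.continuous_re.tendsto _).comp (hB a a)
        exact ge_of_tendsto' h1 fun j => inner_self_nonneg (𝕜 := ℂ)
      add_left := by
        intro a b d
        refine tendsto_nhds_unique (hB (a + b) d) (((hB a d).add (hB b d)).congr fun j => ?_)
        rw [map_add, inner_add_left]
      smul_left := by
        intro a b r
        refine tendsto_nhds_unique (hB (r • a) b)
          (((hB a b).const_mul ((starRingEnd ℂ) r)).congr fun j => ?_)
        rw [map_smul, inner_smul_left] }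
  have key : ∀ g a b, Tendsto (fun j => ⟪Finsupp.linearCombination ℂ (ξ j) (tl g a),
      Finsupp.linearCombination ℂ (ξ j) (tl g b)⟫_ℂ - ⟪Finsupp.linearCombination ℂ (ξ j) a,
      Finsupp.linearCombination ℂ (ξ j) b⟫_ℂ) U (𝓝 0) := by
    intro g a b
    induction a using Finsupp.induction_linear with
    | zero => simp
    | add a a' ha ha' =>
      have := ha.add ha'
      rw [add_zero] at this
      refine this.congr fun j => ?_
      simp only [map_add, inner_add_left]
      ring
    | single x r =>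
      induction b using Finsupp.induction_linear with
      | zero => simp
      | add a a' ha ha' =>
        have := ha.add ha'
        rw [add_zero] at this
        refine this.congr fun j => ?_
        simp only [map_add, inner_add_right]
        ring
      | single y t =>
        have := (hi g x y).const_mul ((starRingEnd ℂ) r * t)
        rw [mul_zero] at this
        refine this.congr fun j => ?_
        simp only [tl_single, Finsupp.linearCombination_single, inner_smul_left, inner_smul_right]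
        ring
  have hc : ∀ g a b, c.inner (tl g a) (tl g b) = c.inner a b := by
    intro g a b
    exact sub_eq_zero.mp (tendsto_nhds_unique ((hB _ _).sub (hB a b)) (key g a b))
  obtain ⟨E, _, _, _, π, v, h1, h2⟩ := gns c hc
  refine ⟨E, inferInstance, inferInstance, inferInstance, π, v, h1, fun f => ?_⟩
  rw [h2]
  have h3 := (Complex.continuous_re.tendsto _).comp (hB f f)
  refine h3.congr fun j => ?_
  exact inner_self_eq_norm_sq (𝕜 := ℂ) _

end limit

theorem lc_avg {I H : Type} [Fintype I] [AddCommGroup H] [Module ℂ H] (ξ : G → H) (γ : I → G) :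
    Finsupp.linearCombination ℂ ξ (avg fun i => Finsupp.single (γ i) (1 : ℂ)) =
      avg fun i => ξ (γ i) := by
  rw [map_avg]
  simp

/-- spectral gap for almost invariant kernels -/
theorem ker_gap {S : Finset G} (hK : Kaz G S) : ∃ K : ℝ, 0 ≤ K ∧ ∀ η : ℝ, 0 < η →
    ∃ (I : Type) (_ : Fintype I) (_ : Nonempty I) (γ : I → G) (W : Finset G) (δ : ℝ), 0 < δ ∧
      ∀ (H : Type) [SeminormedAddCommGroup H] [InnerProductSpace ℂ H] (ξ : G → H),
        (∀ g, ‖ξ g‖ ≤ 1) →
        (∀ a ∈ W, ∀ g ∈ W, ∀ h ∈ W, ‖⟪ξ (a * g), ξ (a * h)⟫_ℂ - ⟪ξ g, ξ h⟫_ℂ‖ ≤ δ) →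
        ∑ s ∈ S, ‖avg (fun i => ξ (s * γ i)) - avg (fun i => ξ (γ i))‖ ^ 2 ≤ η ∧
        ‖ξ 1 - avg (fun i => ξ (γ i))‖ ^ 2 ≤ K * ∑ s ∈ S, ‖ξ s - ξ 1‖ ^ 2 + η := by
  classical
  obtain ⟨K, hK0, hK⟩ := gap hK
  refine ⟨K, hK0, fun η hη => ?_⟩
  obtain ⟨θ, hθ, hθη⟩ : ∃ θ : ℝ, 0 < θ ∧ S.card * θ ^ 2 < η := by
    refine ⟨min 1 (η / (S.card + 1)), by positivity, ?_⟩
    have h1 : min 1 (η / (S.card + 1)) ≤ 1 := min_le_left _ _
    have h2 : min 1 (η / (S.card + 1)) ≤ η / (S.card + 1) := min_le_right _ _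
    have h3 : 0 < min 1 (η / (S.card + 1)) := by positivity
    have h4 : min 1 (η / (S.card + 1)) ^ 2 ≤ η / (S.card + 1) := by nlinarith
    have h5 : (0 : ℝ) ≤ S.card := by positivity
    calc _ ≤ S.card * (η / (S.card + 1)) := by gcongr
      _ < (S.card + 1) * (η / (S.card + 1)) := by gcongr; linarith
      _ = η := by field_simp
  obtain ⟨I, _, _, γ, hγ⟩ := hK θ hθ
  refine ⟨I, inferInstance, inferInstance, γ, ?_⟩
  by_contra hc
  have hc' : ∀ j : Finset G × ℕ, ∃ (H : Type) (_ : SeminormedAddCommGroup H)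
      (_ : InnerProductSpace ℂ H) (ξ : G → H), (∀ g, ‖ξ g‖ ≤ 1) ∧
      (∀ a ∈ j.1, ∀ g ∈ j.1, ∀ h ∈ j.1,
        ‖⟪ξ (a * g), ξ (a * h)⟫_ℂ - ⟪ξ g, ξ h⟫_ℂ‖ ≤ 1 / ((j.2 : ℝ) + 1)) ∧
      (η < ∑ s ∈ S, ‖avg (fun i => ξ (s * γ i)) - avg (fun i => ξ (γ i))‖ ^ 2 ∨
        K * ∑ s ∈ S, ‖ξ s - ξ 1‖ ^ 2 + η < ‖ξ 1 - avg (fun i => ξ (γ i))‖ ^ 2) := by
    intro j
    by_contra hn
    refine hc ⟨j.1, 1 / ((j.2 : ℝ) + 1), by positivity, fun H _ _ ξ h1 h2 => ?_⟩
    by_contra hq
    refine hn ⟨H, inferInstance, inferInstance, ξ, h1, h2, ?_⟩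
    rw [not_and_or, not_le, not_le] at hq
    exact hq
  choose H i1 i2 ξ h1 h2 h3 using hc'
  let U : Ultrafilter (Finset G × ℕ) := Ultrafilter.of atTop
  have hU : (U : Filter (Finset G × ℕ)) ≤ atTop := Ultrafilter.of_le _
  obtain ⟨E, _, _, _, π, v, hπ, hl⟩ := limit_rep U H ξ h1 (by
    intro a g h
    refine Tendsto.mono_left ?_ hU
    have t1 : Tendsto (fun j : Finset G × ℕ => 1 / ((j.2 : ℝ) + 1)) atTop (𝓝 0) := by
      refine tendsto_one_div_add_atTop_nhds_zero_nat.comp ?_
      rw [← prod_atTop_atTop_eq]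
      exact tendsto_snd
    refine squeeze_zero_norm' ?_ t1
    filter_upwards [eventually_ge_atTop (({a, g, h} : Finset G), (0 : ℕ))] with j hj
    have hj1 : ({a, g, h} : Finset G) ⊆ j.1 := hj.1
    exact h2 j a (hj1 (by simp)) g (hj1 (by simp)) h (hj1 (by simp)))
  obtain ⟨g1, g2⟩ := hγ E π hπ v
  have hv : ‖v‖ ≤ 1 := by
    have := hl (Finsupp.single 1 1)
    simp only [Finsupp.linearCombination_single, one_smul, map_one,
      ContinuousLinearMap.one_apply] at this
    have h4 : ‖v‖ ^ 2 ≤ 1 := le_of_tendsto' this fun j => by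
      have := h1 j 1
      have := norm_nonneg (ξ j 1)
      nlinarith
    have := norm_nonneg v
    nlinarith
  have l1 : Tendsto (fun j => ∑ s ∈ S,
      ‖avg (fun i => ξ j (s * γ i)) - avg (fun i => ξ j (γ i))‖ ^ 2) U
      (𝓝 (∑ s ∈ S, ‖avg (fun i => π (s * γ i) v) - avg (fun i => π (γ i) v)‖ ^ 2)) := by
    refine tendsto_finset_sum _ fun s _ => ?_
    have := hl ((avg fun i => Finsupp.single (s * γ i) (1 : ℂ)) -
      (avg fun i => Finsupp.single (γ i) (1 : ℂ)))
    simpa only [map_sub, lc_avg] using this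
  have l2 : Tendsto (fun j => ∑ s ∈ S, ‖ξ j s - ξ j 1‖ ^ 2) U
      (𝓝 (∑ s ∈ S, ‖π s v - v‖ ^ 2)) := by
    refine tendsto_finset_sum _ fun s _ => ?_
    have := hl (Finsupp.single s (1 : ℂ) - Finsupp.single 1 1)
    simpa only [map_sub, Finsupp.linearCombination_single, one_smul, map_one,
      ContinuousLinearMap.one_apply] using this
  have l3 : Tendsto (fun j => ‖ξ j 1 - avg (fun i => ξ j (γ i))‖ ^ 2) U
      (𝓝 (‖v - avg (fun i => π (γ i) v)‖ ^ 2)) := by
    have := hl (Finsupp.single 1 (1 : ℂ) - (avg fun i => Finsupp.single (γ i) (1 : ℂ)))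
    simpa only [map_sub, lc_avg, Finsupp.linearCombination_single, one_smul, map_one,
      ContinuousLinearMap.one_apply] using this
  have b1 : ∑ s ∈ S, ‖avg (fun i => π (s * γ i) v) - avg (fun i => π (γ i) v)‖ ^ 2 < η := by
    refine lt_of_le_of_lt ?_ hθη
    rw [← nsmul_eq_mul, ← sum_const]
    refine sum_le_sum fun s _ => ?_
    have := (g1 s).trans (mul_le_of_le_one_right hθ.le hv)
    gcongr
  have e1 := l1.eventually (gt_mem_nhds b1)
  have b2 : ‖v - avg (fun i => π (γ i) v)‖ ^ 2 - K * ∑ s ∈ S, ‖π s v - v‖ ^ 2 < η := by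
    linarith
  have e2 := (l3.sub (l2.const_mul K)).eventually (gt_mem_nhds b2)
  obtain ⟨j, j1, j2⟩ := (e1.and e2).exists
  rcases h3 j with h | h <;> linarith

end Pool.Agent.H515Z.GM
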