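import Mathlib
import Pool.Agent.H515Z.GMKer

set_option autoImplicit false
set_option linter.unusedSectionVars false
set_option linter.unusedVariables false

/-!
Spectral gap for approximate representations acting by conjugation on tuples of matrices.
-/

namespace Pool.Agent.H515Z.GM

open Finset Matrix
open scoped InnerProductSpace MatrixOrder ComplexOrder
open Pool.Agent.H304Z.NH

variable {G : Type} [Group G]

/-- spectral gap for almost multiplicative families of isometries -/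
theorem iso_gap {S : Finset G} (hK : Kaz G S) : ∃ K : ℝ, 0 ≤ K ∧ ∀ η : ℝ, 0 < η →
    ∃ (I : Type) (_ : Fintype I) (_ : Nonempty I) (γ : I → G) (W : Finset G) (δ : ℝ), 0 < δ ∧
      ∀ (H : Type) [SeminormedAddCommGroup H] [InnerProductSpace ℂ H] (V : G → H →ₗ[ℂ] H),
        (∀ g x y, ⟪V g x, V g y⟫_ℂ = ⟪x, y⟫_ℂ) → (∀ x, V 1 x = x) → ∀ x : H, ‖x‖ ≤ 1 →
        (∀ a ∈ W, ∀ g ∈ W, ‖V a (V g x) - V (a * g) x‖ ≤ δ) →
        ∑ s ∈ S, ‖V s (avg (fun i => V (γ i) x)) - avg (fun i => V (γ i) x)‖ ^ 2 ≤ η ∧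
        ‖x - avg (fun i => V (γ i) x)‖ ^ 2 ≤ K * ∑ s ∈ S, ‖V s x - x‖ ^ 2 + η := by
  classical
  obtain ⟨K, hK0, hK⟩ := ker_gap hK
  refine ⟨K, hK0, fun η hη => ?_⟩
  obtain ⟨I, _, _, γ, W, δ, hδ, h⟩ := hK (η / 4) (by positivity)
  obtain ⟨θ, hθ, hθδ, hθη⟩ : ∃ θ : ℝ, 0 < θ ∧ θ ≤ δ / 2 ∧ S.card * θ ^ 2 ≤ η / 4 := by
    refine ⟨min (δ / 2) (min 1 (η / 4 / (S.card + 1))), by positivity, min_le_left _ _, ?_⟩
    set t := min (δ / 2) (min 1 (η / 4 / (S.card + 1))) with ht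
    have h1 : t ≤ 1 := (min_le_right _ _).trans (min_le_left _ _)
    have h2 : t ≤ η / 4 / (S.card + 1) := (min_le_right _ _).trans (min_le_right _ _)
    have h3 : 0 < t := by positivity
    have h4 : t ^ 2 ≤ η / 4 / (S.card + 1) := by nlinarith
    have h5 : (0 : ℝ) ≤ S.card := by positivity
    calc _ ≤ S.card * (η / 4 / (S.card + 1)) := by gcongr
      _ ≤ (S.card + 1) * (η / 4 / (S.card + 1)) := by gcongr; linarith
      _ = η / 4 := by field_simp
  refine ⟨I, inferInstance, inferInstance, γ, W ∪ S ∪ univ.image γ, θ, hθ, ?_⟩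
  intro H _ _ V hV hV1 x hx hW
  have hn : ∀ g z, ‖V g z‖ = ‖z‖ := fun g z => by
    rw [@norm_eq_sqrt_re_inner ℂ, @norm_eq_sqrt_re_inner ℂ, hV]
  obtain ⟨c1, c2⟩ := h H (fun g => V g x) (fun g => (hn g x).le.trans hx) (by
    intro a ha g hg k hk
    have a1 := hW a (by simp [ha]) g (by simp [hg])
    have a2 := hW a (by simp [ha]) k (by simp [hk])
    rw [← hV a (V g x) (V k x)]
    have e : ⟪V (a * g) x, V (a * k) x⟫_ℂ - ⟪V a (V g x), V a (V k x)⟫_ℂ =
        -(⟪V a (V g x) - V (a * g) x, V (a * k) x⟫_ℂ +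
          ⟪V a (V g x), V a (V k x) - V (a * k) x⟫_ℂ) := by
      rw [inner_sub_left, inner_sub_right]
      ring
    rw [e, norm_neg]
    refine (norm_add_le _ _).trans ?_
    have b1 := norm_inner_le_norm (𝕜 := ℂ) (V a (V g x) - V (a * g) x) (V (a * k) x)
    have b2 := norm_inner_le_norm (𝕜 := ℂ) (V a (V g x)) (V a (V k x) - V (a * k) x)
    rw [hn] at b1
    rw [hn, hn] at b2
    have b3 : ‖V a (V g x) - V (a * g) x‖ * ‖x‖ ≤ θ * 1 := by gcongr
    have b4 : ‖x‖ * ‖V a (V k x) - V (a * k) x‖ ≤ 1 * θ := by gcongr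
    linarith)
  simp only [hV1] at c2
  refine ⟨?_, by linarith⟩
  have d : ∀ s ∈ S, ‖V s (avg (fun i => V (γ i) x)) - avg (fun i => V (γ i) x)‖ ^ 2 ≤
      2 * θ ^ 2 + 2 * ‖avg (fun i => V (s * γ i) x) - avg (fun i => V (γ i) x)‖ ^ 2 := by
    intro s hs
    have d1 : ‖V s (avg (fun i => V (γ i) x)) - avg (fun i => V (s * γ i) x)‖ ≤ θ := by
      rw [map_avg, ← avg_sub]
      exact norm_avg_le _ _ fun i => hW s (by simp [hs]) (γ i) (by simp)
    have d2 := norm_sub_le_norm_sub_add_norm_sub (V s (avg (fun i => V (γ i) x)))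
      (avg (fun i => V (s * γ i) x)) (avg (fun i => V (γ i) x))
    have d3 : ‖V s (avg (fun i => V (γ i) x)) - avg (fun i => V (γ i) x)‖ ^ 2 ≤
        (θ + ‖avg (fun i => V (s * γ i) x) - avg (fun i => V (γ i) x)‖) ^ 2 := by
      gcongr
      linarith
    nlinarith [sq_nonneg (θ - ‖avg (fun i => V (s * γ i) x) - avg (fun i => V (γ i) x)‖)]
  refine (sum_le_sum d).trans ?_
  rw [sum_add_distrib, sum_const, nsmul_eq_mul, ← mul_sum]
  nlinarith

/-- the scaled version -/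
theorem iso_gap' {S : Finset G} (hK : Kaz G S) : ∃ K : ℝ, 0 ≤ K ∧ ∀ η : ℝ, 0 < η →
    ∃ (I : Type) (_ : Fintype I) (_ : Nonempty I) (γ : I → G) (W : Finset G) (δ : ℝ), 0 < δ ∧
      ∀ (H : Type) [SeminormedAddCommGroup H] [InnerProductSpace ℂ H] (V : G → H →ₗ[ℂ] H),
        (∀ g x y, ⟪V g x, V g y⟫_ℂ = ⟪x, y⟫_ℂ) → (∀ x, V 1 x = x) → ∀ (x : H) (c : ℝ), 0 < c →
        ‖x‖ ^ 2 ≤ c → (∀ a ∈ W, ∀ g ∈ W, ‖V a (V g x) - V (a * g) x‖ ^ 2 ≤ δ * c) →
        ∑ s ∈ S, ‖V s (avg (fun i => V (γ i) x)) - avg (fun i => V (γ i) x)‖ ^ 2 ≤ η * c ∧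
        ‖x - avg (fun i => V (γ i) x)‖ ^ 2 ≤ K * ∑ s ∈ S, ‖V s x - x‖ ^ 2 + η * c := by
  obtain ⟨K, hK0, hK⟩ := iso_gap hK
  refine ⟨K, hK0, fun η hη => ?_⟩
  obtain ⟨I, _, _, γ, W, δ, hδ, h⟩ := hK η hη
  refine ⟨I, inferInstance, inferInstance, γ, W, δ ^ 2, by positivity, ?_⟩
  intro H _ _ V hV hV1 x c hc hx hW
  set r : ℂ := (((√c)⁻¹ : ℝ) : ℂ) with hr
  have hs : ∀ z : H, ‖r • z‖ ^ 2 = c⁻¹ * ‖z‖ ^ 2 := fun z => by
    rw [norm_smul, mul_pow, hr, Complex.norm_real, Real.norm_eq_abs, sq_abs, inv_pow,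
      Real.sq_sqrt hc.le]
  have hav : avg (fun i => V (γ i) (r • x)) = r • avg (fun i => V (γ i) x) := by
    simp only [avg, map_smul]
    rw [← smul_sum, smul_comm]
  obtain ⟨c1, c2⟩ := h H V hV hV1 (r • x) (by
    refine abs_le_of_sq_le_sq' ?_ zero_le_one |>.2
    rw [hs, inv_mul_le_iff₀ hc]
    linarith) (by
    intro a ha g hg
    refine abs_le_of_sq_le_sq' ?_ hδ.le |>.2
    rw [map_smul, map_smul, map_smul, ← smul_sub, hs, inv_mul_le_iff₀ hc]
    have := hW a ha g hg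
    linarith)
  rw [hav] at c1 c2
  simp only [map_smul, ← smul_sub, hs, ← mul_sum] at c1 c2
  rw [inv_mul_le_iff₀ hc] at c1 c2
  refine ⟨by linarith, c2.trans (le_of_eq ?_)⟩
  field_simp

/-- tuples of matrices with the Hilbert-Schmidt inner product -/
def HS (ι n : Type) : Type := ι → Mat n

section hs

variable {ι n : Type} [Fintype ι] [Fintype n] [DecidableEq n]

instance : AddCommGroup (HS ι n) := inferInstanceAs (AddCommGroup (ι → Mat n))

noncomputable instance : Module ℂ (HS ι n) := inferInstanceAs (Module ℂ (ι → Mat n))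

/-- the identity map -/
noncomputable def ofHS : HS ι n ≃ₗ[ℂ] (ι → Mat n) := LinearEquiv.refl ℂ _

theorem nsq_nonneg (x : Mat n) : 0 ≤ nsq x :=
  (Complex.nonneg_iff.mp (Matrix.posSemidef_conjTranspose_mul_self x).trace_nonneg).1

/-- the core -/
noncomputable abbrev hsCore : PreInnerProductSpace.Core ℂ (HS ι n) where
  inner x y := ∑ a, trace ((ofHS x a)ᴴ * ofHS y a)
  conj_inner_symm x y := by
    rw [map_sum]
    refine sum_congr rfl fun a _ => ?_
    rw [starRingEnd_apply, ← trace_conjTranspose, conjTranspose_mul, conjTranspose_conjTranspose]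
  re_inner_nonneg x := by
    rw [map_sum]
    exact sum_nonneg fun a _ => nsq_nonneg _
  add_left x y z := by
    simp only [map_add, Pi.add_apply, conjTranspose_add, Matrix.add_mul, trace_add,
      sum_add_distrib]
  smul_left x y r := by
    simp only [map_smul, Pi.smul_apply, conjTranspose_smul, Matrix.smul_mul, trace_smul,
      smul_eq_mul, mul_sum]
    rfl

noncomputable instance : SeminormedAddCommGroup (HS ι n) :=
  InnerProductSpace.Core.toSeminormedAddCommGroup (c := hsCore)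

noncomputable instance : InnerProductSpace ℂ (HS ι n) := InnerProductSpace.ofCore hsCore

theorem hs_inner (x y : HS ι n) : ⟪x, y⟫_ℂ = ∑ a, trace ((ofHS x a)ᴴ * ofHS y a) := rfl

theorem hs_norm (x : HS ι n) : ‖x‖ ^ 2 = ∑ a, nsq (ofHS x a) := by
  rw [← @inner_self_eq_norm_sq ℂ, hs_inner, map_sum]
  rfl

/-- two-sided multiplication -/
noncomputable def lr (p q : Mat n) : HS ι n →ₗ[ℂ] HS ι n where
  toFun x := ofHS.symm (fun a => p * ofHS x a * q)
  map_add' x y := by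
    rw [← map_add]
    congr 1
    funext a
    simp [Matrix.mul_add, Matrix.add_mul]
  map_smul' r x := by
    rw [RingHom.id_apply, ← map_smul]
    congr 1
    funext a
    simp

theorem lr_apply (p q : Mat n) (x : HS ι n) (a : ι) : ofHS (lr p q x) a = p * ofHS x a * q := rfl

theorem tr_lr {p q : Mat n} (hp : pᴴ * p = 1) (hq : q * qᴴ = 1) (x y : Mat n) :
    trace ((p * x * q)ᴴ * (p * y * q)) = trace (xᴴ * y) := by
  have : (p * x * q)ᴴ * (p * y * q) = qᴴ * (xᴴ * (pᴴ * p) * y * q) := by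
    simp only [conjTranspose_mul, Matrix.mul_assoc]
  rw [this, hp, Matrix.mul_one, trace_mul_comm, Matrix.mul_assoc, hq, Matrix.mul_one]

theorem nsq_lr {p q : Mat n} (hp : pᴴ * p = 1) (hq : q * qᴴ = 1) (x : Mat n) :
    nsq (p * x * q) = nsq x := by
  unfold nsq tr
  rw [tr_lr hp hq]

theorem lr_inner {p q : Mat n} (hp : pᴴ * p = 1) (hq : q * qᴴ = 1) (x y : HS ι n) :
    ⟪lr p q x, lr p q y⟫_ℂ = ⟪x, y⟫_ℂ := by
  simp only [hs_inner, lr_apply, tr_lr hp hq]

theorem nsq_conj_sub {u : Mat n} (hu : IsU u) (w : Mat n) :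
    nsq (u * w * uᴴ - w) = nsq (cm u w) := by
  have e : u * w * uᴴ - w = 1 * cm u w * uᴴ := by
    rw [cm, Matrix.one_mul, Matrix.sub_mul, Matrix.mul_assoc w, hu.2, Matrix.mul_one]
  rw [e, nsq_lr (by simp) (by simp [hu.1])]

end hs

/-- spectral gap for approximate representations -/
theorem gm : Pool.Agent.H304Z.NH.S_GM := by
  intro G _ S hK
  obtain ⟨K, hK0, hK⟩ := iso_gap' hK
  refine ⟨K, hK0, fun η hη => ?_⟩
  obtain ⟨I, _, _, γ, W, δ, hδ, h⟩ := hK η hη
  refine ⟨I, inferInstance, inferInstance, γ, W, δ / 4, by positivity, ?_⟩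
  intro n _ _ u hu hu1 ι _ y c hc hy hW
  have hV : ∀ g (x z : HS ι n), ⟪lr (u g) (u g)ᴴ x, lr (u g) (u g)ᴴ z⟫_ℂ = ⟪x, z⟫_ℂ :=
    fun g x z => lr_inner (hu g).1 (by simp [(hu g).1]) x z
  have hV1 : ∀ x : HS ι n, lr (u 1) (u 1)ᴴ x = x := fun x => by
    apply ofHS.injective
    funext a
    rw [lr_apply, hu1]
    simp
  obtain ⟨c1, c2⟩ := h (HS ι n) (fun g => lr (u g) (u g)ᴴ) hV hV1 (ofHS.symm y) c hc
    (by rw [hs_norm]; exact hy) (by
      intro a ha g hg
      obtain ⟨w1, w2⟩ := hW a ha g hg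
      have e : lr (u a) (u a)ᴴ (lr (u g) (u g)ᴴ (ofHS.symm y)) -
          lr (u (a * g)) (u (a * g))ᴴ (ofHS.symm y : HS ι n) =
          lr (df u a g) (u a * u g)ᴴ (ofHS.symm y) +
            lr (u (a * g)) (df u a g)ᴴ (ofHS.symm y) := by
        apply ofHS.injective
        funext i
        simp only [map_sub, map_add, Pi.sub_apply, Pi.add_apply, lr_apply, df, conjTranspose_sub,
          conjTranspose_mul, Matrix.sub_mul, Matrix.mul_sub, Matrix.mul_assoc]
        abel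
      have n1 : ‖lr (df u a g) (u a * u g)ᴴ (ofHS.symm y : HS ι n)‖ ^ 2 ≤ δ / 4 * c := by
        rw [hs_norm]
        refine le_of_eq_of_le (sum_congr rfl fun i _ => ?_) w1
        rw [lr_apply, LinearEquiv.apply_symm_apply, ← Matrix.one_mul (df u a g * y i),
          nsq_lr (by simp) ?_, Matrix.one_mul]
        rw [conjTranspose_conjTranspose, conjTranspose_mul, Matrix.mul_assoc,
          ← Matrix.mul_assoc (u a)ᴴ, (hu a).1, Matrix.one_mul, (hu g).1]
      have n2 : ‖lr (u (a * g)) (df u a g)ᴴ (ofHS.symm y : HS ι n)‖ ^ 2 ≤ δ / 4 * c := by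
        rw [hs_norm]
        refine le_of_eq_of_le (sum_congr rfl fun i _ => ?_) w2
        rw [lr_apply, LinearEquiv.apply_symm_apply, Matrix.mul_assoc,
          ← Matrix.mul_one (u (a * g) * _), nsq_lr (hu _).1 (by simp)]
      show ‖lr (u a) (u a)ᴴ (lr (u g) (u g)ᴴ (ofHS.symm y)) -
          lr (u (a * g)) (u (a * g))ᴴ (ofHS.symm y : HS ι n)‖ ^ 2 ≤ δ * c
      rw [e]
      set p := lr (df u a g) (u a * u g)ᴴ (ofHS.symm y : HS ι n)
      set q := lr (u (a * g)) (df u a g)ᴴ (ofHS.symm y : HS ι n)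
      have n3 : ‖p + q‖ ^ 2 ≤ (‖p‖ + ‖q‖) ^ 2 := by
        gcongr
        exact norm_add_le _ _
      nlinarith [sq_nonneg (‖p‖ - ‖q‖)])
  have hav : ∀ a, ofHS (avg (fun i => lr (u (γ i)) (u (γ i))ᴴ (ofHS.symm y : HS ι n))) a =
      av u γ (y a) := by
    intro a
    simp only [avg, av, map_smul, map_sum, Pi.smul_apply, Finset.sum_apply, lr_apply,
      LinearEquiv.apply_symm_apply]
    rw [← Complex.coe_smul]
    simp
  simp only [hs_norm, map_sub, Pi.sub_apply, lr_apply, hav, LinearEquiv.apply_symm_apply,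
    nsq_conj_sub (hu _)] at c1 c2
  unfold en
  rw [sum_comm, sum_comm (s := univ) (t := S)]
  exact ⟨c1, c2⟩

end Pool.Agent.H515Z.GM
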