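import Mathlib

set_option autoImplicit false

/-! Permutation actions of the braid group on four strands obtained by forgetting a strand. -/

namespace Pool.Agent.H515Z.B4

open Equiv

/-- The relators. -/
def rels : Set (FreeGroup (Fin 3)) :=
  {FreeGroup.of (0 : Fin 3) * FreeGroup.of 1 * FreeGroup.of 0 *
      (FreeGroup.of 1 * FreeGroup.of 0 * FreeGroup.of 1)⁻¹,
    FreeGroup.of (1 : Fin 3) * FreeGroup.of 2 * FreeGroup.of 1 *
      (FreeGroup.of 2 * FreeGroup.of 1 * FreeGroup.of 2)⁻¹,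
    FreeGroup.of (0 : Fin 3) * FreeGroup.of 2 *
      (FreeGroup.of 2 * FreeGroup.of 0)⁻¹}

/-- The braid group. -/
abbrev Br : Type := PresentedGroup rels

/-- The Artin generators. -/
def sg (i : Fin 3) : Br := PresentedGroup.of i

theorem rel01 : sg 0 * sg 1 * sg 0 = sg 1 * sg 0 * sg 1 := by
  have h := PresentedGroup.one_of_mem (rels := rels) (Or.inl rfl)
  rw [map_mul, map_inv, mul_inv_eq_one] at h
  exact h

theorem rel12 : sg 1 * sg 2 * sg 1 = sg 2 * sg 1 * sg 2 := by
  have h := PresentedGroup.one_of_mem (rels := rels) (Or.inr (Or.inl rfl))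
  rw [map_mul, map_inv, mul_inv_eq_one] at h
  exact h

theorem rel02 : sg 0 * sg 2 = sg 2 * sg 0 := by
  have h := PresentedGroup.one_of_mem (rels := rels) (Or.inr (Or.inr rfl))
  rw [map_mul, map_inv, mul_inv_eq_one] at h
  exact h

/-- Elements of a wreath product acting on a product. -/
def wr {S Z : Type} (σ : Perm S) (f : S → Perm Z) : Perm (S × Z) := Equiv.prodShear σ f

theorem wr_apply {S Z : Type} (σ : Perm S) (f : S → Perm Z) (j : S) (z : Z) :
    wr σ f (j, z) = (σ j, f j z) := rfl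

theorem wr_inv_apply {S Z : Type} (σ : Perm S) (f : S → Perm Z) (j : S) (z : Z) :
    (wr σ f)⁻¹ (j, z) = (σ⁻¹ j, (f (σ⁻¹ j))⁻¹ z) := by
  rw [Perm.inv_eq_iff_eq, wr_apply]
  simp

theorem wr_symm_apply {S Z : Type} (σ : Perm S) (f : S → Perm Z) (j : S) (z : Z) :
    (wr σ f).symm (j, z) = (σ⁻¹ j, (f (σ⁻¹ j))⁻¹ z) := wr_inv_apply σ f j z

/-- First involution of six states. -/
def p6 : Perm (Fin 6) := ⟨![1, 0, 3, 2, 5, 4], ![1, 0, 3, 2, 5, 4], by decide, by decide⟩

/-- Second involution of six states. -/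
def q6 : Perm (Fin 6) := ⟨![2, 4, 0, 5, 1, 3], ![2, 4, 0, 5, 1, 3], by decide, by decide⟩

variable {Y : Type}

/-- First generator on six states. -/
def s6 (x y : Perm Y) : Perm (Fin 6 × Y) := wr p6 ![1, x, 1, y⁻¹ * x⁻¹, 1, y]

/-- Second generator on six states. -/
def t6 (x y : Perm Y) : Perm (Fin 6 × Y) := wr q6 ![1, 1, y, 1, x⁻¹ * y⁻¹, x]

theorem braid6 (x y : Perm Y) : s6 x y * t6 x y * s6 x y = t6 x y * s6 x y * t6 x y := by
  apply Equiv.ext
  rintro ⟨j, z⟩
  fin_cases j <;> simp [s6, t6, wr_apply, p6, q6]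

/-- The three generators on four states. -/
def g4 {Z : Type} (s t : Perm Z) : Fin 3 → Perm (Fin 4 × Z) :=
  ![wr (swap 0 1) ![1, 1, s, s], wr (swap 1 2) ![s, 1, 1, t], wr (swap 2 3) ![t, t, 1, 1]]

theorem g4_rels {Z : Type} (s t : Perm Z) (h : s * t * s = t * s * t) :
    ∀ r ∈ rels, FreeGroup.lift (g4 s t) r = 1 := by
  have h' : ∀ z, s (t (s z)) = t (s (t z)) := fun z => by
    simpa using congrArg (fun σ => σ z) h
  rintro r (rfl | rfl | rfl)
  all_goals
    simp only [map_mul, map_inv, FreeGroup.lift_apply_of, mul_inv_eq_one]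
    apply Equiv.ext
    rintro ⟨j, z⟩
    fin_cases j <;> simp [g4, wr_apply, swap_apply_def, h']

/-- The action of the braid group. -/
def act (x y : Perm Y) : Br →* Perm (Fin 4 × Fin 6 × Y) :=
  PresentedGroup.toGroup (g4_rels (s6 x y) (t6 x y) (braid6 x y))

theorem act_sg (x y : Perm Y) (i : Fin 3) : act x y (sg i) = g4 (s6 x y) (t6 x y) i :=
  PresentedGroup.toGroup.of _

/-- Intertwining maps. -/
def Semi {Z Z' : Type} (F : Z → Z') (g : Perm Z) (g' : Perm Z') : Prop := ∀ z, F (g z) = g' (F z)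

theorem Semi.one {Z Z' : Type} (F : Z → Z') : Semi F 1 1 := fun _ => rfl

theorem Semi.mul {Z Z' : Type} {F : Z → Z'} {g h : Perm Z} {g' h' : Perm Z'} (a : Semi F g g')
    (b : Semi F h h') : Semi F (g * h) (g' * h') := fun z => by
  rw [Perm.mul_apply, Perm.mul_apply, a, b]

theorem Semi.inv {Z Z' : Type} {F : Z → Z'} {g : Perm Z} {g' : Perm Z'} (a : Semi F g g') :
    Semi F g⁻¹ g'⁻¹ := fun z => by
  rw [Perm.eq_inv_iff_eq, ← a]
  simp

theorem Semi.wr {S Z Z' : Type} {F : Z → Z'} (σ : Perm S) {f : S → Perm Z} {f' : S → Perm Z'}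
    (h : ∀ j, Semi F (f j) (f' j)) : Semi (Prod.map id F) (wr σ f) (wr σ f') := by
  rintro ⟨j, z⟩
  simp [wr_apply, h j z]

theorem semi_act {Y' : Type} {F : Y → Y'} {x y : Perm Y} {x' y' : Perm Y'} (hx : Semi F x x')
    (hy : Semi F y y') (g : Br) :
    Semi (Prod.map id (Prod.map id F)) (act x y g) (act x' y' g) := by
  have hs : Semi (Prod.map id F) (s6 x y) (s6 x' y') := by
    apply Semi.wr
    intro j
    fin_cases j
    exacts [Semi.one _, hx, Semi.one _, hy.inv.mul hx.inv, Semi.one _, hy]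
  have ht : Semi (Prod.map id F) (t6 x y) (t6 x' y') := by
    apply Semi.wr
    intro j
    fin_cases j
    exacts [Semi.one _, Semi.one _, hy, Semi.one _, hx.inv.mul hy.inv, hx]
  have hg : g ∈ Subgroup.closure (Set.range (PresentedGroup.of : Fin 3 → Br)) := by
    rw [PresentedGroup.closure_range_of]; trivial
  induction hg using Subgroup.closure_induction with
  | mem g hg =>
    obtain ⟨i, rfl⟩ := hg
    change Semi _ (act x y (sg i)) (act x' y' (sg i))
    rw [act_sg, act_sg]
    fin_cases i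
    · apply Semi.wr
      intro j
      fin_cases j
      exacts [Semi.one _, Semi.one _, hs, hs]
    · apply Semi.wr
      intro j
      fin_cases j
      exacts [hs, Semi.one _, Semi.one _, ht]
    · apply Semi.wr
      intro j
      fin_cases j
      exacts [ht, ht, Semi.one _, Semi.one _]
  | one => simpa using Semi.one _
  | mul g h _ _ ihg ihh => simpa using ihg.mul ihh
  | inv g _ ih => simpa using ih.inv

/-- The pure braids. -/
def al : Br := sg 0 * sg 0
/-- The pure braids. -/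
def be : Br := sg 1 * sg 1
/-- The pure braids. -/
def bb : Br := sg 2 * sg 2
/-- The pure braids. -/
def cc : Br := sg 2 * sg 1 * sg 1 * (sg 2)⁻¹
/-- The pure braids. -/
def aa : Br := sg 2 * sg 1 * sg 0 * sg 0 * (sg 1)⁻¹ * (sg 2)⁻¹

/-- The action on the fibre over a fixed state. -/
def Fib (x y : Perm Y) (i : Fin 4) (j : Fin 6) (g : Br) (π : Perm Y) : Prop :=
  ∀ z, act x y g (i, j, z) = (i, j, π z)

variable {x y : Perm Y} {i : Fin 4} {j : Fin 6}

theorem Fib.one : Fib x y i j 1 1 := fun z => by simp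

theorem Fib.mul {g h : Br} {π τ : Perm Y} (a : Fib x y i j g π) (b : Fib x y i j h τ) :
    Fib x y i j (g * h) (π * τ) := fun z => by
  rw [map_mul, Perm.mul_apply, b, a, Perm.mul_apply]

theorem Fib.inv {g : Br} {π : Perm Y} (a : Fib x y i j g π) : Fib x y i j g⁻¹ π⁻¹ := fun z => by
  rw [map_inv, Perm.inv_eq_iff_eq, a]
  simp

theorem Fib.pow {g : Br} {π : Perm Y} (a : Fib x y i j g π) (n : ℕ) :
    Fib x y i j (g ^ n) (π ^ n) := by
  induction n with
  | zero => simpa using Fib.one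
  | succ n ih => rw [pow_succ, pow_succ]; exact ih.mul a

theorem fib2_al : Fib x y 3 0 al x := fun z => by
  simp [al, act_sg, g4, s6, wr_apply, swap_apply_def, p6]

theorem fib2_be : Fib x y 3 0 be y := fun z => by
  simp [be, act_sg, g4, t6, wr_apply, swap_apply_def, q6]

theorem fib2_bb : Fib x y 3 0 bb 1 := fun z => by
  simp [bb, act_sg, g4, wr_apply]

theorem fib2_cc : Fib x y 3 0 cc 1 := fun z => by
  simp [cc, act_sg, g4, wr_apply, wr_symm_apply, swap_apply_def]

theorem fib2_aa : Fib x y 3 0 aa 1 := fun z => by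
  simp [aa, act_sg, g4, wr_apply, wr_symm_apply, swap_apply_def]

theorem fib1_al : Fib x y 1 2 al 1 := fun z => by
  simp [al, act_sg, g4, wr_apply]

theorem fib1_be : Fib x y 1 2 be 1 := fun z => by
  simp [be, act_sg, g4, wr_apply]

theorem fib1_bb : Fib x y 1 2 bb y := fun z => by
  simp [bb, act_sg, g4, t6, wr_apply, swap_apply_def, q6]

theorem fib1_cc : Fib x y 1 2 cc 1 := fun z => by
  simp [cc, act_sg, g4, wr_apply, wr_symm_apply, swap_apply_def]

theorem fib1_aa : Fib x y 1 2 aa x := fun z => by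
  have h1 : (t6 x y).symm (2, z) = (0, z) := by
    rw [Equiv.symm_apply_eq]; rfl
  have h2 : s6 x y (s6 x y (0, z)) = (0, x z) := rfl
  have h3 : t6 x y (0, x z) = (2, x z) := rfl
  simp [aa, act_sg, g4, wr_apply, wr_symm_apply, swap_apply_def, h1, h2, h3]

end Pool.Agent.H515Z.B4
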