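import Mathlib

set_option autoImplicit false

/-! Subgroups generated by meridians in a point pushing extension. -/

namespace Pool.Agent.H515Z.B4

variable {G : Type} [Group G]

/-- The value of a letter. -/
def lt (a b : G) (t : Bool × Bool) : G :=
  if t.2 then (if t.1 then b else a) else (if t.1 then b else a)⁻¹

/-- The value of a word. -/
def ev (a b : G) (l : List (Bool × Bool)) : G := (l.map (lt a b)).prod

theorem ev_nil (a b : G) : ev a b [] = 1 := rfl

theorem ev_cons (a b : G) (t : Bool × Bool) (l : List (Bool × Bool)) :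
    ev a b (t :: l) = lt a b t * ev a b l := by simp [ev]

/-- The subgroup generated by the meridians at distance at most `r`. -/
def N (a b c : G) (r : ℕ) : Subgroup G :=
  Subgroup.closure {x | ∃ l : List (Bool × Bool), l.length ≤ r ∧ x = ev a b l * c * (ev a b l)⁻¹}

variable {a b c : G}

theorem N_mono {r r' : ℕ} (h : r ≤ r') : N a b c r ≤ N a b c r' := by
  apply Subgroup.closure_mono
  rintro x ⟨l, hl, rfl⟩
  exact ⟨l, hl.trans h, rfl⟩

theorem mu_mem {r : ℕ} (l : List (Bool × Bool)) (h : l.length ≤ r) :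
    ev a b l * c * (ev a b l)⁻¹ ∈ N a b c r :=
  Subgroup.subset_closure ⟨l, h, rfl⟩

theorem conj_le {r : ℕ} (g : G) (K : Subgroup G)
    (h : ∀ l : List (Bool × Bool), l.length ≤ r → g * (ev a b l * c * (ev a b l)⁻¹) * g⁻¹ ∈ K)
    {x : G} (hx : x ∈ N a b c r) : g * x * g⁻¹ ∈ K := by
  induction hx using Subgroup.closure_induction with
  | mem x hx =>
    obtain ⟨l, hl, rfl⟩ := hx
    exact h l hl
  | one => simpa using K.one_mem
  | mul x y _ _ hx hy =>
    have : g * (x * y) * g⁻¹ = (g * x * g⁻¹) * (g * y * g⁻¹) := by group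
    rw [this]; exact K.mul_mem hx hy
  | inv x _ hx =>
    have : g * x⁻¹ * g⁻¹ = (g * x * g⁻¹)⁻¹ := by group
    rw [this]; exact K.inv_mem hx

theorem conj_letter {r : ℕ} (t : Bool × Bool) {x : G} (hx : x ∈ N a b c r) :
    lt a b t * x * (lt a b t)⁻¹ ∈ N a b c (r + 1) := by
  refine conj_le _ _ ?_ hx
  intro l hl
  have : lt a b t * (ev a b l * c * (ev a b l)⁻¹) * (lt a b t)⁻¹ =
      ev a b (t :: l) * c * (ev a b (t :: l))⁻¹ := by rw [ev_cons]; group
  rw [this]
  exact mu_mem _ (by simpa using hl)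

theorem conj_ev {r : ℕ} (l : List (Bool × Bool)) {x : G} (hx : x ∈ N a b c r) :
    ev a b l * x * (ev a b l)⁻¹ ∈ N a b c (r + l.length) := by
  induction l with
  | nil => simpa [ev_nil] using hx
  | cons t l ih =>
    have : ev a b (t :: l) * x * (ev a b (t :: l))⁻¹ =
        lt a b t * (ev a b l * x * (ev a b l)⁻¹) * (lt a b t)⁻¹ := by rw [ev_cons]; group
    rw [this]
    exact conj_letter t ih

/-- An element pushing the punctures by at most one step. -/
def Good (a b c s : G) : Prop :=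
  (∀ t, s * lt a b t * s⁻¹ * (lt a b t)⁻¹ ∈ N a b c 2) ∧ s * c * s⁻¹ ∈ N a b c 1

theorem c_mem (r : ℕ) : c ∈ N a b c r := by
  simpa [ev_nil] using mu_mem (a := a) (b := b) (c := c) (r := r) [] (by simp)

theorem good_one : Good a b c 1 := by
  refine ⟨fun t => ?_, ?_⟩
  · simpa using Subgroup.one_mem _
  · simpa using c_mem 1

theorem Good.comm_ev {s : G} (hs : Good a b c s) (l : List (Bool × Bool)) :
    s * ev a b l * s⁻¹ * (ev a b l)⁻¹ ∈ N a b c (l.length + 1) := by
  induction l with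
  | nil => simpa [ev_nil] using Subgroup.one_mem _
  | cons t l ih =>
    have : s * ev a b (t :: l) * s⁻¹ * (ev a b (t :: l))⁻¹ =
        (s * lt a b t * s⁻¹ * (lt a b t)⁻¹) *
          (lt a b t * (s * ev a b l * s⁻¹ * (ev a b l)⁻¹) * (lt a b t)⁻¹) := by
      rw [ev_cons]; group
    rw [this]
    exact Subgroup.mul_mem _ (N_mono (by simp) (hs.1 t)) (conj_letter t ih)

theorem Good.push {s : G} (hs : Good a b c s) {r : ℕ} {x : G} (hx : x ∈ N a b c r) :
    s * x * s⁻¹ ∈ N a b c (r + 1) := by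
  refine conj_le _ _ ?_ hx
  intro l hl
  have : s * (ev a b l * c * (ev a b l)⁻¹) * s⁻¹ =
      (s * ev a b l * s⁻¹ * (ev a b l)⁻¹) * (ev a b l * (s * c * s⁻¹) * (ev a b l)⁻¹) *
        (s * ev a b l * s⁻¹ * (ev a b l)⁻¹)⁻¹ := by group
  rw [this]
  have h1 := N_mono (a := a) (b := b) (c := c) (Nat.add_le_add_right hl 1) (hs.comm_ev l)
  refine Subgroup.mul_mem _ (Subgroup.mul_mem _ h1 ?_) (Subgroup.inv_mem _ h1)
  exact N_mono (by omega) (conj_ev l hs.2)

/-- The main induction: a contracting labelling of a Schreier graph captures all meridians. -/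
theorem capture {ι : Type} (L : Subgroup G) (rep : ι → G) (nxt : ι → Bool × Bool → ι)
    (lab : ι → Bool × Bool → G)
    (hE : ∀ i t, rep i * lt a b t * lab i t * (rep (nxt i t))⁻¹ ∈ L)
    (hG : ∀ i t, Good a b c (lab i t)⁻¹)
    (hS : ∀ i t t', lab i t = 1 ∨ lab (nxt i t) t' = 1 ∨ lt a b t * lt a b t' = 1)
    (hB : ∀ i, ∀ x ∈ N a b c 2, rep i * x * (rep i)⁻¹ ∈ L) (r : ℕ) :
    ∀ i, ∀ x ∈ N a b c r, rep i * x * (rep i)⁻¹ ∈ L := by
  induction r with
  | zero => exact fun i x hx => hB i x (N_mono (by omega) hx)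
  | succ r ih =>
    intro i x hx
    refine conj_le _ _ ?_ hx
    intro l hl
    by_cases h2 : l.length ≤ 2
    · exact hB i _ (mu_mem l h2)
    match l, hl, h2 with
    | [], _, h2 => simp at h2
    | [_], _, h2 => simp at h2
    | t :: t' :: l, hl, h2 =>
      simp only [List.length_cons] at hl h2
      rcases hS i t t' with h | h | h
      · have e := hE i t
        rw [h] at e
        have e2 := ih (nxt i t) _ (mu_mem (t' :: l) (by simp; omega))
        have : rep i * (ev a b (t :: t' :: l) * c * (ev a b (t :: t' :: l))⁻¹) * (rep i)⁻¹ =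
            (rep i * lt a b t * 1 * (rep (nxt i t))⁻¹) *
            (rep (nxt i t) * (ev a b (t' :: l) * c * (ev a b (t' :: l))⁻¹) * (rep (nxt i t))⁻¹) *
            (rep i * lt a b t * 1 * (rep (nxt i t))⁻¹)⁻¹ := by
          rw [ev_cons a b t]; group
        rw [this]
        exact L.mul_mem (L.mul_mem e e2) (L.inv_mem e)
      · have e := hE i t
        have e' := hE (nxt i t) t'
        rw [h] at e'
        have n := hB (nxt i t) _ ((hG i t).1 t')
        have m := ih (nxt (nxt i t) t') _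
          (N_mono (show l.length + 1 ≤ r by omega) ((hG i t).push (mu_mem l le_rfl)))
        have : rep i * (ev a b (t :: t' :: l) * c * (ev a b (t :: t' :: l))⁻¹) * (rep i)⁻¹ =
            (rep i * lt a b t * lab i t * (rep (nxt i t))⁻¹) *
            ((rep (nxt i t) * ((lab i t)⁻¹ * lt a b t' * (lab i t)⁻¹⁻¹ * (lt a b t')⁻¹) *
              (rep (nxt i t))⁻¹) *
             ((rep (nxt i t) * lt a b t' * 1 * (rep (nxt (nxt i t) t'))⁻¹) *
              (rep (nxt (nxt i t) t') * ((lab i t)⁻¹ * (ev a b l * c * (ev a b l)⁻¹) *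
                (lab i t)⁻¹⁻¹) * (rep (nxt (nxt i t) t'))⁻¹) *
              (rep (nxt i t) * lt a b t' * 1 * (rep (nxt (nxt i t) t'))⁻¹)⁻¹) *
             (rep (nxt i t) * ((lab i t)⁻¹ * lt a b t' * (lab i t)⁻¹⁻¹ * (lt a b t')⁻¹) *
              (rep (nxt i t))⁻¹)⁻¹) *
            (rep i * lt a b t * lab i t * (rep (nxt i t))⁻¹)⁻¹ := by
          rw [ev_cons a b t, ev_cons a b t']; group
        rw [this]
        exact L.mul_mem (L.mul_mem e (L.mul_mem (L.mul_mem n
          (L.mul_mem (L.mul_mem e' m) (L.inv_mem e'))) (L.inv_mem n))) (L.inv_mem e)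
      · have : ev a b (t :: t' :: l) = ev a b l := by
          rw [ev_cons, ev_cons, ← mul_assoc, h, one_mul]
        rw [this]
        exact ih i _ (mu_mem l (by omega))

/-- All meridians. -/
def NN (a b c : G) : Subgroup G := ⨆ r, N a b c r

theorem mem_NN {x : G} : x ∈ NN a b c ↔ ∃ r, x ∈ N a b c r := by
  apply Subgroup.mem_iSup_of_directed
  intro i j
  exact ⟨max i j, N_mono (le_max_left _ _), N_mono (le_max_right _ _)⟩

theorem Good.push_NN {s : G} (hs : Good a b c s) {x : G} (hx : x ∈ NN a b c) :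
    s * x * s⁻¹ ∈ NN a b c := by
  obtain ⟨r, hr⟩ := mem_NN.mp hx
  exact mem_NN.mpr ⟨_, hs.push hr⟩

theorem letter_NN (t : Bool × Bool) {x : G} (hx : x ∈ NN a b c) :
    lt a b t * x * (lt a b t)⁻¹ ∈ NN a b c := by
  obtain ⟨r, hr⟩ := mem_NN.mp hx
  exact mem_NN.mpr ⟨_, conj_letter t hr⟩

theorem mem_normalizer_of {K : Subgroup G} {s : G} (h1 : ∀ x ∈ K, s * x * s⁻¹ ∈ K)
    (h2 : ∀ x ∈ K, s⁻¹ * x * s⁻¹⁻¹ ∈ K) : s ∈ Subgroup.normalizer (K : Set G) := by
  rw [Subgroup.mem_normalizer_iff]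
  intro x
  constructor
  · exact h1 x
  · intro h
    have := h2 _ h
    simpa [mul_assoc] using this

theorem fib_le_normalizer :
    Subgroup.closure {a, b, c} ≤ Subgroup.normalizer (NN a b c : Set G) := by
  rw [Subgroup.closure_le]
  rintro x (rfl | rfl | rfl)
  · exact mem_normalizer_of (fun y hy => by simpa [lt] using letter_NN (false, true) hy)
      (fun y hy => by simpa [lt] using letter_NN (false, false) hy)
  · exact mem_normalizer_of (fun y hy => by simpa [lt] using letter_NN (true, true) hy)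
      (fun y hy => by simpa [lt] using letter_NN (true, false) hy)
  · exact Subgroup.le_normalizer (mem_NN.mpr ⟨0, c_mem 0⟩)

theorem conj_of_normalizer {K : Subgroup G} {s x : G} (hs : s ∈ Subgroup.normalizer (K : Set G))
    (hx : x ∈ K) : s * x * s⁻¹ ∈ K := (Subgroup.mem_normalizer_iff.mp hs x).mp hx

theorem Good.comm_fib {s : G} (hs : Good a b c s) {k : G} (hk : k ∈ Subgroup.closure {a, b, c}) :
    s * k * s⁻¹ * k⁻¹ ∈ NN a b c := by
  induction hk using Subgroup.closure_induction with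
  | mem x hx =>
    rcases hx with rfl | rfl | rfl
    · exact mem_NN.mpr ⟨2, by simpa [lt] using hs.1 (false, true)⟩
    · exact mem_NN.mpr ⟨2, by simpa [lt] using hs.1 (true, true)⟩
    · exact mem_NN.mpr ⟨1, Subgroup.mul_mem _ hs.2 (Subgroup.inv_mem _ (c_mem 1))⟩
  | one => simpa using Subgroup.one_mem _
  | mul x y hx _ ihx ihy =>
    have : s * (x * y) * s⁻¹ * (x * y)⁻¹ =
        (s * x * s⁻¹ * x⁻¹) * (x * (s * y * s⁻¹ * y⁻¹) * x⁻¹) := by group
    rw [this]
    exact Subgroup.mul_mem _ ihx (conj_of_normalizer (fib_le_normalizer hx) ihy)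
  | inv x hx ihx =>
    have : s * x⁻¹ * s⁻¹ * x⁻¹⁻¹ = x⁻¹ * (s * x * s⁻¹ * x⁻¹)⁻¹ * x⁻¹⁻¹ := by group
    rw [this]
    exact conj_of_normalizer (Subgroup.inv_mem _ (fib_le_normalizer hx)) (Subgroup.inv_mem _ ihx)

theorem comm_base {α β : G} (h1 : Good a b c α) (h2 : Good a b c α⁻¹) (h3 : Good a b c β)
    (h4 : Good a b c β⁻¹) {v : G} (hv : v ∈ Subgroup.closure {α, β}) :
    v ∈ Subgroup.normalizer (NN a b c : Set G) ∧
      ∀ k ∈ Subgroup.closure {a, b, c}, v * k * v⁻¹ * k⁻¹ ∈ NN a b c := by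
  induction hv using Subgroup.closure_induction with
  | mem x hx =>
    rcases hx with rfl | rfl
    · exact ⟨mem_normalizer_of (fun y hy => h1.push_NN hy) (fun y hy => h2.push_NN hy),
        fun k hk => h1.comm_fib hk⟩
    · exact ⟨mem_normalizer_of (fun y hy => h3.push_NN hy) (fun y hy => h4.push_NN hy),
        fun k hk => h3.comm_fib hk⟩
  | one => exact ⟨Subgroup.one_mem _, fun k _ => by simpa using Subgroup.one_mem _⟩
  | mul x y _ _ ihx ihy =>
    refine ⟨Subgroup.mul_mem _ ihx.1 ihy.1, fun k hk => ?_⟩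
    have : x * y * k * (x * y)⁻¹ * k⁻¹ =
        (x * (y * k * y⁻¹ * k⁻¹) * x⁻¹) * (x * k * x⁻¹ * k⁻¹) := by group
    rw [this]
    exact Subgroup.mul_mem _ (conj_of_normalizer ihx.1 (ihy.2 k hk)) (ihx.2 k hk)
  | inv x _ ihx =>
    refine ⟨Subgroup.inv_mem _ ihx.1, fun k hk => ?_⟩
    have : x⁻¹ * k * x⁻¹⁻¹ * k⁻¹ = x⁻¹ * (x * k * x⁻¹ * k⁻¹)⁻¹ * x⁻¹⁻¹ := by group
    rw [this]
    exact conj_of_normalizer (Subgroup.inv_mem _ ihx.1) (Subgroup.inv_mem _ (ihx.2 k hk))

theorem lt_mem_fib (t : Bool × Bool) : lt a b t ∈ Subgroup.closure {a, b, c} := by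
  have ha : a ∈ Subgroup.closure {a, b, c} := Subgroup.subset_closure (by simp)
  have hb : b ∈ Subgroup.closure {a, b, c} := Subgroup.subset_closure (by simp)
  rcases t with ⟨_ | _, _ | _⟩
  · simpa [lt] using ha
  · simpa [lt] using ha
  · simpa [lt] using hb
  · simpa [lt] using hb

theorem ev_mem_fib (l : List (Bool × Bool)) : ev a b l ∈ Subgroup.closure {a, b, c} := by
  induction l with
  | nil => exact Subgroup.one_mem _
  | cons t l ih => rw [ev_cons]; exact Subgroup.mul_mem _ (lt_mem_fib t) ih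

theorem NN_le_fib : NN a b c ≤ Subgroup.closure {a, b, c} := by
  intro x hx
  obtain ⟨r, hr⟩ := mem_NN.mp hx
  refine (Subgroup.closure_le _).mpr ?_ hr
  rintro y ⟨l, -, rfl⟩
  exact Subgroup.mul_mem _ (Subgroup.mul_mem _ (ev_mem_fib l)
    (Subgroup.subset_closure (by simp))) (Subgroup.inv_mem _ (ev_mem_fib l))

/-- The first kind of twist. -/
theorem good_alpha {α : G} (h1 : α * b = b * α) (h2 : a * c * α * a = a * (a * c * α))
    (h3 : a * c * α * c = c * (a * c * α)) : Good a b c α ∧ Good a b c α⁻¹ := by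
  have ea : α * a * α⁻¹ = c⁻¹ * a * c := by
    calc α * a * α⁻¹ = (a * c)⁻¹ * (a * c * α * a) * α⁻¹ := by group
      _ = _ := by rw [h2]; group
  have ec : α * c * α⁻¹ = c⁻¹ * (a⁻¹ * c * a) * c := by
    calc α * c * α⁻¹ = (a * c)⁻¹ * (a * c * α * c) * α⁻¹ := by group
      _ = _ := by rw [h3]; group
  have eb : α * b * α⁻¹ = b := by rw [h1]; group
  have eac : α * (a * c) * α⁻¹ = a * c := by
    calc α * (a * c) * α⁻¹ = (α * a * α⁻¹) * (α * c * α⁻¹) := by group
      _ = _ := by rw [ea, ec]; group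
  have eac' : α⁻¹ * (a * c) * α = a * c := by
    conv_lhs => rw [← eac]
    group
  have ec' : α⁻¹ * c * α = a * c * a⁻¹ := by
    calc α⁻¹ * c * α = α⁻¹ * ((a * c) * (α * c * α⁻¹) * (a * c)⁻¹) * α := by rw [ec]; group
      _ = (α⁻¹ * (a * c) * α) * c * (α⁻¹ * (a * c) * α)⁻¹ := by group
      _ = _ := by rw [eac']; group
  have ea' : α⁻¹ * a * α = a * c * a * c⁻¹ * a⁻¹ := by
    calc α⁻¹ * a * α = (α⁻¹ * (a * c) * α) * (α⁻¹ * c * α)⁻¹ := by group
      _ = _ := by rw [eac', ec']; group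
  have eb' : α⁻¹ * b * α = b := by rw [mul_assoc, ← h1]; group
  have m0 : ∀ r, c ∈ N a b c r := c_mem
  have m1 : a * c * a⁻¹ ∈ N a b c 1 := by
    simpa [ev, lt] using mu_mem (a := a) (b := b) (c := c) [(false, true)] le_rfl
  have m2 : a⁻¹ * c * a ∈ N a b c 1 := by
    simpa [ev, lt] using mu_mem (a := a) (b := b) (c := c) [(false, false)] le_rfl
  have m3 : a * a * c * (a * a)⁻¹ ∈ N a b c 2 := by
    simpa [ev, lt] using mu_mem (a := a) (b := b) (c := c) [(false, true), (false, true)] le_rfl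
  have m1' := N_mono (show 1 ≤ 2 by omega) m1
  have m2' := N_mono (show 1 ≤ 2 by omega) m2
  refine ⟨⟨?_, ?_⟩, ⟨?_, ?_⟩⟩
  · rintro ⟨_ | _, _ | _⟩
    · have : α * lt a b (false, false) * α⁻¹ * (lt a b (false, false))⁻¹ =
          c⁻¹ * (a⁻¹ * c * a) := by
        calc _ = (α * a * α⁻¹)⁻¹ * a := by simp [lt, mul_assoc]
          _ = _ := by rw [ea]; group
      rw [this]; exact Subgroup.mul_mem _ (Subgroup.inv_mem _ (m0 2)) m2'
    · have : α * lt a b (false, true) * α⁻¹ * (lt a b (false, true))⁻¹ =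
          c⁻¹ * (a * c * a⁻¹) := by
        calc _ = (α * a * α⁻¹) * a⁻¹ := by simp [lt, mul_assoc]
          _ = _ := by rw [ea]; group
      rw [this]; exact Subgroup.mul_mem _ (Subgroup.inv_mem _ (m0 2)) m1'
    · have : α * lt a b (true, false) * α⁻¹ * (lt a b (true, false))⁻¹ = 1 := by
        calc _ = (α * b * α⁻¹)⁻¹ * b := by simp [lt, mul_assoc]
          _ = _ := by rw [eb]; group
      rw [this]; exact Subgroup.one_mem _
    · have : α * lt a b (true, true) * α⁻¹ * (lt a b (true, true))⁻¹ = 1 := by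
        calc _ = (α * b * α⁻¹) * b⁻¹ := by simp [lt, mul_assoc]
          _ = _ := by rw [eb]; group
      rw [this]; exact Subgroup.one_mem _
  · rw [ec]
    exact Subgroup.mul_mem _ (Subgroup.mul_mem _ (Subgroup.inv_mem _ (m0 1)) m2) (m0 1)
  · rintro ⟨_ | _, _ | _⟩
    · have : α⁻¹ * lt a b (false, false) * α⁻¹⁻¹ * (lt a b (false, false))⁻¹ =
          (a * c * a⁻¹) * c⁻¹ := by
        calc _ = (α⁻¹ * a * α)⁻¹ * a := by simp [lt, mul_assoc]
          _ = _ := by rw [ea']; group
      rw [this]; exact Subgroup.mul_mem _ m1' (Subgroup.inv_mem _ (m0 2))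
    · have : α⁻¹ * lt a b (false, true) * α⁻¹⁻¹ * (lt a b (false, true))⁻¹ =
          (a * c * a⁻¹) * (a * a * c * (a * a)⁻¹)⁻¹ := by
        calc _ = (α⁻¹ * a * α) * a⁻¹ := by simp [lt, mul_assoc]
          _ = _ := by rw [ea']; group
      rw [this]; exact Subgroup.mul_mem _ m1' (Subgroup.inv_mem _ m3)
    · have : α⁻¹ * lt a b (true, false) * α⁻¹⁻¹ * (lt a b (true, false))⁻¹ = 1 := by
        calc _ = (α⁻¹ * b * α)⁻¹ * b := by simp [lt, mul_assoc]
          _ = _ := by rw [eb']; group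
      rw [this]; exact Subgroup.one_mem _
    · have : α⁻¹ * lt a b (true, true) * α⁻¹⁻¹ * (lt a b (true, true))⁻¹ = 1 := by
        calc _ = (α⁻¹ * b * α) * b⁻¹ := by simp [lt, mul_assoc]
          _ = _ := by rw [eb']; group
      rw [this]; exact Subgroup.one_mem _
  · rw [inv_inv, ec']; exact m1

/-- The second kind of twist. -/
theorem good_beta {β : G} (h1 : β * a = a * β) (h2 : c * b * β * b = b * (c * b * β))
    (h3 : c * b * β * c = c * (c * b * β)) : Good a b c β ∧ Good a b c β⁻¹ := by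
  have eb : β * b * β⁻¹ = b⁻¹ * c⁻¹ * b * c * b := by
    calc β * b * β⁻¹ = (c * b)⁻¹ * (c * b * β * b) * β⁻¹ := by group
      _ = _ := by rw [h2]; group
  have ec : β * c * β⁻¹ = b⁻¹ * c * b := by
    calc β * c * β⁻¹ = (c * b)⁻¹ * (c * b * β * c) * β⁻¹ := by group
      _ = _ := by rw [h3]; group
  have ea : β * a * β⁻¹ = a := by rw [h1]; group
  have ecb : β * (c * b) * β⁻¹ = c * b := by
    calc β * (c * b) * β⁻¹ = (β * c * β⁻¹) * (β * b * β⁻¹) := by group
      _ = b⁻¹ * (c * b * β * b) * β⁻¹ := by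
        rw [eb, ec]
        calc _ = b⁻¹ * (c * b) * ((c * b)⁻¹ * b * (c * b)) := by group
          _ = _ := by rw [h2]; group
      _ = _ := by rw [h2]; group
  have ecb' : β⁻¹ * (c * b) * β = c * b := by
    conv_lhs => rw [← ecb]
    group
  have eb' : β⁻¹ * b * β = c * b * c⁻¹ := by
    calc β⁻¹ * b * β = β⁻¹ * ((c * b) * (β * b * β⁻¹) * (c * b)⁻¹) * β := by rw [eb]; group
      _ = (β⁻¹ * (c * b) * β) * b * (β⁻¹ * (c * b) * β)⁻¹ := by group
      _ = _ := by rw [ecb']; group
  have ec' : β⁻¹ * c * β = c * (b * c * b⁻¹) * c⁻¹ := by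
    calc β⁻¹ * c * β = (β⁻¹ * (c * b) * β) * (β⁻¹ * b * β)⁻¹ := by group
      _ = _ := by rw [ecb', eb']; group
  have ea' : β⁻¹ * a * β = a := by rw [mul_assoc, ← h1]; group
  have m0 : ∀ r, c ∈ N a b c r := c_mem
  have m1 : b * c * b⁻¹ ∈ N a b c 1 := by
    simpa [ev, lt] using mu_mem (a := a) (b := b) (c := c) [(true, true)] le_rfl
  have m2 : b⁻¹ * c * b ∈ N a b c 1 := by
    simpa [ev, lt] using mu_mem (a := a) (b := b) (c := c) [(true, false)] le_rfl
  have m3 : b⁻¹ * b⁻¹ * c * (b * b) ∈ N a b c 2 := by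
    simpa [ev, lt] using mu_mem (a := a) (b := b) (c := c) [(true, false), (true, false)] le_rfl
  have m1' := N_mono (show 1 ≤ 2 by omega) m1
  have m2' := N_mono (show 1 ≤ 2 by omega) m2
  refine ⟨⟨?_, ?_⟩, ⟨?_, ?_⟩⟩
  · rintro ⟨_ | _, _ | _⟩
    · have : β * lt a b (false, false) * β⁻¹ * (lt a b (false, false))⁻¹ = 1 := by
        calc _ = (β * a * β⁻¹)⁻¹ * a := by simp [lt, mul_assoc]
          _ = _ := by rw [ea]; group
      rw [this]; exact Subgroup.one_mem _
    · have : β * lt a b (false, true) * β⁻¹ * (lt a b (false, true))⁻¹ = 1 := by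
        calc _ = (β * a * β⁻¹) * a⁻¹ := by simp [lt, mul_assoc]
          _ = _ := by rw [ea]; group
      rw [this]; exact Subgroup.one_mem _
    · have : β * lt a b (true, false) * β⁻¹ * (lt a b (true, false))⁻¹ =
          (b⁻¹ * c * b)⁻¹ * (b⁻¹ * b⁻¹ * c * (b * b)) := by
        calc _ = (β * b * β⁻¹)⁻¹ * b := by simp [lt, mul_assoc]
          _ = _ := by rw [eb]; group
      rw [this]; exact Subgroup.mul_mem _ (Subgroup.inv_mem _ m2') m3
    · have : β * lt a b (true, true) * β⁻¹ * (lt a b (true, true))⁻¹ =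
          (b⁻¹ * c * b)⁻¹ * c := by
        calc _ = (β * b * β⁻¹) * b⁻¹ := by simp [lt, mul_assoc]
          _ = _ := by rw [eb]; group
      rw [this]; exact Subgroup.mul_mem _ (Subgroup.inv_mem _ m2') (m0 2)
  · rw [ec]; exact m2
  · rintro ⟨_ | _, _ | _⟩
    · have : β⁻¹ * lt a b (false, false) * β⁻¹⁻¹ * (lt a b (false, false))⁻¹ = 1 := by
        calc _ = (β⁻¹ * a * β)⁻¹ * a := by simp [lt, mul_assoc]
          _ = _ := by rw [ea']; group
      rw [this]; exact Subgroup.one_mem _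
    · have : β⁻¹ * lt a b (false, true) * β⁻¹⁻¹ * (lt a b (false, true))⁻¹ = 1 := by
        calc _ = (β⁻¹ * a * β) * a⁻¹ := by simp [lt, mul_assoc]
          _ = _ := by rw [ea']; group
      rw [this]; exact Subgroup.one_mem _
    · have : β⁻¹ * lt a b (true, false) * β⁻¹⁻¹ * (lt a b (true, false))⁻¹ =
          c * (b⁻¹ * c * b)⁻¹ := by
        calc _ = (β⁻¹ * b * β)⁻¹ * b := by simp [lt, mul_assoc]
          _ = _ := by rw [eb']; group
      rw [this]; exact Subgroup.mul_mem _ (m0 2) (Subgroup.inv_mem _ m2')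
    · have : β⁻¹ * lt a b (true, true) * β⁻¹⁻¹ * (lt a b (true, true))⁻¹ =
          c * (b * c * b⁻¹)⁻¹ := by
        calc _ = (β⁻¹ * b * β) * b⁻¹ := by simp [lt, mul_assoc]
          _ = _ := by rw [eb']; group
      rw [this]; exact Subgroup.mul_mem _ (m0 2) (Subgroup.inv_mem _ m1')
  · rw [inv_inv, ec']
    exact Subgroup.mul_mem _ (Subgroup.mul_mem _ (m0 1) m1) (Subgroup.inv_mem _ (m0 1))

/-- The full twist is central in the braid group on three strands. -/
theorem twist {p q : G} (h : p * q * p = q * p * q) :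
    q * p * p * q * p * p * p = p * (q * p * p * q * p * p) ∧
      q * p * p * q * p * p * q = q * (q * p * p * q * p * p) := by
  have h1 : q * p * p * q * p = p * (q * p * p * q) := by
    calc q * p * p * q * p = q * p * (p * q * p) := by simp only [mul_assoc]
      _ = q * p * (q * p * q) := by rw [h]
      _ = (q * p * q) * p * q := by simp only [mul_assoc]
      _ = (p * q * p) * p * q := by rw [h]
      _ = _ := by simp only [mul_assoc]
  have h2 : p * p * q * p * p * q = q * (p * p * q * p * p) := by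
    calc p * p * q * p * p * q = p * (p * q * p) * p * q := by simp only [mul_assoc]
      _ = p * (q * p * q) * p * q := by rw [h]
      _ = (p * q * p) * (q * p * q) := by simp only [mul_assoc]
      _ = (q * p * q) * (p * q * p) := by rw [h]
      _ = q * p * (q * p * q) * p := by simp only [mul_assoc]
      _ = q * p * (p * q * p) * p := by rw [h]
      _ = _ := by simp only [mul_assoc]
  constructor
  · calc q * p * p * q * p * p * p = (q * p * p * q * p) * p * p := by simp only [mul_assoc]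
      _ = (p * (q * p * p * q)) * p * p := by rw [h1]
      _ = _ := by simp only [mul_assoc]
  · calc q * p * p * q * p * p * q = q * (p * p * q * p * p * q) := by simp only [mul_assoc]
      _ = _ := by rw [h2]; simp only [mul_assoc]

end Pool.Agent.H515Z.B4
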