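import Mathlib
import Pool.Agent.H515Z.B4Core
import Pool.Agent.H515Z.B4Act
import Pool.Agent.Helper270.WPB

set_option autoImplicit false

/-! A finitely generated subgroup of the four strand braid group with undecidable membership. -/

namespace Pool.Agent.H515Z.B4

open Equiv

theorem goodA : Good aa bb cc al ∧ Good aa bb cc al⁻¹ := by
  have c0 : Commute (sg 0) (sg 2) := rel02
  obtain ⟨t1, t2⟩ := twist rel01
  set T := sg 1 * sg 0 * sg 0 * sg 1 * sg 0 * sg 0 with hT
  have d0 : Commute T (sg 0) := t1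
  have d1 : Commute T (sg 1) := t2
  have e : aa * cc * al = sg 2 * T * (sg 2)⁻¹ := by
    have h : (sg 2)⁻¹ * (sg 0 * sg 0) = sg 0 * sg 0 * (sg 2)⁻¹ :=
      ((c0.mul_left c0).inv_right).symm.eq
    calc aa * cc * al = sg 2 * (sg 1 * sg 0 * sg 0 * sg 1) * ((sg 2)⁻¹ * (sg 0 * sg 0)) := by
          simp only [aa, cc, al]; group
      _ = _ := by rw [h, hT]; group
  apply good_alpha
  · exact ((c0.mul_left c0).mul_right (c0.mul_left c0)).eq
  · rw [e]
    have h : T * (sg 1 * sg 0 * sg 0 * (sg 1)⁻¹) = (sg 1 * sg 0 * sg 0 * (sg 1)⁻¹) * T :=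
      (((d1.mul_right d0).mul_right d0).mul_right d1.inv_right).eq
    calc sg 2 * T * (sg 2)⁻¹ * aa = sg 2 * (T * (sg 1 * sg 0 * sg 0 * (sg 1)⁻¹)) * (sg 2)⁻¹ := by
          simp only [aa]; group
      _ = _ := by rw [h]; simp only [aa]; group
  · rw [e]
    have h : T * (sg 1 * sg 1) = (sg 1 * sg 1) * T := (d1.mul_right d1).eq
    calc sg 2 * T * (sg 2)⁻¹ * cc = sg 2 * (T * (sg 1 * sg 1)) * (sg 2)⁻¹ := by
          simp only [cc]; group
      _ = _ := by rw [h]; simp only [cc]; group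

theorem goodB : Good aa bb cc be ∧ Good aa bb cc be⁻¹ := by
  have c0 : Commute (sg 0) (sg 2) := rel02
  obtain ⟨t1, t2⟩ := twist rel12
  set T := sg 2 * sg 1 * sg 1 * sg 2 * sg 1 * sg 1 with hT
  have d0 : Commute T (sg 1) := t1
  have d1 : Commute T (sg 2) := t2
  have e : cc * bb * be = T := by
    simp only [cc, bb, be, hT]; group
  apply good_beta
  · have h1 : sg 1 * (sg 2 * sg 1) = (sg 2 * sg 1) * sg 2 := by rw [← mul_assoc, rel12]
    have h2 : sg 2 * (sg 0 * sg 0) = sg 0 * sg 0 * sg 2 := (c0.mul_left c0).symm.eq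
    have h3 : Commute (sg 1) aa := by
      have h4 : sg 1 = (sg 2 * sg 1) * sg 2 * (sg 2 * sg 1)⁻¹ := by rw [← h1]; group
      have h5 : aa = (sg 2 * sg 1) * (sg 0 * sg 0) * (sg 2 * sg 1)⁻¹ := by
        simp only [aa]; group
      have h6 : Commute ((sg 2 * sg 1) * sg 2 * (sg 2 * sg 1)⁻¹)
          ((sg 2 * sg 1) * (sg 0 * sg 0) * (sg 2 * sg 1)⁻¹) := by
        have h7 : Commute (sg 2) (sg 0 * sg 0) := h2
        exact h7.map (MulAut.conj (sg 2 * sg 1))
      rwa [← h4, ← h5] at h6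
    exact (h3.mul_left h3).eq
  · rw [e]; exact (d1.mul_right d1).eq
  · rw [e]; exact (((d1.mul_right d0).mul_right d0).mul_right d1.inv_right).eq

/-- Coset representatives. -/
def rep (i : Fin 4) : Br := aa ^ i.val

/-- The transition function. -/
def nxt (i : Fin 4) (t : Bool × Bool) : Fin 4 := if t.2 then i + 1 else i - 1

/-- The labels. -/
def labG {G : Type} [Group G] (u v : G) (i : Fin 4) (t : Bool × Bool) : G :=
  if t.1 then (if t.2 then ![u, 1, v, 1] i else (![u, 1, v, 1] (i - 1))⁻¹) else 1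

/-- The generators of the capturing subgroup. -/
def genL : Set Br :=
  Set.range (fun it : Fin 4 × Bool × Bool =>
    rep it.1 * lt aa bb it.2 * labG al be it.1 it.2 * (rep (nxt it.1 it.2))⁻¹) ∪
  (fun il : Fin 4 × List (Bool × Bool) =>
    rep il.1 * (ev aa bb il.2 * cc * (ev aa bb il.2)⁻¹) * (rep il.1)⁻¹) ''
      (Set.univ ×ˢ {l | l.length ≤ 2})

theorem genL_finite : genL.Finite :=
  (Set.finite_range _).union ((Set.finite_univ.prod (List.finite_length_le _ 2)).image _)

/-- The capturing subgroup. -/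
def LL : Subgroup Br := Subgroup.closure genL

theorem edge_mem (i : Fin 4) (t : Bool × Bool) :
    rep i * lt aa bb t * labG al be i t * (rep (nxt i t))⁻¹ ∈ LL :=
  Subgroup.subset_closure (Or.inl ⟨(i, t), rfl⟩)

theorem NN_le_LL : NN aa bb cc ≤ LL := by
  intro x hx
  obtain ⟨r, hr⟩ := mem_NN.mp hx
  have := capture LL rep nxt (labG al be) edge_mem ?_ ?_ ?_ r 0 x hr
  · simpa [rep] using this
  · intro i t
    have g1 := good_one (a := aa) (b := bb) (c := cc)
    fin_cases i <;> rcases t with ⟨_ | _, _ | _⟩ <;>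
      first
        | simpa [labG] using g1
        | simpa [labG] using goodA.1
        | simpa [labG] using goodA.2
        | simpa [labG] using goodB.1
        | simpa [labG] using goodB.2
  · intro i t t'
    fin_cases i <;> rcases t with ⟨_ | _, _ | _⟩ <;> rcases t' with ⟨_ | _, _ | _⟩ <;>
      simp [labG, nxt, lt]
  · intro i x hx
    refine conj_le _ _ ?_ hx
    intro l hl
    exact Subgroup.subset_closure (Or.inr ⟨(i, l), ⟨trivial, hl⟩, rfl⟩)

theorem fib_fib {Y Y' : Type} (x y : Perm Y) (x' y' : Perm Y') {k : Br}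
    (hk : k ∈ Subgroup.closure {aa, bb, cc}) :
    (∃ π, Fib x y 1 2 k π) ∧ Fib x' y' 3 0 k 1 := by
  induction hk using Subgroup.closure_induction with
  | mem g hg =>
    rcases hg with rfl | rfl | rfl
    · exact ⟨⟨_, fib1_aa⟩, fib2_aa⟩
    · exact ⟨⟨_, fib1_bb⟩, fib2_bb⟩
    · exact ⟨⟨_, fib1_cc⟩, fib2_cc⟩
  | one => exact ⟨⟨_, Fib.one⟩, Fib.one⟩
  | mul g h _ _ a b =>
    obtain ⟨⟨π, a1⟩, a2⟩ := a
    obtain ⟨⟨τ, b1⟩, b2⟩ := b
    exact ⟨⟨_, a1.mul b1⟩, by simpa using a2.mul b2⟩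
  | inv g _ a =>
    obtain ⟨⟨π, a1⟩, a2⟩ := a
    exact ⟨⟨_, a1.inv⟩, by simpa using a2.inv⟩

theorem fib_base {Y : Type} (x y : Perm Y) {k : Br} (hk : k ∈ Subgroup.closure {al, be}) :
    Fib x y 1 2 k 1 := by
  induction hk using Subgroup.closure_induction with
  | mem g hg =>
    rcases hg with rfl | rfl
    · exact fib1_al
    · exact fib1_be
  | one => exact Fib.one
  | mul g h _ _ a b => simpa using a.mul b
  | inv g _ a => simpa using a.inv

section Graph

variable {Y : Type} (x y : Perm Y)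

/-- The first generator of the recursion. -/
def AA (Y : Type) : Perm (Fin 4 × Y) := wr (Equiv.subRight 1) (fun _ => 1)

/-- The second generator of the recursion. -/
def BB : Perm (Fin 4 × Y) := wr (Equiv.subRight 1) (fun j => ![x, 1, y, 1] (j - 1))

/-- The graph subgroup. -/
def Lhat : Subgroup Br where
  carrier := {g | ∃ π : Perm Y, (∀ z, act (AA Y) (BB x y) g (1, 2, 0, z) = (1, 2, 0, π z)) ∧
    Fib x y 3 0 g π}
  one_mem' := ⟨1, fun z => by simp, Fib.one⟩
  mul_mem' := by
    rintro g h ⟨π, a1, a2⟩ ⟨τ, b1, b2⟩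
    refine ⟨π * τ, fun z => ?_, a2.mul b2⟩
    rw [map_mul, Perm.mul_apply, b1, a1, Perm.mul_apply]
  inv_mem' := by
    rintro g ⟨π, a1, a2⟩
    refine ⟨π⁻¹, fun z => ?_, a2.inv⟩
    rw [map_inv, Perm.inv_eq_iff_eq, a1]
    simp

theorem LL_le : LL ≤ Lhat x y := by
  rw [LL, Subgroup.closure_le]
  have ha : aa ∈ Subgroup.closure {aa, bb, cc} := Subgroup.subset_closure (by simp)
  have hc : cc ∈ Subgroup.closure {aa, bb, cc} := Subgroup.subset_closure (by simp)
  rintro g (⟨⟨i, t⟩, rfl⟩ | ⟨⟨i, l⟩, -, rfl⟩)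
  · refine ⟨labG x y i t, ?_, ?_⟩
    · have f1 : Fib (AA Y) (BB x y) 1 2 (lt aa bb t) (lt (AA Y) (BB x y) t) := by
        rcases t with ⟨_ | _, _ | _⟩
        exacts [fib1_aa.inv, fib1_aa, fib1_bb.inv, fib1_bb]
      have f2 : Fib (AA Y) (BB x y) 1 2 (labG al be i t) 1 := by
        have h1 : al ∈ Subgroup.closure {al, be} := Subgroup.subset_closure (by simp)
        have h2 : be ∈ Subgroup.closure {al, be} := Subgroup.subset_closure (by simp)
        apply fib_base
        fin_cases i <;> rcases t with ⟨_ | _, _ | _⟩ <;> simp [labG, h1, h2]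
      have f := (((fib1_aa.pow i.val).mul f1).mul f2).mul (fib1_aa.pow (nxt i t).val).inv
      intro z
      refine (f (0, z)).trans ?_
      congr 2
      have e1 : (-1 : Fin 4) = 3 := rfl
      fin_cases i <;> rcases t with ⟨_ | _, _ | _⟩ <;>
        simp [labG, nxt, lt, pow_succ, AA, BB, wr_apply, wr_symm_apply, e1]
    · have f1 : Fib x y 3 0 (lt aa bb t) 1 := (fib_fib x y x y (lt_mem_fib t)).2
      have f2 : Fib x y 3 0 (labG al be i t) (labG x y i t) := by
        fin_cases i <;> rcases t with ⟨_ | _, _ | _⟩ <;>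
          first
            | simpa [labG] using Fib.one
            | simpa [labG] using fib2_al
            | simpa [labG] using fib2_al.inv
            | simpa [labG] using fib2_be
            | simpa [labG] using fib2_be.inv
      have f := (((fib2_aa.pow i.val).mul f1).mul f2).mul (fib2_aa.pow (nxt i t).val).inv
      simpa [rep] using f
  · refine ⟨1, ?_, ?_⟩
    · obtain ⟨π, f1⟩ := (fib_fib (AA Y) (BB x y) x y (ev_mem_fib l)).1
      have f := ((fib1_aa.pow i.val).mul ((f1.mul fib1_cc).mul f1.inv)).mul (fib1_aa.pow i.val).inv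
      intro z
      refine (f (0, z)).trans ?_
      simp
    · refine (fib_fib x y x y ?_).2
      have hr : rep i ∈ Subgroup.closure {aa, bb, cc} := Subgroup.pow_mem _ ha _
      exact Subgroup.mul_mem _ (Subgroup.mul_mem _ hr (Subgroup.mul_mem _ (Subgroup.mul_mem _
        (ev_mem_fib l) hc) (Subgroup.inv_mem _ (ev_mem_fib l)))) (Subgroup.inv_mem _ hr)

end Graph

/-- Every element of the base has a partner in the capturing subgroup. -/
theorem partner {v : Br} (hv : v ∈ Subgroup.closure {al, be}) :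
    ∃ k ∈ Subgroup.closure {aa, bb, cc}, k * v ∈ LL := by
  have ha : aa ∈ Subgroup.closure {aa, bb, cc} := Subgroup.subset_closure (by simp)
  have hb : bb ∈ Subgroup.closure {aa, bb, cc} := Subgroup.subset_closure (by simp)
  have norm : ∀ {v : Br}, v ∈ Subgroup.closure {al, be} →
      ∀ k ∈ Subgroup.closure {aa, bb, cc}, v * k * v⁻¹ ∈ Subgroup.closure {aa, bb, cc} := by
    intro v hv k hk
    have h := (comm_base goodA.1 goodA.2 goodB.1 goodB.2 hv).2 k hk
    have : v * k * v⁻¹ = (v * k * v⁻¹ * k⁻¹) * k := by group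
    rw [this]
    exact Subgroup.mul_mem _ (NN_le_fib h) hk
  induction hv using Subgroup.closure_induction with
  | mem g hg =>
    have hg' : g ∈ Subgroup.closure {al, be} := Subgroup.subset_closure hg
    rcases hg with rfl | rfl
    · refine ⟨bb * (al * aa⁻¹ * al⁻¹), Subgroup.mul_mem _ hb (norm hg' _ (Subgroup.inv_mem _ ha)), ?_⟩
      have := edge_mem 0 (true, true)
      simpa [rep, lt, labG, nxt, mul_assoc] using this
    · refine ⟨aa ^ 2 * bb * (be * (aa ^ 3)⁻¹ * be⁻¹), Subgroup.mul_mem _ (Subgroup.mul_mem _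
        (Subgroup.pow_mem _ ha _) hb) (norm hg' _ (Subgroup.inv_mem _ (Subgroup.pow_mem _ ha _))), ?_⟩
      have := edge_mem 2 (true, true)
      simpa [rep, lt, labG, nxt, mul_assoc] using this
  | one => exact ⟨1, Subgroup.one_mem _, by simpa using LL.one_mem⟩
  | mul g h hg _ a b =>
    obtain ⟨k, hk, a⟩ := a
    obtain ⟨k', hk', b⟩ := b
    refine ⟨k * (g * k' * g⁻¹), Subgroup.mul_mem _ hk (norm hg _ hk'), ?_⟩
    have : k * (g * k' * g⁻¹) * (g * h) = (k * g) * (k' * h) := by group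
    rw [this]; exact LL.mul_mem a b
  | inv g hg a =>
    obtain ⟨k, hk, a⟩ := a
    refine ⟨g⁻¹ * k⁻¹ * g⁻¹⁻¹, norm (Subgroup.inv_mem _ hg) _ (Subgroup.inv_mem _ hk), ?_⟩
    have : g⁻¹ * k⁻¹ * g⁻¹⁻¹ * g⁻¹ = (k * g)⁻¹ := by group
    rw [this]; exact LL.inv_mem a

section Quot

variable {m : ℕ} {Q : Type} [Group Q] (φ : FreeGroup (Fin m) →* Q)

/-- The embedding of the free group. -/
def jj (m : ℕ) : FreeGroup (Fin m) →* Br :=
  FreeGroup.lift (fun i => (al ^ i.val)⁻¹ * be * al ^ i.val)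

theorem jj_mem (w : FreeGroup (Fin m)) : jj m w ∈ Subgroup.closure {al, be} := by
  have h1 : al ∈ Subgroup.closure {al, be} := Subgroup.subset_closure (by simp)
  have h2 : be ∈ Subgroup.closure {al, be} := Subgroup.subset_closure (by simp)
  induction w using FreeGroup.induction_on with
  | C1 => simp
  | of i =>
    have : jj m (FreeGroup.of i) = (al ^ i.val)⁻¹ * be * al ^ i.val := FreeGroup.lift_apply_of
    rw [this]
    exact Subgroup.mul_mem _ (Subgroup.mul_mem _ (Subgroup.inv_mem _ (Subgroup.pow_mem _ h1 _)) h2)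
      (Subgroup.pow_mem _ h1 _)
  | inv_of i ih => rw [map_inv]; exact Subgroup.inv_mem _ ih
  | mul u v a b => rw [map_mul]; exact Subgroup.mul_mem _ a b

/-- The rotation. -/
def XX (m : ℕ) (Q : Type) : Perm (ZMod (m + 1) × Q) := wr (Equiv.addRight 1) (fun _ => 1)

/-- The multiplication by the generators. -/
def YY : Perm (ZMod (m + 1) × Q) :=
  wr 1 (fun i => Equiv.mulLeft (if h : i.val < m then φ (FreeGroup.of ⟨i.val, h⟩) else 1))

theorem XX_pow (n : ℕ) (i : ZMod (m + 1)) (z : Q) : (XX m Q ^ n) (i, z) = (i + n, z) := by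
  induction n with
  | zero => simp
  | succ n ih =>
    rw [pow_succ', Perm.mul_apply, ih]
    simp [XX, wr_apply, add_assoc]

theorem act_jj (w : FreeGroup (Fin m)) (z : Q) :
    act (XX m Q) (YY φ) (jj m w) (3, 0, 0, z) = (3, 0, 0, φ w * z) := by
  induction w using FreeGroup.induction_on generalizing z with
  | C1 => simp
  | of i =>
    have : jj m (FreeGroup.of i) = (al ^ i.val)⁻¹ * be * al ^ i.val := FreeGroup.lift_apply_of
    rw [this]
    have f : Fib (XX m Q) (YY φ) 3 0 _ _ :=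
      (((fib2_al.pow i.val).inv).mul fib2_be).mul (fib2_al.pow i.val)
    rw [f (0, z)]
    congr 2
    rw [Perm.mul_apply, Perm.mul_apply, XX_pow, Perm.inv_eq_iff_eq, XX_pow]
    have hv : ((i.val : ZMod (m + 1))).val = i.val :=
      ZMod.val_cast_of_lt (by have := i.2; omega)
    simp [YY, wr_apply, hv]
  | inv_of i ih =>
    rw [map_inv, map_inv, Perm.inv_eq_iff_eq, ih]
    simp
  | mul u v a b =>
    rw [map_mul, map_mul, Perm.mul_apply, b, a, map_mul, mul_assoc]

/-- The finite quotient action. -/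
def psi (m : ℕ) : Br →* Perm (Fin 4 × Fin 6 × ZMod (m + 1)) := act (Equiv.addRight 1) 1

/-- The finite index stabilizer. -/
def St (m : ℕ) : Subgroup Br :=
  (MulAction.stabilizer (Perm (Fin 4 × Fin 6 × ZMod (m + 1)))
    ((3, 0, 0) : Fin 4 × Fin 6 × ZMod (m + 1))).comap (psi m)

instance : (St m).FiniteIndex := by
  apply Subgroup.finiteIndex_of_le (H := (psi m).ker)
  intro g hg
  rw [MonoidHom.mem_ker] at hg
  rw [St, Subgroup.mem_comap, hg]
  exact Subgroup.one_mem _

theorem mem_St {g : Br} : g ∈ St m ↔ psi m g (3, 0, 0) = (3, 0, 0) := Iff.rfl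

theorem semi_psi (g : Br) : Semi (Prod.map id (Prod.map id (Prod.fst : ZMod (m + 1) × Q → _)))
    (act (XX m Q) (YY φ) g) (psi m g) := by
  apply semi_act
  · rintro ⟨i, z⟩; rfl
  · rintro ⟨i, z⟩; rfl

theorem semi_right (q : Q) (g : Br) :
    Semi (Prod.map id (Prod.map id (Prod.map id (fun z : Q => z * q))))
      (act (XX m Q) (YY φ) g) (act (XX m Q) (YY φ) g) := by
  apply semi_act
  · rintro ⟨i, z⟩; rfl
  · rintro ⟨i, z⟩
    simp [YY, wr_apply, mul_assoc]

/-- The detecting subgroup. -/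
def Hhat : Subgroup Br where
  carrier := {g | ∃ q : Q, ∀ z : Q,
    act (AA _) (BB (XX m Q) (YY φ)) g (1, 2, 0, 0, z) = (1, 2, 0, 0, q * z) ∧
    act (XX m Q) (YY φ) g (3, 0, 0, z) = (3, 0, 0, q * z)}
  one_mem' := ⟨1, fun z => by simp⟩
  mul_mem' := by
    rintro g h ⟨q, a⟩ ⟨q', b⟩
    refine ⟨q * q', fun z => ⟨?_, ?_⟩⟩
    · rw [map_mul, Perm.mul_apply, (b z).1, (a _).1, mul_assoc]
    · rw [map_mul, Perm.mul_apply, (b z).2, (a _).2, mul_assoc]
  inv_mem' := by
    rintro g ⟨q, a⟩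
    refine ⟨q⁻¹, fun z => ⟨?_, ?_⟩⟩
    · rw [map_inv, Perm.inv_eq_iff_eq, (a _).1]; simp
    · rw [map_inv, Perm.inv_eq_iff_eq, (a _).2]; simp

theorem inf_le_Hhat : St m ⊓ LL ≤ Hhat φ := by
  rintro g ⟨h1, h2⟩
  obtain ⟨π, a1, a2⟩ := LL_le (XX m Q) (YY φ) h2
  have e1 := semi_psi φ g (3, 0, 0, 1)
  rw [a2 (0, 1)] at e1
  have e2 : psi m g (3, 0, 0) = (3, 0, 0) := h1
  have e3 : (π (0, 1)).1 = 0 := by
    have : ((3 : Fin 4), (0 : Fin 6), (π (0, 1)).1) = (3, 0, 0) := e1.trans e2
    simpa using this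
  have e4 : ∀ z, π (0, z) = (0, (π (0, 1)).2 * z) := by
    intro z
    have e5 := semi_right φ z g (3, 0, 0, 1)
    rw [a2 (0, 1)] at e5
    have e6 : act (XX m Q) (YY φ) g (3, 0, 0, z) = (3, 0, (π (0, 1)).1, (π (0, 1)).2 * z) := by
      simpa [Prod.map] using e5.symm
    rw [a2 (0, z), e3] at e6
    simpa using e6
  refine ⟨(π (0, 1)).2, fun z => ⟨?_, ?_⟩⟩
  · rw [a1, e4]
  · rw [a2, e4]

theorem jj_mem_Hhat (w : FreeGroup (Fin m)) : jj m w ∈ Hhat φ ↔ φ w = 1 := by
  have f := fib_base (AA _) (BB (XX m Q) (YY φ)) (jj_mem w)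
  constructor
  · rintro ⟨q, a⟩
    obtain ⟨a1, a2⟩ := a 1
    rw [f (0, 0, 1)] at a1
    rw [act_jj] at a2
    have h1 : q = 1 := by simpa using a1.symm
    simpa [h1] using a2
  · intro h
    refine ⟨1, fun z => ⟨?_, ?_⟩⟩
    · rw [f (0, 0, z)]; simp
    · rw [act_jj, h]

theorem inf_fg (m : ℕ) : (St m ⊓ LL).FG := by
  have h1 : LL.FG := (Subgroup.fg_iff _).mpr ⟨genL, rfl, genL_finite⟩
  have h2 : Group.FG LL := (Group.fg_iff_subgroup_fg _).mpr h1
  have h3 : Group.FG ((St m).subgroupOf LL) := Subgroup.fg_of_index_ne_zero _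
  have h4 : ((St m).subgroupOf LL).FG := (Group.fg_iff_subgroup_fg _).mp h3
  rw [← Subgroup.subgroupOf_map_subtype]
  obtain ⟨S, hS, hf⟩ := (Subgroup.fg_iff _).mp h4
  refine (Subgroup.fg_iff _).mpr ⟨LL.subtype '' S, ?_, hf.image _⟩
  rw [← MonoidHom.map_closure, hS]

end Quot

/-- The fibre product subgroup is finitely generated. -/
theorem exists_gens (m : ℕ) (R : Finset (FreeGroup (Fin m))) : ∃ T : Set Br, T.Finite ∧
    ∀ w, jj m w ∈ Subgroup.closure T ↔ w ∈ Subgroup.normalClosure (R : Set (FreeGroup (Fin m))) := by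
  obtain ⟨S, hS, hf⟩ := (Subgroup.fg_iff _).mp (inf_fg m)
  let φ := QuotientGroup.mk' (Subgroup.normalClosure (R : Set (FreeGroup (Fin m))))
  have hφ : ∀ w, φ w = 1 ↔ w ∈ Subgroup.normalClosure (R : Set (FreeGroup (Fin m))) :=
    fun w => QuotientGroup.eq_one_iff w
  refine ⟨S ∪ jj m '' R, hf.union (R.finite_toSet.image _), fun w => ⟨fun h => ?_, fun h => ?_⟩⟩
  · rw [← hφ, ← jj_mem_Hhat]
    refine (Subgroup.closure_le _).mpr ?_ h
    rintro g (hg | ⟨r, hr, rfl⟩)
    · apply inf_le_Hhat φ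
      rw [← hS]
      exact Subgroup.subset_closure hg
    · exact (jj_mem_Hhat φ r).mpr ((hφ r).mpr (Subgroup.subset_normalClosure hr))
  · set H := Subgroup.closure (S ∪ jj m '' R) with hH
    have hle : St m ⊓ LL ≤ H := by
      rw [← hS]; exact Subgroup.closure_mono Set.subset_union_left
    have hSt : ∀ k ∈ Subgroup.closure {aa, bb, cc}, k ∈ St m := by
      intro k hk
      exact (fib_fib (1 : Perm Unit) 1 (Equiv.addRight (1 : ZMod (m + 1))) 1 hk).2 0
    have hN : NN aa bb cc ≤ H := fun g hg => hle ⟨hSt g (NN_le_fib hg), NN_le_LL hg⟩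
    have hnormal : (H.comap (jj m)).Normal := by
      refine ⟨fun z hz u => ?_⟩
      obtain ⟨k, hk, hkL⟩ := partner (jj_mem u)
      have hu : jj m u ∈ St m := by
        have e1 := semi_psi φ (jj m u) (3, 0, 0, 1)
        rw [act_jj] at e1
        exact e1.symm
      have hh : k * jj m u ∈ H := hle ⟨Subgroup.mul_mem _ (hSt k hk) hu, hkL⟩
      have hn := hN ((comm_base goodA.1 goodA.2 goodB.1 goodB.2 (jj_mem (u * z * u⁻¹))).2 k hk)
      rw [Subgroup.mem_comap] at hz ⊢
      have : jj m (u * z * u⁻¹) = (jj m (u * z * u⁻¹) * k * (jj m (u * z * u⁻¹))⁻¹ * k⁻¹) *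
          ((k * jj m u) * jj m z * (k * jj m u)⁻¹) := by
        simp only [map_mul, map_inv]; group
      rw [this]
      exact H.mul_mem hn (H.mul_mem (H.mul_mem hh hz) (H.inv_mem hh))
    have : Subgroup.normalClosure (R : Set (FreeGroup (Fin m))) ≤ H.comap (jj m) := by
      apply Subgroup.normalClosure_le_normal
      intro r hr
      exact Subgroup.subset_closure (Or.inr ⟨r, hr, rfl⟩)
    exact this h

theorem exists_word (g : Br) : ∃ w : List (Fin 3 × Bool),
    PresentedGroup.mk rels (FreeGroup.mk w) = g := by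
  obtain ⟨y, rfl⟩ := PresentedGroup.mk_surjective rels g
  exact ⟨y.toWord, by rw [FreeGroup.mk_toWord]⟩

/-- The occurrence problem of the four strand braid group is undecidable. -/
theorem undecidable : ¬ ∃ f : List (List (Fin 3 × Bool)) × List (Fin 3 × Bool) → Bool,
    Computable f ∧ ∀ (gens : List (List (Fin 3 × Bool))) (w : List (Fin 3 × Bool)),
      f (gens, w) = true ↔ PresentedGroup.mk rels (FreeGroup.mk w) ∈
        Subgroup.closure {x | ∃ g ∈ gens, x = PresentedGroup.mk rels (FreeGroup.mk g)} := by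
  classical
  rintro ⟨f, hf, hspec⟩
  obtain ⟨m, R, W, hW, hu⟩ := Pool.Agent.Helper270.WP.word_problem
  obtain ⟨T, hT, hmem⟩ := exists_gens m R
  choose wd hwd using exists_word
  let V : Fin m × Bool → List (Fin 3 × Bool) := fun x => wd (jj m (FreeGroup.mk [x]))
  have hsub : ∀ w : List (Fin m × Bool),
      PresentedGroup.mk rels (FreeGroup.mk (w.flatMap V)) = jj m (FreeGroup.mk w) := by
    intro w
    induction w with
    | nil => exact (map_one _).trans (map_one _).symm
    | cons x w ih =>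
      rw [List.flatMap_cons, ← FreeGroup.mul_mk, map_mul, ih, hwd, ← map_mul, FreeGroup.mul_mk]
      rfl
  let gens : List (List (Fin 3 × Bool)) := hT.toFinset.toList.map wd
  have hgens : {x | ∃ g ∈ gens, x = PresentedGroup.mk rels (FreeGroup.mk g)} = T := by
    ext x
    simp only [gens, List.mem_map, Finset.mem_toList, Set.Finite.mem_toFinset]
    constructor
    · rintro ⟨g, ⟨t, ht, rfl⟩, rfl⟩
      rwa [hwd]
    · intro hx
      exact ⟨wd x, ⟨x, hx, rfl⟩, (hwd x).symm⟩
  apply hu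
  refine ComputablePred.computable_iff.mpr ⟨fun n => f (gens, (W n).flatMap V), ?_, ?_⟩
  · have h1 : Primrec (fun w : List (Fin m × Bool) => (gens, w.flatMap V)) := by
      apply Primrec.pair (Primrec.const _)
      apply Primrec.list_flatMap Primrec.id
      exact ((Primrec.dom_finite V).comp Primrec.snd).to₂
    exact hf.comp (h1.to_comp.comp hW)
  · funext n
    rw [hspec, hgens, hsub, hmem]

end Pool.Agent.H515Z.B4
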