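import Pool.Agent.H653Z.HB.Defs

set_option autoImplicit false
open MeasureTheory Filter Topology

namespace Pool.Agent.H653Z.HB
namespace Wk

variable {q : ℕ} [NeZero q]

noncomputable abbrev e (s : ZMod q) : ℂ := ZMod.stdAddChar s

theorem norm_e (s : ZMod q) : ‖e s‖ = 1 := AddChar.norm_apply _ _

theorem e_pow (s : ZMod q) (l : ℕ) : e s ^ l = e (s * (l : ZMod q)) := by
  rw [← AddChar.map_nsmul_eq_pow, nsmul_eq_mul, mul_comm]

theorem cast_ne {l : ℕ} (h0 : l ≠ 0) (hl : l < q) : (l : ZMod q) ≠ 0 := by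
  intro h
  rw [ZMod.natCast_eq_zero_iff] at h
  exact absurd (Nat.le_of_dvd (Nat.pos_of_ne_zero h0) h) (by omega)

theorem sum_e_pow {l : ℕ} (hl : l < q) :
    ∑ s : ZMod q, e s ^ l = if l = 0 then (q : ℂ) else 0 := by
  split_ifs with h
  · subst h; simp [ZMod.card]
  · simp only [e_pow]
    have := AddChar.sum_mulShift (ψ := (ZMod.stdAddChar : AddChar (ZMod q) ℂ)) (l : ZMod q)
      (ZMod.isPrimitive_stdAddChar q)
    rw [if_neg (cast_ne h hl)] at this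
    simpa using this

theorem sum_bin (w h : ℂ) (k : ℕ) : ∀ i : ℕ, i + k < q →
    ∑ s : ZMod q, e s ^ i * (w + h * e s) ^ k = if i = 0 then (q : ℂ) * w ^ k else 0 := by
  induction k with
  | zero => intro i hi; simpa using sum_e_pow (q := q) (l := i) (by omega)
  | succ k ih =>
    intro i hi
    have : ∀ s : ZMod q, e s ^ i * (w + h * e s) ^ (k + 1) =
        w * (e s ^ i * (w + h * e s) ^ k) + h * (e s ^ (i + 1) * (w + h * e s) ^ k) := by
      intro s; ring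
    simp only [this, Finset.sum_add_distrib, ← Finset.mul_sum]
    rw [ih i (by omega), ih (i + 1) (by omega), if_neg (Nat.succ_ne_zero i)]
    split_ifs with h1
    · ring
    · ring

theorem e_one_pow_ne {l : ℕ} (h0 : l ≠ 0) (hl : l < q) : e (1 : ZMod q) ^ l ≠ 1 := by
  rw [e_pow, one_mul]
  intro h
  have : e (l : ZMod q) = e (0 : ZMod q) := by rw [h]; simp [e]
  exact cast_ne h0 hl (ZMod.injective_stdAddChar this)

/-- step size -/
noncomputable def st (η : ℝ) (w : ℂ) : ℝ := if ‖w‖ ≤ 1 - η then η else 0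

noncomputable def W (η : ℝ) : (j : ℕ) → Om q j → ℂ
  | 0 => fun _ => 0
  | j + 1 => fun (a : Om q j × ZMod q) => W η j a.1 + st η (W η j a.1) * e a.2

noncomputable def m0 (η : ℝ) (k : ℕ) : (j : ℕ) → Om q j → ℂ
  | 0 => fun _ => 0 ^ k
  | j + 1 => fun (a : Om q j × ZMod q) =>
      m0 η k j a.1 + (k * W η j a.1 ^ (k - 1) * st η (W η j a.1)) * e a.2

theorem W_succ (η : ℝ) (j : ℕ) (a : Om q j) (s : ZMod q) :
    W η (j + 1) (a, s) = W η j a + st η (W η j a) * e s := rfl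

theorem m0_succ (η : ℝ) (k j : ℕ) (a : Om q j) (s : ZMod q) :
    m0 η k (j + 1) (a, s) = m0 η k j a + (k * W η j a ^ (k - 1) * st η (W η j a)) * e s := rfl

theorem st_nonneg {η : ℝ} (hη : 0 ≤ η) (w : ℂ) : 0 ≤ st η w := by
  unfold st; split_ifs <;> simp [hη]

theorem st_le {η : ℝ} (hη : 0 ≤ η) (w : ℂ) : st η w ≤ η := by
  unfold st; split_ifs <;> simp [hη]

theorem norm_W {η : ℝ} (hη : 0 ≤ η) : ∀ (j : ℕ) (a : Om q j), ‖W η j a‖ ≤ 1
  | 0, _ => by simp [W]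
  | j + 1, (a, s) => by
    rw [W_succ]
    have h1 := norm_W hη j a
    unfold st
    split_ifs with h
    · calc _ ≤ ‖W η j a‖ + ‖(η : ℂ) * e s‖ := norm_add_le _ _
        _ ≤ 1 := by
          rw [norm_mul, norm_e, Complex.norm_real, Real.norm_of_nonneg hη]; linarith
    · simpa using h1

theorem m0_mem (η : ℝ) (k : ℕ) : ∀ j : ℕ, m0 (q := q) η k j ∈ Mart q j
  | 0 => trivial
  | j + 1 => ⟨m0 η k j, m0_mem η k j, _, fun a s => m0_succ η k j a s⟩

theorem sum_mart (η : ℝ) {k : ℕ} (hk : 1 ≤ k) (hq : k + 1 < q) :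
    ∀ (j : ℕ) (F : Om q j → ℂ), F ∈ Mart q j → ∑ a, F a * W η j a ^ k = 0
  | 0, F, _ => by
    have : k ≠ 0 := by omega
    simp [W, this]
  | j + 1, F, hF => by
    obtain ⟨F', hF', φ, h⟩ := hF
    rw [sum_om_succ]
    have : ∀ a : Om q j, ∑ s : ZMod q, F (a, s) * W η (j + 1) (a, s) ^ k =
        q * (F' a * W η j a ^ k) := by
      intro a
      have h0 := sum_bin (q := q) (W η j a) (st η (W η j a)) k 0 (by omega)
      have h1 := sum_bin (q := q) (W η j a) (st η (W η j a)) k 1 (by omega)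
      simp only [pow_zero, one_mul, if_true, pow_one, one_ne_zero, if_false] at h0 h1
      have : ∀ s : ZMod q, F (a, s) * W η (j + 1) (a, s) ^ k =
          F' a * (W η j a + st η (W η j a) * e s) ^ k +
            φ a * (e s * (W η j a + st η (W η j a) * e s) ^ k) := by
        intro s; rw [h, W_succ]; ring
      simp only [this, Finset.sum_add_distrib, ← Finset.mul_sum, h0, h1]
      ring
    simp only [this, ← Finset.mul_sum]
    rw [sum_mart η hk hq j F' hF', mul_zero]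

theorem rem_le (w z : ℂ) (hw : ‖w‖ ≤ 1) (hz : ‖w + z‖ ≤ 1) (k : ℕ) :
    ‖(w + z) ^ k - w ^ k - k * w ^ (k - 1) * z‖ ≤ (k : ℝ) ^ 2 * ‖z‖ ^ 2 := by
  induction k with
  | zero => simp
  | succ k ih =>
    have h1 : (k : ℂ) * w ^ (k - 1) * w = k * w ^ k := by
      rcases k with _ | k
      · simp
      · simp only [Nat.add_sub_cancel]; ring
    have : (w + z) ^ (k + 1) - w ^ (k + 1) - ((k + 1 : ℕ) : ℂ) * w ^ (k + 1 - 1) * z =
        (w + z) * ((w + z) ^ k - w ^ k - k * w ^ (k - 1) * z) + k * w ^ (k - 1) * z ^ 2 := by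
      simp only [Nat.add_sub_cancel]
      push_cast
      linear_combination z * h1
    rw [this]
    have h2 : ‖(k : ℂ) * w ^ (k - 1) * z ^ 2‖ ≤ k * ‖z‖ ^ 2 := by
      rw [norm_mul, norm_mul, norm_pow, norm_pow, Complex.norm_natCast]
      have : ‖w‖ ^ (k - 1) ≤ 1 := pow_le_one₀ (norm_nonneg _) hw
      have h3 : (k : ℝ) * ‖w‖ ^ (k - 1) ≤ k := by
        calc _ ≤ (k : ℝ) * 1 := by gcongr
          _ = k := mul_one _
      gcongr
    have h3 : ‖(w + z) * ((w + z) ^ k - w ^ k - k * w ^ (k - 1) * z)‖ ≤ (k : ℝ) ^ 2 * ‖z‖ ^ 2 := by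
      rw [norm_mul]
      calc _ ≤ 1 * ((k : ℝ) ^ 2 * ‖z‖ ^ 2) := by gcongr
        _ = _ := one_mul _
    calc _ ≤ _ := norm_add_le _ _
      _ ≤ (k : ℝ) ^ 2 * ‖z‖ ^ 2 + k * ‖z‖ ^ 2 := add_le_add h3 h2
      _ ≤ _ := by
        push_cast
        have : (0 : ℝ) ≤ k := Nat.cast_nonneg k
        nlinarith [sq_nonneg ‖z‖, mul_nonneg this (sq_nonneg ‖z‖)]

theorem sum_sq_add (D : ℂ) (R : ZMod q → ℂ) (hR : ∑ s, R s = 0) :
    ∑ s, ‖D + R s‖ ^ 2 = q * ‖D‖ ^ 2 + ∑ s, ‖R s‖ ^ 2 := by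
  have h1 : ∀ s, ‖D + R s‖ ^ 2 = ‖D‖ ^ 2 + ‖R s‖ ^ 2 + 2 * (starRingEnd ℂ D * R s).re := by
    intro s
    simp only [Complex.sq_norm, Complex.normSq_apply, Complex.add_re, Complex.add_im,
      Complex.mul_re, Complex.conj_re, Complex.conj_im]
    ring
  have h2 : ∑ s, (starRingEnd ℂ D * R s).re = 0 := by
    rw [← Complex.re_sum, ← Finset.mul_sum, hR]; simp
  simp only [h1, Finset.sum_add_distrib, ← Finset.mul_sum, h2]
  simp [ZMod.card]

theorem sum_e (hq : 1 < q) : ∑ s : ZMod q, e s = 0 := by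
  simpa using sum_e_pow (q := q) (l := 1) hq

theorem sum_D {η : ℝ} (hη : 0 ≤ η) {k : ℕ} (hq : k + 1 < q) : ∀ j : ℕ,
    ∑ a : Om q j, ‖W η j a ^ k - m0 η k j a‖ ^ 2 ≤ (q : ℝ) ^ j * (j * ((k : ℝ) ^ 2 * η ^ 2) ^ 2)
  | 0 => by simp [W, m0]
  | j + 1 => by
    rw [sum_om_succ]
    have ih := sum_D hη hq j
    have : ∀ a : Om q j, ∑ s : ZMod q, ‖W η (j + 1) (a, s) ^ k - m0 η k (j + 1) (a, s)‖ ^ 2 ≤
        q * ‖W η j a ^ k - m0 η k j a‖ ^ 2 + q * ((k : ℝ) ^ 2 * η ^ 2) ^ 2 := by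
      intro a
      set w := W η j a with hw
      set R : ZMod q → ℂ := fun s => (w + st η w * e s) ^ k - w ^ k -
        k * w ^ (k - 1) * (st η w * e s) with hR
      have h1 : ∀ s : ZMod q, W η (j + 1) (a, s) ^ k - m0 η k (j + 1) (a, s) =
          (w ^ k - m0 η k j a) + R s := by
        intro s; rw [W_succ, m0_succ]; simp only [hR, ← hw]; ring
      have h0 := sum_bin (q := q) w (st η w) k 0 (by omega)
      simp only [pow_zero, one_mul, if_true] at h0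
      have h2 : ∑ s, R s = 0 := by
        simp only [hR, Finset.sum_sub_distrib, h0, ← Finset.mul_sum, sum_e (q := q) (by omega)]
        simp [ZMod.card]
      simp only [h1]
      rw [sum_sq_add _ _ h2]
      have h3 : ∀ s, ‖R s‖ ^ 2 ≤ ((k : ℝ) ^ 2 * η ^ 2) ^ 2 := by
        intro s
        have h4 := rem_le w (st η w * e s) (norm_W hη j a) (norm_W hη (j + 1) (a, s)) k
        have h5 : ‖(st η w : ℂ) * e s‖ ≤ η := by
          rw [norm_mul, norm_e, Complex.norm_real, Real.norm_of_nonneg (st_nonneg hη w), mul_one]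
          exact st_le hη w
        have h6 : ‖R s‖ ≤ (k : ℝ) ^ 2 * η ^ 2 := h4.trans (by gcongr)
        gcongr
      have h7 : ∑ s, ‖R s‖ ^ 2 ≤ q * ((k : ℝ) ^ 2 * η ^ 2) ^ 2 := by
        calc _ ≤ ∑ _s : ZMod q, ((k : ℝ) ^ 2 * η ^ 2) ^ 2 := Finset.sum_le_sum fun s _ => h3 s
          _ = _ := by simp [ZMod.card]
      linarith
    calc _ ≤ ∑ a : Om q j, (q * ‖W η j a ^ k - m0 η k j a‖ ^ 2 + q * ((k : ℝ) ^ 2 * η ^ 2) ^ 2) :=
          Finset.sum_le_sum fun a _ => this a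
      _ = q * ∑ a : Om q j, ‖W η j a ^ k - m0 η k j a‖ ^ 2 +
          (q : ℝ) ^ j * (q * ((k : ℝ) ^ 2 * η ^ 2) ^ 2) := by
          rw [Finset.sum_add_distrib, ← Finset.mul_sum]
          simp [card_om]
      _ ≤ q * ((q : ℝ) ^ j * (j * ((k : ℝ) ^ 2 * η ^ 2) ^ 2)) +
          (q : ℝ) ^ j * (q * ((k : ℝ) ^ 2 * η ^ 2) ^ 2) := by gcongr
      _ = _ := by push_cast; ring

/-- indicator of the inner disc -/
noncomputable def ind (η : ℝ) (w : ℂ) : ℝ := if ‖w‖ ≤ 1 - η then 1 else 0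

theorem st_eq (η : ℝ) (w : ℂ) : st η w = η * ind η w := by
  unfold st ind; split_ifs <;> simp

theorem ind_sq (η : ℝ) (w : ℂ) : ind η w ^ 2 = ind η w := by
  unfold ind; split_ifs <;> simp

theorem sum_ind {η : ℝ} (hη : 0 ≤ η) (hq : 1 < q) : ∀ j : ℕ,
    η ^ 2 * j * ∑ a : Om q j, ind η (W η j a) ≤ ∑ a : Om q j, ‖W η j a‖ ^ 2
  | 0 => by simp [W]
  | j + 1 => by
    have ih := sum_ind hη hq j
    rw [sum_om_succ, sum_om_succ]
    have h1 : ∀ a : Om q j, ∑ s : ZMod q, ‖W η (j + 1) (a, s)‖ ^ 2 =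
        q * ‖W η j a‖ ^ 2 + q * (η ^ 2 * ind η (W η j a)) := by
      intro a
      simp only [W_succ]
      rw [sum_sq_add _ _ (by rw [← Finset.mul_sum, sum_e hq, mul_zero])]
      congr 1
      have : ∀ s : ZMod q, ‖(st η (W η j a) : ℂ) * e s‖ ^ 2 = η ^ 2 * ind η (W η j a) := by
        intro s
        rw [norm_mul, norm_e, Complex.norm_real, mul_one, Real.norm_eq_abs, sq_abs, st_eq, mul_pow,
          ind_sq]
      simp only [this]
      simp [ZMod.card]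
    have h2 : ∀ a : Om q j, ∑ s : ZMod q, ind η (W η (j + 1) (a, s)) ≤ q * ind η (W η j a) := by
      intro a
      have : ∀ s : ZMod q, ind η (W η (j + 1) (a, s)) ≤ ind η (W η j a) := by
        intro s
        rw [W_succ]
        by_cases h : ‖W η j a‖ ≤ 1 - η
        · have : ind η (W η j a) = 1 := by simp [ind, h]
          rw [this]; unfold ind; split_ifs <;> simp
        · have : st η (W η j a) = 0 := by simp [st, h]
          rw [this]; simp
      calc _ ≤ ∑ _s : ZMod q, ind η (W η j a) := Finset.sum_le_sum fun s _ => this s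
        _ = _ := by simp [ZMod.card]
    have h3 : ∑ a : Om q j, ∑ s : ZMod q, ind η (W η (j + 1) (a, s)) ≤
        q * ∑ a : Om q j, ind η (W η j a) := by
      rw [Finset.mul_sum]; exact Finset.sum_le_sum fun a _ => h2 a
    simp only [h1, Finset.sum_add_distrib, ← Finset.mul_sum]
    have hq0 : (0 : ℝ) ≤ q := Nat.cast_nonneg q
    calc _ ≤ η ^ 2 * ((j + 1 : ℕ) : ℝ) * (q * ∑ a : Om q j, ind η (W η j a)) := by gcongr
      _ = q * (η ^ 2 * j * ∑ a : Om q j, ind η (W η j a)) +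
          q * (η ^ 2 * ∑ a : Om q j, ind η (W η j a)) := by push_cast; ring
      _ ≤ _ := by gcongr

/-- rotation of all the steps -/
def rot : (j : ℕ) → Om q j ≃ Om q j
  | 0 => Equiv.refl _
  | j + 1 => Equiv.prodCongr (rot j) (Equiv.addRight (1 : ZMod q))

theorem rot_succ (j : ℕ) (a : Om q j) (s : ZMod q) :
    rot (j + 1) (a, s) = (rot j a, s + 1) := rfl

theorem e_succ (s : ZMod q) : e (s + 1) = e (1 : ZMod q) * e s := by
  rw [mul_comm]; exact AddChar.map_add_eq_mul _ _ _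

theorem st_rot (η : ℝ) (w : ℂ) : st η (e (1 : ZMod q) * w) = st η w := by
  unfold st; rw [norm_mul, norm_e, one_mul]

theorem W_rot (η : ℝ) : ∀ (j : ℕ) (a : Om q j), W η j (rot j a) = e (1 : ZMod q) * W η j a
  | 0, _ => by simp [W]
  | j + 1, (a, s) => by
    rw [rot_succ, W_succ, W_succ, W_rot η j a, st_rot, e_succ]; ring

theorem m0_rot (η : ℝ) (k : ℕ) : ∀ (j : ℕ) (a : Om q j),
    m0 η k j (rot j a) = e (1 : ZMod q) ^ k * m0 η k j a
  | 0, _ => by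
    rcases k with _ | k <;> simp [m0]
  | j + 1, (a, s) => by
    rw [rot_succ, m0_succ, m0_succ, W_rot η j a, st_rot, e_succ, m0_rot η k j a]
    rcases k with _ | k
    · simp
    · simp only [Nat.add_sub_cancel]; ring

theorem orth (η : ℝ) {k k' : ℕ} (hk : k < q) (hk' : k' < q) (hne : k ≠ k') (j : ℕ) :
    ∑ a : Om q j, m0 η k j a * starRingEnd ℂ (W η j a) ^ k' = 0 := by
  set S := ∑ a : Om q j, m0 η k j a * starRingEnd ℂ (W η j a) ^ k' with hS
  set ζ := e (1 : ZMod q) with hζ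
  have h1 : S = ζ ^ k * starRingEnd ℂ ζ ^ k' * S := by
    conv_lhs => rw [hS, ← Equiv.sum_comp (rot j)]
    rw [hS, Finset.mul_sum]
    refine Finset.sum_congr rfl fun a _ => ?_
    rw [m0_rot, W_rot, map_mul, ← hζ]; ring
  have h2 : ζ * starRingEnd ℂ ζ = 1 := by
    rw [Complex.mul_conj, Complex.normSq_eq_norm_sq, hζ, norm_e]; simp
  by_contra hS0
  have h3 : ζ ^ k * starRingEnd ℂ ζ ^ k' = 1 := by
    have : (ζ ^ k * starRingEnd ℂ ζ ^ k' - 1) * S = 0 := by linear_combination -h1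
    rcases mul_eq_zero.1 this with h | h
    · linear_combination h
    · exact absurd h hS0
  have h4 : ζ ^ k = ζ ^ k' := by
    calc ζ ^ k = ζ ^ k * (ζ * starRingEnd ℂ ζ) ^ k' := by rw [h2]; simp
      _ = (ζ ^ k * starRingEnd ℂ ζ ^ k') * ζ ^ k' := by ring
      _ = _ := by rw [h3, one_mul]
  have hζ0 : ζ ≠ 0 := by
    intro h; rw [h] at h2; simp at h2
  rcases lt_or_gt_of_ne hne with h | h
  · obtain ⟨l, rfl⟩ := Nat.exists_eq_add_of_lt h
    refine e_one_pow_ne (q := q) (l := l + 1) (by omega) (by omega) ?_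
    have : ζ ^ k * ζ ^ (l + 1) = ζ ^ k * 1 := by rw [mul_one, ← pow_add, ← add_assoc]; exact h4.symm
    exact mul_left_cancel₀ (pow_ne_zero _ hζ0) this
  · obtain ⟨l, rfl⟩ := Nat.exists_eq_add_of_lt h
    refine e_one_pow_ne (q := q) (l := l + 1) (by omega) (by omega) ?_
    have : ζ ^ k' * ζ ^ (l + 1) = ζ ^ k' * 1 := by rw [mul_one, ← pow_add, ← add_assoc]; exact h4
    exact mul_left_cancel₀ (pow_ne_zero _ hζ0) this

theorem sum_const' (j : ℕ) (c : ℝ) : ∑ _a : Om q j, c = (q : ℝ) ^ j * c := by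
  simp [card_om]

theorem est1 {η δ : ℝ} (hη : 0 ≤ η) (hδ : 0 < δ) {k : ℕ} (hq : k + 1 < q) (j : ℕ)
    (h : j * ((k : ℝ) ^ 2 * η ^ 2) ^ 2 ≤ δ ^ 2) :
    ∑ a : Om q j, ‖m0 η k j a - W η j a ^ k‖ ≤ 2 * δ * (q : ℝ) ^ j := by
  have h1 := sum_D (q := q) hη hq j
  have h2 : ∀ a : Om q j, ‖m0 η k j a - W η j a ^ k‖ ≤ δ + δ⁻¹ * ‖W η j a ^ k - m0 η k j a‖ ^ 2 := by
    intro a
    rw [norm_sub_rev]
    set x := ‖W η j a ^ k - m0 η k j a‖
    have hx : 0 ≤ x := norm_nonneg _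
    have : δ * x ≤ δ * (δ + δ⁻¹ * x ^ 2) := by
      rw [mul_add, ← mul_assoc, mul_inv_cancel₀ hδ.ne', one_mul]
      nlinarith [sq_nonneg (δ - x), mul_nonneg hδ.le hx]
    exact le_of_mul_le_mul_left this hδ
  have hq0 : (0 : ℝ) ≤ (q : ℝ) ^ j := by positivity
  calc _ ≤ ∑ a : Om q j, (δ + δ⁻¹ * ‖W η j a ^ k - m0 η k j a‖ ^ 2) :=
        Finset.sum_le_sum fun a _ => h2 a
    _ = (q : ℝ) ^ j * δ + δ⁻¹ * ∑ a : Om q j, ‖W η j a ^ k - m0 η k j a‖ ^ 2 := by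
        rw [Finset.sum_add_distrib, sum_const', Finset.mul_sum]
    _ ≤ (q : ℝ) ^ j * δ + δ⁻¹ * ((q : ℝ) ^ j * δ ^ 2) := by
        gcongr
        exact h1.trans (by gcongr)
    _ = _ := by field_simp; ring

theorem est2 {η δ : ℝ} (hη : 0 < η) (hη1 : η ≤ 1) (hδ : 0 < δ) (hq : 1 < q) (k j : ℕ)
    (h1 : 2 * k * η ≤ δ) (h2 : 1 ≤ δ * (η ^ 2 * j)) :
    ∑ a : Om q j, (1 - ‖W η j a‖ ^ (2 * k)) ≤ 2 * δ * (q : ℝ) ^ j := by
  have h3 := sum_ind (q := q) hη.le hq j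
  have h4 : ∑ a : Om q j, ‖W η j a‖ ^ 2 ≤ (q : ℝ) ^ j := by
    calc _ ≤ ∑ _a : Om q j, (1 : ℝ) :=
          Finset.sum_le_sum fun a _ => pow_le_one₀ (norm_nonneg _) (norm_W hη.le j a)
      _ = _ := by rw [sum_const', mul_one]
  have h5 : ∀ a : Om q j, 1 - ‖W η j a‖ ^ (2 * k) ≤ δ + ind η (W η j a) := by
    intro a
    unfold ind
    split_ifs with h
    · have : 0 ≤ ‖W η j a‖ ^ (2 * k) := by positivity
      linarith
    · push Not at h
      have h6 : (1 + (-η)) ^ (2 * k) ≤ ‖W η j a‖ ^ (2 * k) := by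
        apply pow_le_pow_left₀ <;> linarith
      have h7 := one_add_mul_le_pow (a := -η) (by linarith) (2 * k)
      push_cast at h7
      linarith
  have h6 : 0 ≤ ∑ a : Om q j, ind η (W η j a) :=
    Finset.sum_nonneg fun a _ => by unfold ind; split_ifs <;> simp
  have h7 : ∑ a : Om q j, ind η (W η j a) ≤ δ * (q : ℝ) ^ j := by
    calc _ ≤ (δ * (η ^ 2 * j)) * ∑ a : Om q j, ind η (W η j a) := le_mul_of_one_le_left h6 h2
      _ = δ * (η ^ 2 * j * ∑ a : Om q j, ind η (W η j a)) := by ring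
      _ ≤ _ := by gcongr; exact h3.trans h4
  calc _ ≤ ∑ a : Om q j, (δ + ind η (W η j a)) := Finset.sum_le_sum fun a _ => h5 a
    _ = (q : ℝ) ^ j * δ + ∑ a : Om q j, ind η (W η j a) := by
        rw [Finset.sum_add_distrib, sum_const']
    _ ≤ _ := by linarith

/-- normalising constant -/
noncomputable def lam (q : ℕ) [NeZero q] (η : ℝ) (k j : ℕ) : ℂ :=
  ((q : ℂ) ^ j)⁻¹ * ∑ a : Om q j, m0 η k j a * starRingEnd ℂ (W η j a) ^ k

theorem lam_est {η δ : ℝ} (hη : 0 ≤ η) (k j : ℕ)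
    (h1 : ∑ a : Om q j, ‖m0 η k j a - W η j a ^ k‖ ≤ 2 * δ * (q : ℝ) ^ j)
    (h2 : ∑ a : Om q j, (1 - ‖W η j a‖ ^ (2 * k)) ≤ 2 * δ * (q : ℝ) ^ j) :
    ‖lam q η k j - 1‖ ≤ 4 * δ := by
  have hq : (0 : ℝ) < q := Nat.cast_pos.2 (NeZero.pos q)
  have hq' : (q : ℂ) ^ j ≠ 0 := pow_ne_zero _ (Nat.cast_ne_zero.2 (NeZero.ne q))
  have h3 : lam q η k j - 1 =
      ((q : ℂ) ^ j)⁻¹ * ∑ a : Om q j, (m0 η k j a * starRingEnd ℂ (W η j a) ^ k - 1) := by
    rw [Finset.sum_sub_distrib, mul_sub, lam]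
    congr 1
    simp [card_om, hq']
  have h4 : ∀ a : Om q j, ‖m0 η k j a * starRingEnd ℂ (W η j a) ^ k - 1‖ ≤
      ‖m0 η k j a - W η j a ^ k‖ + (1 - ‖W η j a‖ ^ (2 * k)) := by
    intro a
    set w := W η j a
    have hw : ‖w‖ ≤ 1 := norm_W hη j a
    have h5 : w ^ k * starRingEnd ℂ w ^ k = ((‖w‖ ^ (2 * k) : ℝ) : ℂ) := by
      rw [← mul_pow, Complex.mul_conj, Complex.normSq_eq_norm_sq]; push_cast; ring
    have h6 : m0 η k j a * starRingEnd ℂ w ^ k - 1 =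
        (m0 η k j a - w ^ k) * starRingEnd ℂ w ^ k - ((1 - ‖w‖ ^ (2 * k) : ℝ) : ℂ) := by
      rw [sub_mul, h5]; push_cast; ring
    have h7 : ‖w‖ ^ (2 * k) ≤ 1 := pow_le_one₀ (norm_nonneg _) hw
    rw [h6]
    refine (norm_sub_le _ _).trans (add_le_add ?_ ?_)
    · rw [norm_mul, norm_pow, Complex.norm_conj]
      exact mul_le_of_le_one_right (norm_nonneg _) (pow_le_one₀ (norm_nonneg _) hw)
    · rw [Complex.norm_real, Real.norm_of_nonneg (by linarith)]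
  rw [h3, norm_mul, norm_inv, norm_pow, Complex.norm_natCast]
  have h5 : ‖∑ a : Om q j, (m0 η k j a * starRingEnd ℂ (W η j a) ^ k - 1)‖ ≤
      4 * δ * (q : ℝ) ^ j := by
    calc _ ≤ ∑ a : Om q j, (‖m0 η k j a - W η j a ^ k‖ + (1 - ‖W η j a‖ ^ (2 * k))) :=
          (norm_sum_le _ _).trans (Finset.sum_le_sum fun a _ => h4 a)
      _ ≤ _ := by rw [Finset.sum_add_distrib]; linarith
  calc _ ≤ ((q : ℝ) ^ j)⁻¹ * (4 * δ * (q : ℝ) ^ j) := by gcongr
    _ = _ := by field_simp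

theorem wpow_nat (w : ℂ) (k : ℕ) : wpow w (k : ℤ) = w ^ k := by simp [wpow]

theorem wpow_neg_nat (w : ℂ) (k : ℕ) : wpow w (-(k : ℤ)) = starRingEnd ℂ w ^ k := by
  unfold wpow
  split_ifs with h
  · have : k = 0 := by omega
    subst this; simp
  · simp

theorem wpow_neg (w : ℂ) (k : ℤ) : wpow w (-k) = starRingEnd ℂ (wpow w k) := by
  obtain ⟨l, rfl | rfl⟩ := Int.eq_nat_or_neg k
  · rw [wpow_nat, wpow_neg_nat, map_pow]
  · rw [neg_neg, wpow_nat, wpow_neg_nat, map_pow, Complex.conj_conj]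

theorem params (n : ℕ) {δ : ℝ} (hδ : 0 < δ) : ∃ (N : ℕ) (η : ℝ), 0 < η ∧ η ≤ 1 ∧
    N * ((n : ℝ) ^ 2 * η ^ 2) ^ 2 ≤ δ ^ 2 ∧ 2 * n * η ≤ δ ∧ 1 ≤ δ * (η ^ 2 * N) := by
  obtain ⟨T, hT⟩ := exists_nat_ge (1 / δ)
  obtain ⟨M, hM⟩ := exists_nat_ge (1 + T * (n : ℝ) ^ 4 / δ ^ 2 + 2 * n / δ)
  have a1 : 0 ≤ T * (n : ℝ) ^ 4 / δ ^ 2 := by positivity
  have a2 : 0 ≤ 2 * (n : ℝ) / δ := by positivity
  have hM1 : (1 : ℝ) ≤ M := by linarith
  have hM0 : (0 : ℝ) < M := by linarith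
  refine ⟨T * M ^ 2, 1 / M, by positivity, by rw [div_le_one hM0]; exact hM1, ?_, ?_, ?_⟩
  · have h1 : T * (n : ℝ) ^ 4 / δ ^ 2 ≤ M := by linarith
    rw [div_le_iff₀ (by positivity)] at h1
    have : ((T * M ^ 2 : ℕ) : ℝ) * ((n : ℝ) ^ 2 * (1 / M) ^ 2) ^ 2 = T * (n : ℝ) ^ 4 / M ^ 2 := by
      push_cast; field_simp
    rw [this, div_le_iff₀ (by positivity)]
    have : (M : ℝ) * δ ^ 2 ≤ δ ^ 2 * M ^ 2 := by nlinarith [mul_nonneg (sq_nonneg δ) hM0.le]
    linarith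
  · have h1 : 2 * (n : ℝ) / δ ≤ M := by linarith
    rw [div_le_iff₀ hδ] at h1
    rw [mul_one_div, div_le_iff₀ hM0]; linarith
  · have : (1 / (M : ℝ)) ^ 2 * ((T * M ^ 2 : ℕ) : ℝ) = T := by push_cast; field_simp
    rw [this]
    rw [div_le_iff₀ hδ] at hT
    linarith

end Wk

open Wk in
theorem walk (n : ℕ) (ε : ℝ) (hε : 0 < ε) : ∃ N : ℕ, ∀ (q : ℕ) [NeZero q], n + 2 ≤ q →
    ∃ (W : Om q N → ℂ) (m : ℤ → Om q N → ℂ),
      (∀ a, ‖W a‖ ≤ 1) ∧ (∀ k : ℤ, 0 ≤ k → k ≤ n → m k ∈ Mart q N) ∧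
      (∀ F ∈ Mart q N, ∀ k : ℤ, 1 ≤ k → k ≤ n → ∑ a, F a * wpow (W a) k = 0) ∧
      (∀ k : ℤ, k ≠ 0 → |k| ≤ n → ∑ a, wpow (W a) k = 0) ∧
      (∀ k : ℤ, |k| ≤ n → ∑ a, ‖m k a - wpow (W a) k‖ ≤ ε * (q : ℝ) ^ N) ∧
      ∀ k k' : ℤ, |k| ≤ n → |k'| ≤ n →
        ∑ a, m k a * wpow (W a) (-k') = if k = k' then (q : ℂ) ^ N else 0 := by
  set δ : ℝ := min (ε / 12) (1 / 8) with hδdef
  have hδ : 0 < δ := lt_min (by positivity) (by norm_num)
  have hδ1 : δ ≤ ε / 12 := min_le_left _ _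
  have hδ2 : δ ≤ 1 / 8 := min_le_right _ _
  obtain ⟨N, η, hη, hη1, p1, p2, p3⟩ := params n hδ
  refine ⟨N, fun q _ hq => ?_⟩
  have hq' : (q : ℂ) ^ N ≠ 0 := pow_ne_zero _ (Nat.cast_ne_zero.2 (NeZero.ne q))
  have e1 : ∀ k : ℕ, k ≤ n → ∑ a : Om q N, ‖m0 η k N a - W η N a ^ k‖ ≤ 2 * δ * (q : ℝ) ^ N := by
    intro k hk
    refine est1 hη.le hδ (by omega) N (le_trans ?_ p1)
    gcongr
  have e2 : ∀ k : ℕ, k ≤ n → ‖lam q η k N - 1‖ ≤ 4 * δ := by
    intro k hk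
    refine lam_est hη.le k N (e1 k hk) (est2 hη hη1 hδ (by omega) k N (le_trans ?_ p2) p3)
    gcongr
  have e3 : ∀ k : ℕ, k ≤ n → 1 / 2 ≤ ‖lam q η k N‖ := by
    intro k hk
    have h1 := e2 k hk
    have h2 : ‖(1 : ℂ)‖ ≤ ‖lam q η k N‖ + ‖lam q η k N - 1‖ := by
      have := norm_sub_le (lam q η k N) (lam q η k N - 1)
      simpa using this
    rw [norm_one] at h2
    linarith
  have e4 : ∀ k : ℕ, k ≤ n → lam q η k N ≠ 0 := by
    intro k hk h
    have := e3 k hk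
    rw [h, norm_zero] at this
    norm_num at this
  let mp : ℕ → Om q N → ℂ := fun k => (lam q η k N)⁻¹ • m0 η k N
  have hmp : ∀ k, mp k ∈ Mart q N := fun k => Submodule.smul_mem _ _ (m0_mem η k N)
  let m : ℤ → Om q N → ℂ := fun k a =>
    if 0 ≤ k then mp k.toNat a else starRingEnd ℂ (mp (-k).toNat a)
  have hm1 : ∀ k : ℕ, m k = mp k := by
    intro k; funext a; simp [m]
  have hm2 : ∀ k : ℕ, k ≠ 0 → ∀ a, m (-(k : ℤ)) a = starRingEnd ℂ (mp k a) := by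
    intro k hk a
    have : ¬ (0 : ℤ) ≤ -(k : ℤ) := by omega
    simp only [m, if_neg this]; simp
  have c3 : ∀ F ∈ Mart q N, ∀ k : ℤ, 1 ≤ k → k ≤ n → ∑ a, F a * wpow (W η N a) k = 0 := by
    intro F hF k h1 h2
    obtain ⟨l, rfl⟩ := Int.eq_ofNat_of_zero_le (a := k) (by omega)
    simp only [wpow_nat]
    exact sum_mart η (by omega) (by omega) N F hF
  have c5 : ∀ k : ℕ, k ≤ n → ∑ a, ‖mp k a - W η N a ^ k‖ ≤ ε * (q : ℝ) ^ N := by
    intro k hk
    have h1 : ∀ a, ‖mp k a - W η N a ^ k‖ ≤ 2 * ‖m0 η k N a - W η N a ^ k‖ + 8 * δ := by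
      intro a
      have h2 : mp k a - W η N a ^ k =
          (lam q η k N)⁻¹ * ((m0 η k N a - W η N a ^ k) - (lam q η k N - 1) * W η N a ^ k) := by
        have := e4 k hk
        simp only [mp, Pi.smul_apply, smul_eq_mul]
        field_simp
        ring
      have h3 : ‖(lam q η k N)⁻¹‖ ≤ 2 := by
        rw [norm_inv]
        exact inv_le_of_inv_le₀ (by norm_num) (by simpa using e3 k hk)
      have h4 : ‖(lam q η k N - 1) * W η N a ^ k‖ ≤ 4 * δ := by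
        rw [norm_mul, norm_pow]
        exact (mul_le_of_le_one_right (norm_nonneg _)
          (pow_le_one₀ (norm_nonneg _) (norm_W hη.le N a))).trans (e2 k hk)
      rw [h2, norm_mul]
      calc _ ≤ 2 * (‖m0 η k N a - W η N a ^ k‖ + 4 * δ) := by
            gcongr
            exact (norm_sub_le _ _).trans (by gcongr)
        _ = _ := by ring
    have hq0 : (0 : ℝ) ≤ (q : ℝ) ^ N := by positivity
    calc _ ≤ ∑ a : Om q N, (2 * ‖m0 η k N a - W η N a ^ k‖ + 8 * δ) :=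
          Finset.sum_le_sum fun a _ => h1 a
      _ = 2 * ∑ a : Om q N, ‖m0 η k N a - W η N a ^ k‖ + (q : ℝ) ^ N * (8 * δ) := by
          rw [Finset.sum_add_distrib, sum_const', Finset.mul_sum]
      _ ≤ 2 * (2 * δ * (q : ℝ) ^ N) + (q : ℝ) ^ N * (8 * δ) := by
          gcongr; exact e1 k hk
      _ = (12 * δ) * (q : ℝ) ^ N := by ring
      _ ≤ _ := by gcongr; linarith
  have c6 : ∀ k : ℕ, k ≤ n → ∀ k' : ℤ, |k'| ≤ n →
      ∑ a, mp k a * wpow (W η N a) (-k') = if (k : ℤ) = k' then (q : ℂ) ^ N else 0 := by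
    intro k hk k' hk'
    rw [abs_le] at hk'
    by_cases h0 : 0 ≤ k'
    · obtain ⟨l, rfl⟩ := Int.eq_ofNat_of_zero_le h0
      simp only [wpow_neg_nat, mp, Pi.smul_apply, smul_eq_mul, mul_assoc, ← Finset.mul_sum]
      split_ifs with h
      · have h : k = l := by exact_mod_cast h
        subst h
        have h1 := e4 k hk
        have h2 : ∑ a : Om q N, m0 η k N a * starRingEnd ℂ (W η N a) ^ k =
            (q : ℂ) ^ N * lam q η k N := by
          rw [lam, ← mul_assoc, mul_inv_cancel₀ hq', one_mul]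
        rw [h2]; field_simp
      · rw [orth η (by omega) (by omega) (fun h' => h (by rw [h'])) N, mul_zero]
    · rw [if_neg (by omega)]
      exact c3 _ (hmp k) _ (by omega) (by omega)
  refine ⟨W η N, m, norm_W hη.le N, ?_, c3, ?_, ?_, ?_⟩
  · intro k h0 _
    obtain ⟨l, rfl⟩ := Int.eq_ofNat_of_zero_le h0
    rw [hm1]; exact hmp l
  · intro k h0 hk
    rw [abs_le] at hk
    by_cases h1 : 1 ≤ k
    · simpa using c3 _ (one_mem_mart q N) k h1 hk.2
    · have h2 := c3 _ (one_mem_mart q N) (-k) (by omega) (by omega)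
      simp only [one_mul, wpow_neg, ← map_sum] at h2
      exact (map_eq_zero _).1 h2
  · intro k hk
    rw [abs_le] at hk
    obtain ⟨l, rfl | rfl⟩ := Int.eq_nat_or_neg k
    · simp only [hm1, wpow_nat]; exact c5 l (by omega)
    · by_cases h0 : l = 0
      · subst h0
        have := c5 0 (by omega)
        simp only [← hm1, ← wpow_nat] at this
        simpa using this
      · simp only [hm2 l h0, wpow_neg_nat, ← map_pow, ← map_sub, Complex.norm_conj]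
        exact c5 l (by omega)
  · intro k k' hk hk'
    by_cases h0 : 0 ≤ k
    · obtain ⟨l, rfl⟩ := Int.eq_ofNat_of_zero_le h0
      rw [abs_le] at hk
      rw [hm1]; exact c6 l (by omega) k' hk'
    · obtain ⟨l, hl⟩ := Int.eq_ofNat_of_zero_le (a := -k) (by omega)
      have hk0 : k = -(l : ℤ) := by omega
      subst hk0
      rw [abs_le] at hk
      have h1 := c6 l (by omega) (-k') (by rwa [abs_neg])
      have h2 : ∀ a, m (-(l : ℤ)) a * wpow (W η N a) (-k') =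
          starRingEnd ℂ (mp l a * wpow (W η N a) (- -k')) := by
        intro a
        rw [hm2 l (by omega), map_mul, wpow_neg, neg_neg]
      simp only [h2, ← map_sum, h1]
      by_cases h3 : (l : ℤ) = -k'
      · rw [if_pos h3, if_pos (by omega)]; simp
      · rw [if_neg h3, if_neg (by omega)]; simp

end Pool.Agent.H653Z.HB
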