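import Mathlib
import Pool.Agent.H515Z.GMMat

set_option autoImplicit false
set_option linter.unusedSectionVars false
set_option linter.unusedVariables false

/-!
Decomposition of an almost action of a Kazhdan group into expanding parts.
-/

namespace Pool.Agent.H515Z.NS

open Finset Equiv
open scoped InnerProductSpace Classical
open Pool.Agent.H304Z.NH Pool.Agent.H515Z.GM

section cnt

variable {A : Type} [Fintype A]

/-- number of points with a property -/
noncomputable def cnt (P : A → Prop) : ℝ := ∑ p, if P p then 1 else 0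

theorem cnt_nonneg (P : A → Prop) : 0 ≤ cnt P :=
  sum_nonneg fun p _ => by split_ifs <;> norm_num

theorem cnt_mono {P Q : A → Prop} (h : ∀ p, P p → Q p) : cnt P ≤ cnt Q :=
  sum_le_sum fun p _ => by
    by_cases hp : P p
    · simp [hp, h p hp]
    · simp only [hp, if_false]
      split_ifs <;> norm_num

theorem cnt_or {P Q R : A → Prop} (h : ∀ p, P p → Q p ∨ R p) : cnt P ≤ cnt Q + cnt R := by
  unfold cnt
  rw [← sum_add_distrib]
  refine sum_le_sum fun p _ => ?_
  have := h p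
  by_cases hp : P p <;> by_cases hq : Q p <;> by_cases hr : R p <;> simp_all

theorem cnt_comp (σ : Perm A) (P : A → Prop) : cnt (fun p => P (σ p)) = cnt P :=
  Equiv.sum_comp σ (fun p => if P p then (1 : ℝ) else 0)

theorem cnt_mem (T : Finset A) : cnt (fun p => p ∈ T) = T.card := by
  have : (∑ p, if p ∈ T then (1 : ℝ) else 0) = T.card := by simp
  rw [← this]
  exact sum_congr rfl fun p _ => by congr

theorem cnt_true : cnt (fun _ : A => True) = Fintype.card A := by
  simp [cnt]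

theorem cnt_false {P : A → Prop} (h : ∀ p, ¬ P p) : cnt P = 0 := by
  simp [cnt, h]

theorem cnt_split (P Q : A → Prop) :
    cnt P = cnt (fun p => P p ∧ Q p) + cnt (fun p => P p ∧ ¬ Q p) := by
  unfold cnt
  rw [← sum_add_distrib]
  refine sum_congr rfl fun p _ => ?_
  by_cases hp : P p <;> by_cases hq : Q p <;> simp [hp, hq]

theorem cnt_congr {P Q : A → Prop} (h : ∀ p, P p ↔ Q p) : cnt P = cnt Q :=
  le_antisymm (cnt_mono fun p => (h p).1) (cnt_mono fun p => (h p).2)

end cnt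

theorem coarea {ι : Type} (t : Finset ι) (u v : ι → ℝ) : ∃ θ : ℝ, 1 / 9 ≤ θ ∧ θ ≤ 4 / 9 ∧
    ∑ i ∈ t, (if ¬ (θ < u i ↔ θ < v i) then (1 : ℝ) else 0) ≤ 3 * ∑ i ∈ t, |u i - v i| := by
  set f : ℝ → ℝ := fun θ => ∑ i ∈ t,
    (Set.Ico (min (u i) (v i)) (max (u i) (v i))).indicator (fun _ => (1 : ℝ)) θ with hf
  have hi : ∀ i, MeasureTheory.Integrable
      ((Set.Ico (min (u i) (v i)) (max (u i) (v i))).indicator (fun _ => (1 : ℝ))) := by
    intro i
    rw [MeasureTheory.integrable_indicator_iff measurableSet_Ico]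
    exact MeasureTheory.integrableOn_const (by simp)
  have hfi : MeasureTheory.Integrable f := MeasureTheory.integrable_finsetSum _ fun i _ => hi i
  obtain ⟨θ, hθ, h⟩ := MeasureTheory.exists_le_setAverage (μ := MeasureTheory.volume)
    (s := Set.Icc (1 / 9 : ℝ) (4 / 9)) (f := f) (by simp; norm_num) (by simp) hfi.integrableOn
  refine ⟨θ, hθ.1, hθ.2, ?_⟩
  have e1 : ∑ i ∈ t, (if ¬ (θ < u i ↔ θ < v i) then (1 : ℝ) else 0) = f θ := by
    refine sum_congr rfl fun i _ => ?_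
    rw [Set.indicator_apply]
    refine if_congr ?_ rfl rfl
    simp only [Set.mem_Ico, min_le_iff, lt_max_iff]
    constructor
    · intro h
      by_cases h1 : θ < u i <;> by_cases h2 : θ < v i <;> simp_all
    · rintro ⟨h1, h2⟩ h3
      rcases h1 with h1 | h1 <;> rcases h2 with h2 | h2
      · linarith
      · linarith [h3.2 h2]
      · linarith [h3.1 h2]
      · linarith
  rw [e1]
  refine h.trans ?_
  rw [MeasureTheory.setAverage_eq]
  have e2 : (MeasureTheory.volume : MeasureTheory.Measure ℝ).real (Set.Icc (1 / 9 : ℝ) (4 / 9)) =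
      1 / 3 := by
    rw [Real.volume_real_Icc]
    norm_num
  rw [e2, smul_eq_mul]
  have e3 : ∫ x in Set.Icc (1 / 9 : ℝ) (4 / 9), f x ≤ ∫ x, f x :=
    MeasureTheory.setIntegral_le_integral hfi (Filter.Eventually.of_forall fun x =>
      sum_nonneg fun i _ => Set.indicator_nonneg (fun _ _ => zero_le_one) _)
  have e4 : ∫ x, f x = ∑ i ∈ t, |u i - v i| := by
    rw [hf, MeasureTheory.integral_finsetSum _ fun i _ => hi i]
    refine sum_congr rfl fun i _ => ?_
    rw [MeasureTheory.integral_indicator_const _ measurableSet_Ico, Real.volume_real_Ico,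
      smul_eq_mul, mul_one, max_sub_min_eq_abs', max_eq_left (abs_nonneg _)]
  rw [e4] at e3
  norm_num
  linarith

variable {Λ : Type} [Group Λ]

section ops

variable {A : Type} [Fintype A]

/-- boundary of a set -/
noncomputable def bd (φ : Λ → Perm A) (S : Finset Λ) (V : Finset A) : ℝ :=
  ∑ s ∈ S, cnt (fun p => ¬ (φ s p ∈ V ↔ p ∈ V))

theorem bd_nonneg (φ : Λ → Perm A) (S : Finset Λ) (V : Finset A) : 0 ≤ bd φ S V :=
  sum_nonneg fun _ _ => cnt_nonneg _

/-- number of multiplicativity defects at a point -/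
noncomputable def dft (φ : Λ → Perm A) (W : Finset Λ) (p : A) : ℝ :=
  ∑ g ∈ W, ∑ h ∈ W, if φ g (φ h p) ≠ φ (g * h) p then 1 else 0

theorem dft_nonneg (φ : Λ → Perm A) (W : Finset Λ) (p : A) : 0 ≤ dft φ W p :=
  sum_nonneg fun _ _ => sum_nonneg fun _ _ => by split_ifs <;> norm_num

/-- permutation operator -/
noncomputable def pop (σ : Perm A) : EuclideanSpace ℂ A →ₗ[ℂ] EuclideanSpace ℂ A where
  toFun x := WithLp.toLp 2 (fun p => x (σ.symm p))
  map_add' x y := rfl
  map_smul' c x := rfl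

theorem pop_apply (σ : Perm A) (x : EuclideanSpace ℂ A) (p : A) : pop σ x p = x (σ.symm p) := rfl

theorem pop_inner (σ : Perm A) (x y : EuclideanSpace ℂ A) : ⟪pop σ x, pop σ y⟫_ℂ = ⟪x, y⟫_ℂ := by
  simp only [PiLp.inner_apply, pop_apply]
  exact Equiv.sum_comp σ.symm (fun p => ⟪x p, y p⟫_ℂ)

theorem pop_sub_sq (σ : Perm A) (x : EuclideanSpace ℂ A) :
    ‖pop σ x - x‖ ^ 2 = ∑ p, ‖x (σ p) - x p‖ ^ 2 := by
  rw [EuclideanSpace.norm_sq_eq, ← Equiv.sum_comp σ]
  refine sum_congr rfl fun p _ => ?_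
  rw [PiLp.sub_apply, pop_apply, Equiv.symm_apply_apply, norm_sub_rev]

/-- indicator vector -/
noncomputable def ind (T : Finset A) : EuclideanSpace ℂ A :=
  WithLp.toLp 2 (fun p => if p ∈ T then 1 else 0)

theorem ind_apply (T : Finset A) (p : A) : ind T p = if p ∈ T then 1 else 0 := rfl

theorem ind_sq (T : Finset A) : ‖ind T‖ ^ 2 = T.card := by
  rw [EuclideanSpace.norm_sq_eq, ← cnt_mem]
  refine sum_congr rfl fun p _ => ?_
  rw [ind_apply]
  split_ifs <;> simp

theorem ind_bd (σ : Perm A) (T : Finset A) :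
    ‖pop σ (ind T) - ind T‖ ^ 2 = cnt (fun p => ¬ (σ p ∈ T ↔ p ∈ T)) := by
  rw [pop_sub_sq]
  refine sum_congr rfl fun p _ => ?_
  rw [ind_apply, ind_apply]
  by_cases h1 : σ p ∈ T <;> by_cases h2 : p ∈ T <;> simp [h1, h2]

theorem ind_dft (σ τ : Perm A) (T : Finset A) :
    ‖pop σ (ind T) - pop τ (ind T)‖ ^ 2 ≤ 2 * cnt (fun p => p ∈ T ∧ σ p ≠ τ p) := by
  have e : ‖pop σ (ind T) - pop τ (ind T)‖ ^ 2 =
      cnt (fun p => ¬ (σ.symm p ∈ T ↔ τ.symm p ∈ T)) := by
    rw [EuclideanSpace.norm_sq_eq]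
    refine sum_congr rfl fun p _ => ?_
    rw [PiLp.sub_apply, pop_apply, pop_apply, ind_apply, ind_apply]
    by_cases h1 : σ.symm p ∈ T <;> by_cases h2 : τ.symm p ∈ T <;> simp [h1, h2]
  rw [e, two_mul]
  have h := cnt_or (P := fun p => ¬ (σ.symm p ∈ T ↔ τ.symm p ∈ T))
    (Q := fun p => σ.symm p ∈ T ∧ σ (σ.symm p) ≠ τ (σ.symm p))
    (R := fun p => τ.symm p ∈ T ∧ σ (τ.symm p) ≠ τ (τ.symm p)) (by
      intro p hp
      have hne : σ.symm p ≠ τ.symm p := fun h => hp (by rw [h])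
      by_cases h1 : σ.symm p ∈ T
      · refine Or.inl ⟨h1, fun h => hne ?_⟩
        rw [Equiv.apply_symm_apply] at h
        rw [Equiv.eq_symm_apply]
        exact h.symm
      · refine Or.inr ⟨by tauto, fun h => hne ?_⟩
        rw [Equiv.apply_symm_apply] at h
        rw [Equiv.symm_apply_eq]
        exact h.symm)
  rw [cnt_comp σ.symm (fun p => p ∈ T ∧ σ p ≠ τ p),
    cnt_comp τ.symm (fun p => p ∈ T ∧ σ p ≠ τ p)] at h
  exact h

theorem cnt_le_dft (φ : Λ → Perm A) (W : Finset Λ) (T : Finset A) {g h : Λ} (hg : g ∈ W)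
    (hh : h ∈ W) :
    cnt (fun p => p ∈ T ∧ (φ g * φ h) p ≠ φ (g * h) p) ≤ ∑ p ∈ T, dft φ W p := by
  have e : ∑ p ∈ T, dft φ W p = ∑ p, if p ∈ T then dft φ W p else 0 := by
    rw [sum_ite_mem, univ_inter]
  rw [e]
  refine sum_le_sum fun p _ => ?_
  by_cases hp : p ∈ T
  · simp only [hp, true_and, if_true, Perm.mul_apply]
    refine le_trans ?_ (single_le_sum (f := fun g => ∑ h ∈ W,
      if φ g (φ h p) ≠ φ (g * h) p then (1 : ℝ) else 0)
      (fun _ _ => sum_nonneg fun _ _ => by split_ifs <;> norm_num) hg)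
    refine le_trans (le_of_eq ?_) (single_le_sum (f := fun h =>
      if φ g (φ h p) ≠ φ (g * h) p then (1 : ℝ) else 0)
      (fun _ _ => by split_ifs <;> norm_num) hh)
    congr
  · simp [hp]

end ops

theorem sq_diff_le (u v : ℂ) (t : ℝ) (ht : 0 < t) :
    |‖u‖ ^ 2 - ‖v‖ ^ 2| ≤ (2 * t)⁻¹ * ‖u - v‖ ^ 2 + t * (‖u‖ ^ 2 + ‖v‖ ^ 2) := by
  have h1 := abs_norm_sub_norm_le u v
  have h2 : |‖u‖ ^ 2 - ‖v‖ ^ 2| ≤ ‖u - v‖ * (‖u‖ + ‖v‖) := by
    rw [sq_sub_sq, abs_mul, mul_comm, abs_of_nonneg (a := ‖u‖ + ‖v‖) (by positivity)]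
    gcongr
  refine h2.trans ?_
  set x := ‖u - v‖
  set y := ‖u‖
  set z := ‖v‖
  have h3 : x * (y + z) ≤ (2 * t)⁻¹ * x ^ 2 + t / 2 * (y + z) ^ 2 := by
    have e : (2 * t)⁻¹ * x ^ 2 + t / 2 * (y + z) ^ 2 - x * (y + z) =
        (2 * t)⁻¹ * (x - t * (y + z)) ^ 2 := by
      field_simp
      ring
    have : 0 ≤ (2 * t)⁻¹ * (x - t * (y + z)) ^ 2 := by positivity
    linarith
  nlinarith [mul_nonneg ht.le (sq_nonneg (y - z))]

/-- improvement of a set with small boundary -/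
theorem improve {S : Finset Λ} (hK : Kaz Λ S) : ∃ γ : ℝ, 0 < γ ∧ ∀ η : ℝ, 0 < η →
    ∃ (W : Finset Λ) (δ : ℝ), 0 < δ ∧ ∀ (A : Type) [Fintype A] (φ : Λ → Perm A), φ 1 = 1 →
      ∀ T : Finset A, T.Nonempty → ∑ p ∈ T, dft φ W p ≤ δ * T.card → bd φ S T ≤ γ * T.card →
      ∃ U : Finset A, 4 * cnt (fun p => ¬ (p ∈ U ↔ p ∈ T)) ≤ T.card ∧ bd φ S U ≤ η * T.card := by
  obtain ⟨K, hK0, hK⟩ := iso_gap' hK
  refine ⟨1 / (72 * (K + 1)), by positivity, fun η hη => ?_⟩
  set t : ℝ := η / (12 * (S.card + 1)) with ht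
  have ht0 : 0 < t := by positivity
  obtain ⟨I, _, _, γ, W, δ, hδ, h⟩ := hK (min (1 / 72) (η * t / 3)) (by positivity)
  refine ⟨W, δ / 2, by positivity, ?_⟩
  intro A _ φ hφ T hT hd hb
  have hc : (0 : ℝ) < T.card := by exact_mod_cast hT.card_pos
  obtain ⟨c1, c2⟩ := h (EuclideanSpace ℂ A) (fun g => pop (φ g)) (fun g => pop_inner _)
    (fun x => by rw [hφ]; rfl) (ind T) T.card hc (ind_sq T).le (by
      intro a ha g hg
      have h1 := ind_dft (φ a * φ g) (φ (a * g)) T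
      have h2 := cnt_le_dft φ W T ha hg
      have e : pop (φ a) (pop (φ g) (ind T)) = pop (φ a * φ g) (ind T) := rfl
      rw [e]
      linarith)
  set w := avg (fun i => pop (φ (γ i)) (ind T)) with hw
  have hw2 : ∑ p, ‖w p‖ ^ 2 ≤ T.card := by
    rw [← EuclideanSpace.norm_sq_eq, ← ind_sq]
    have := norm_avg_le (fun i => pop (φ (γ i)) (ind T)) ‖ind T‖ (fun i => by
      rw [@norm_eq_sqrt_re_inner ℂ, @norm_eq_sqrt_re_inner ℂ _ _ _ _ (ind T), pop_inner])
    gcongr
  obtain ⟨θ, h1, h2, h3⟩ := coarea (S ×ˢ (univ : Finset A))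
    (fun i => ‖w (φ i.1 i.2)‖ ^ 2) (fun i => ‖w i.2‖ ^ 2)
  refine ⟨univ.filter (fun p => θ < ‖w p‖ ^ 2), ?_, ?_⟩
  · have a1 : cnt (fun p => ¬ (p ∈ univ.filter (fun p => θ < ‖w p‖ ^ 2) ↔ p ∈ T)) ≤
        9 * ‖ind T - w‖ ^ 2 := by
      rw [EuclideanSpace.norm_sq_eq, mul_sum]
      refine sum_le_sum fun p _ => ?_
      rw [PiLp.sub_apply, ind_apply]
      have hn := norm_nonneg (w p)
      by_cases b1 : θ < ‖w p‖ ^ 2 <;> by_cases b2 : p ∈ T
      · simp [b1, b2]
      · simp only [mem_filter, mem_univ, b1, b2, and_self, iff_false, not_true_eq_false,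
          not_false_eq_true, if_true, if_false, zero_sub, norm_neg]
        linarith
      · simp only [mem_filter, mem_univ, b1, b2, and_false, iff_true, not_false_eq_true, if_true]
        have b3 : ‖w p‖ ≤ 2 / 3 := by nlinarith
        have b4 := norm_sub_norm_le (1 : ℂ) (w p)
        rw [norm_one] at b4
        nlinarith
      · simp [b1, b2]
    simp only [ind_bd] at c2
    have a2 : K * bd φ S T ≤ 1 / 72 * T.card := by
      calc K * bd φ S T ≤ (K + 1) * (1 / (72 * (K + 1)) * T.card) := by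
            gcongr
            · exact bd_nonneg _ _ _
            · linarith
        _ = _ := by field_simp
    have a3 : min (1 / 72) (η * t / 3) * (T.card : ℝ) ≤ 1 / 72 * T.card := by
      gcongr
      exact min_le_left _ _
    unfold bd at a2
    linarith
  · have a1 : bd φ S (univ.filter (fun p => θ < ‖w p‖ ^ 2)) =
        ∑ i ∈ S ×ˢ (univ : Finset A),
          (if ¬ (θ < ‖w (φ i.1 i.2)‖ ^ 2 ↔ θ < ‖w i.2‖ ^ 2) then (1 : ℝ) else 0) := by
      rw [sum_product]
      refine sum_congr rfl fun s _ => sum_congr rfl fun p _ => ?_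
      simp
    rw [a1]
    refine h3.trans ?_
    rw [sum_product]
    have a2 : ∀ s ∈ S, ∑ p, |‖w (φ s p)‖ ^ 2 - ‖w p‖ ^ 2| ≤
        (2 * t)⁻¹ * ‖pop (φ s) w - w‖ ^ 2 + 2 * t * T.card := by
      intro s _
      refine (sum_le_sum fun p _ => sq_diff_le _ _ t ht0).trans ?_
      rw [sum_add_distrib, ← mul_sum, ← mul_sum, sum_add_distrib, pop_sub_sq,
        Equiv.sum_comp (φ s) (fun p => ‖w p‖ ^ 2)]
      nlinarith
    have a3 := sum_le_sum a2
    rw [sum_add_distrib, ← mul_sum, sum_const, nsmul_eq_mul] at a3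
    have a4 : min (1 / 72) (η * t / 3) * (T.card : ℝ) ≤ η * t / 3 * T.card := by
      gcongr
      exact min_le_right _ _
    have a5 : (2 * t)⁻¹ * ∑ s ∈ S, ‖pop (φ s) w - w‖ ^ 2 ≤ η / 6 * T.card := by
      calc _ ≤ (2 * t)⁻¹ * (η * t / 3 * T.card) := by
            gcongr
            exact c1.trans a4
        _ = _ := by field_simp; ring
    have a6 : S.card * (2 * t * T.card) ≤ η / 6 * T.card := by
      calc S.card * (2 * t * T.card) ≤ (S.card + 1) * (2 * t * T.card) := by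
            gcongr
            linarith
        _ = _ := by rw [ht]; field_simp; ring
    simp only
    linarith

/-- partitions of `R` into expanding parts -/
def ExpOn {A : Type} [Fintype A] (φ : Λ → Perm A) (S : Finset Λ) (γ : ℝ) (R : Finset A)
    (part : A → Finset A) : Prop :=
  ∀ p ∈ R, p ∈ part p ∧ part p ⊆ R ∧ (∀ q ∈ part p, part q = part p) ∧
    ∀ V : Finset A, V ⊆ part p → 2 * V.card ≤ (part p).card → γ * V.card ≤ bd φ S V

theorem greedy {A : Type} [Fintype A] (φ : Λ → Perm A) (S : Finset Λ) {γ η κ : ℝ} (hγ : 0 ≤ γ)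
    (hη : 0 ≤ η) (hκ : 0 ≤ κ) (b : A → ℝ) (hb : ∀ p, 0 ≤ b p)
    (h : ∀ T : Finset A, bd φ S T < γ * T.card → ∃ U : Finset A,
      4 * cnt (fun p => ¬ (p ∈ U ↔ p ∈ T)) ≤ T.card ∧
      bd φ S U ≤ η * T.card + κ * ∑ p ∈ U ∩ T, b p) (R : Finset A) :
    ∃ part : A → Finset A, ExpOn φ S γ R part ∧
      ∑ s ∈ S, cnt (fun p => p ∈ R ∧ φ s p ∈ R ∧ part (φ s p) ≠ part p) ≤
        2 * η * R.card + κ * ∑ p ∈ R, b p := by
  induction R using Finset.strongInduction with
  | H R ih =>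
  by_cases hc : (R.powerset.filter (fun T => bd φ S T < γ * T.card)).Nonempty
  swap
  · refine ⟨fun _ => R, fun p hp => ⟨hp, subset_rfl, fun _ _ => rfl, fun V hV _ => ?_⟩, ?_⟩
    · by_contra hn
      exact hc ⟨V, mem_filter.mpr ⟨mem_powerset.mpr hV, not_le.mp hn⟩⟩
    · have : ∀ s ∈ S, cnt (fun p => p ∈ R ∧ φ s p ∈ R ∧ R ≠ R) = 0 :=
        fun s _ => cnt_false (by simp)
      rw [sum_congr rfl this, sum_const_zero]
      have := sum_nonneg (s := R) fun p _ => hb p
      positivity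
  obtain ⟨T, hT, hmin⟩ := exists_min_image _ Finset.card hc
  obtain ⟨hTR, hTb⟩ := mem_filter.mp hT
  rw [mem_powerset] at hTR
  obtain ⟨U, hU1, hU2⟩ := h T hTb
  have hT0 : (0 : ℝ) < T.card := by
    by_contra hn
    have : (T.card : ℝ) = 0 := le_antisymm (not_lt.mp hn) (by positivity)
    rw [this, mul_zero] at hTb
    linarith [bd_nonneg φ S T]
  set P := U ∩ R with hP
  have a1 : (T.card : ℝ) ≤ P.card + cnt (fun p => ¬ (p ∈ U ↔ p ∈ T)) := by
    rw [← cnt_mem, ← cnt_mem]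
    refine cnt_or fun p hp => ?_
    by_cases hu : p ∈ U
    · exact Or.inl (mem_inter.mpr ⟨hu, hTR hp⟩)
    · exact Or.inr (by tauto)
  have a2 : (P.card : ℝ) ≤ T.card + cnt (fun p => ¬ (p ∈ U ↔ p ∈ T)) := by
    rw [← cnt_mem, ← cnt_mem]
    refine cnt_or fun p hp => ?_
    have hu := (mem_inter.mp hp).1
    tauto
  have hP0 : P.Nonempty := by
    rw [← card_pos]
    have : (0 : ℝ) < P.card := by linarith
    exact_mod_cast this
  have hPR : P ⊆ R := inter_subset_right
  obtain ⟨part, hp1, hp2⟩ := ih (R \ P) (sdiff_ssubset hPR hP0)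
  refine ⟨fun p => if p ∈ P then P else part p, fun p hp => ?_, ?_⟩
  · by_cases hpP : p ∈ P
    · simp only [hpP, if_true]
      refine ⟨trivial, hPR, fun q hq => by simp [hq], fun V hV hV2 => ?_⟩
      by_contra hn
      have b1 := hmin V (mem_filter.mpr ⟨mem_powerset.mpr (hV.trans hPR), not_le.mp hn⟩)
      have b2 : (T.card : ℝ) ≤ V.card := by exact_mod_cast b1
      have b3 : (2 : ℝ) * V.card ≤ P.card := by exact_mod_cast hV2
      linarith
    · simp only [hpP, if_false]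
      obtain ⟨b1, b2, b3, b4⟩ := hp1 p (mem_sdiff.mpr ⟨hp, hpP⟩)
      refine ⟨b1, b2.trans sdiff_subset, fun q hq => ?_, b4⟩
      have := (mem_sdiff.mp (b2 hq)).2
      simp only [this, if_false]
      exact b3 q hq
  · have b1 : ∀ s ∈ S, cnt (fun p => p ∈ R ∧ φ s p ∈ R ∧
        (if φ s p ∈ P then P else part (φ s p)) ≠ (if p ∈ P then P else part p)) ≤
        cnt (fun p => p ∈ R \ P ∧ φ s p ∈ R \ P ∧ part (φ s p) ≠ part p) +
          cnt (fun p => ¬ (φ s p ∈ U ↔ p ∈ U)) := by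
      intro s _
      refine cnt_or fun p ⟨h1, h2, h3⟩ => ?_
      by_cases c1 : φ s p ∈ P <;> by_cases c2 : p ∈ P
      · simp [c1, c2] at h3
      · right
        rw [hP, mem_inter] at c1 c2
        tauto
      · right
        rw [hP, mem_inter] at c1 c2
        tauto
      · left
        simp only [c1, c2, if_false] at h3
        exact ⟨mem_sdiff.mpr ⟨h1, c2⟩, mem_sdiff.mpr ⟨h2, c1⟩, h3⟩
    refine (sum_le_sum b1).trans ?_
    rw [sum_add_distrib]
    have b2 : ((R \ P).card : ℝ) + P.card = R.card := by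
      exact_mod_cast card_sdiff_add_card_eq_card hPR
    have b3 := sum_sdiff (f := b) hPR
    have b4 : ∑ p ∈ U ∩ T, b p ≤ ∑ p ∈ P, b p :=
      sum_le_sum_of_subset_of_nonneg (inter_subset_inter_left hTR) fun p _ _ => hb p
    have b5 : η * T.card ≤ η * (2 * P.card) := by
      gcongr
      linarith
    have b6 : κ * ∑ p ∈ U ∩ T, b p ≤ κ * ∑ p ∈ P, b p := by gcongr
    unfold bd at hU2
    rw [← b2, ← b3]
    linarith

/-- decomposition into expanding parts -/
theorem decomp {S : Finset Λ} (hK : Kaz Λ S) : ∃ γ : ℝ, 0 < γ ∧ ∀ η : ℝ, 0 < η →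
    ∃ (W : Finset Λ) (δ : ℝ), 0 < δ ∧ ∀ (A : Type) [Fintype A] (φ : Λ → Perm A), φ 1 = 1 →
      ∑ p, dft φ W p ≤ δ * Fintype.card A →
      ∃ part : A → Finset A, ExpOn φ S γ univ part ∧
        ∑ s ∈ S, cnt (fun p => part (φ s p) ≠ part p) ≤ η * Fintype.card A := by
  obtain ⟨γ, hγ, h⟩ := improve hK
  refine ⟨γ, hγ, fun η hη => ?_⟩
  obtain ⟨W, δ, hδ, h⟩ := h (η / 4) (by positivity)
  refine ⟨W, η / 2 * δ / γ, by positivity, ?_⟩
  intro A _ φ hφ hd
  obtain ⟨part, h1, h2⟩ := greedy φ S (η := η / 4) (κ := γ / δ) hγ.le (by positivity)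
    (by positivity) (dft φ W) (dft_nonneg φ W) (by
      intro T hT
      have hT0 : T.Nonempty := by
        rw [nonempty_iff_ne_empty]
        rintro rfl
        have := bd_nonneg φ S (∅ : Finset A)
        simp only [card_empty, Nat.cast_zero, mul_zero] at hT
        linarith
      by_cases hg : ∑ p ∈ T, dft φ W p ≤ δ * T.card
      · obtain ⟨U, u1, u2⟩ := h A φ hφ T hT0 hg hT.le
        refine ⟨U, u1, u2.trans (le_add_of_nonneg_right ?_)⟩
        have := sum_nonneg (s := U ∩ T) fun p _ => dft_nonneg φ W p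
        positivity
      · refine ⟨T, ?_, ?_⟩
        · rw [cnt_false (by simp)]
          simp
        · rw [inter_self]
          have : γ * T.card ≤ γ / δ * ∑ p ∈ T, dft φ W p := by
            calc γ * T.card = γ / δ * (δ * T.card) := by field_simp
              _ ≤ _ := by
                gcongr
                exact (not_le.mp hg).le
          have : 0 ≤ η / 4 * T.card := by positivity
          linarith) univ
  refine ⟨part, h1, ?_⟩
  simp only [mem_univ, true_and, card_univ] at h2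
  refine h2.trans ?_
  have : γ / δ * ∑ p, dft φ W p ≤ η / 2 * Fintype.card A := by
    calc _ ≤ γ / δ * (η / 2 * δ / γ * Fintype.card A) := by gcongr
      _ = _ := by field_simp
  linarith

end Pool.Agent.H515Z.NS
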