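import Mathlib

set_option autoImplicit false

/-!
Sofic actions on sets.
-/

namespace Pool.Agent.H515Z.NS

open scoped Classical

/-- normalized Hamming distance -/
noncomputable def ham {A : Type} [Fintype A] (σ τ : Equiv.Perm A) : ℝ :=
  ((Finset.univ.filter fun a => σ a ≠ τ a).card : ℝ) / Fintype.card A

/-- `φ` is an `(F, E, ε)`-orbit approximation of the action `α` -/
def OrbitApprox {G X A : Type} [Group G] [Fintype A] (α : G →* Equiv.Perm X)
    (φ : G → Equiv.Perm A) (F : Finset G) (E : Finset X) (ε : ℝ) : Prop :=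
  ∃ (B : Type) (_ : Finite B) (S : Finset A) (π : S → E → B),
    (1 - ε) * Fintype.card A < S.card ∧ (∀ s, Function.Injective (π s)) ∧
    ∀ (s : S) (g : G), g ∈ F → ∀ (x : E) (hs : φ g s ∈ S) (hx : α g⁻¹ x ∈ E),
      π ⟨φ g s, hs⟩ x = π s ⟨α g⁻¹ x, hx⟩

/-- the action `α` is sofic -/
def SoficAction {G X : Type} [Group G] (α : G →* Equiv.Perm X) : Prop :=
  ∀ (F : Finset G) (E : Finset X) (ε : ℝ), 0 < ε →
    ∃ (A : Type) (_ : Fintype A) (φ : G → Equiv.Perm A), φ 1 = 1 ∧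
      (∀ g ∈ F, ∀ h ∈ F, ham (φ (g * h)) (φ g * φ h) < ε) ∧ OrbitApprox α φ F E ε

end Pool.Agent.H515Z.NS
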