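import Mathlib
import Pool.Agent.H515Z.NSDec
import Pool.Agent.H515Z.NSDefs

set_option autoImplicit false
set_option linter.unusedSectionVars false
set_option linter.unusedVariables false

/-!
A criterion for an action to be non-sofic.
-/

namespace Pool.Agent.H515Z.NS

open Finset Equiv Filter
open scoped Classical
open Pool.Agent.H304Z.NH

section fin

variable {A : Type} [Fintype A]

/-- partitions given by the part of each point -/
def IsPart (part : A → Finset A) : Prop := ∀ p, p ∈ part p ∧ ∀ q ∈ part p, part q = part p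

theorem IsPart.card_pos {part : A → Finset A} (h : IsPart part) (p : A) :
    (0 : ℝ) < (part p).card := by
  exact_mod_cast Finset.card_pos.mpr ⟨p, (h p).1⟩

theorem IsPart.sum_one {part : A → Finset A} (h : IsPart part) (q : A) :
    ∑ p, (if q ∈ part p then (1 : ℝ) else 0) / (part p).card = 1 := by
  have e : ∀ p, (if q ∈ part p then (1 : ℝ) else 0) / (part p).card =
      (if p ∈ part q then (1 : ℝ) else 0) / (part q).card := by
    intro p
    by_cases h1 : q ∈ part p
    · have h2 := (h p).2 q h1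
      rw [h2, if_pos h1, if_pos (h p).1]
    · have h2 : p ∉ part q := fun h3 => h1 (by rw [(h q).2 p h3]; exact (h q).1)
      rw [if_neg h1, if_neg h2, zero_div, zero_div]
  rw [sum_congr rfl fun p _ => e p, ← sum_div]
  have : (∑ p, if p ∈ part q then (1 : ℝ) else 0) = (part q).card := by simp
  rw [this, div_self (h.card_pos q).ne']

theorem IsPart.sum_cnt {part : A → Finset A} (h : IsPart part) (σ : Perm A) (D : A → Prop) :
    ∑ p, cnt (fun q => σ q ∈ part p ∧ D q) / (part p).card = cnt D := by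
  unfold cnt
  simp only [sum_div]
  rw [sum_comm]
  refine sum_congr rfl fun q _ => ?_
  by_cases hq : D q
  · rw [if_pos hq]
    refine Eq.trans (sum_congr rfl fun p _ => ?_) (h.sum_one (σ q))
    simp [hq]
  · simp [hq]

theorem IsPart.dens {part : A → Finset A} (h : IsPart part) (D : A → Prop) :
    cnt (fun p => ¬ 4 * cnt (fun q => q ∈ part p ∧ D q) ≤ (part p).card) ≤ 4 * cnt D := by
  rw [← h.sum_cnt 1 D, mul_sum]
  refine sum_le_sum fun p _ => ?_
  have hp := h.card_pos p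
  have h0 := cnt_nonneg (fun q => (1 : Perm A) q ∈ part p ∧ D q)
  split_ifs with h1
  · rw [← mul_div_assoc, le_div_iff₀ hp]
    simp only [Perm.one_apply]
    linarith [not_le.mp h1]
  · positivity

/-- the points of the part of `p` with the label of `p` -/
noncomputable def cls {β : Type} (part : A → Finset A) (c : A → β) (p : A) : Finset A :=
  (part p).filter (fun q => c q = c p)

theorem mem_cls {β : Type} {part : A → Finset A} {c : A → β} {p q : A} :
    q ∈ cls part c p ↔ q ∈ part p ∧ c q = c p := mem_filter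

theorem cls_part {β : Type} {part : A → Finset A} (h : IsPart part) (c : A → β) :
    IsPart (cls part c) := by
  intro p
  refine ⟨mem_filter.mpr ⟨(h p).1, rfl⟩, fun q hq => ?_⟩
  obtain ⟨h1, h2⟩ := mem_filter.mp hq
  unfold cls
  rw [(h p).2 q h1, h2]

theorem const_bound {Λ β : Type} [Group Λ] {φ : Λ → Perm A} {S : Finset Λ} {γ : ℝ}
    {part : A → Finset A} (h : ExpOn φ S γ univ part) (c : A → β) :
    γ * cnt (fun p => 2 * (cls part c p).card ≤ (part p).card) ≤
      2 * ∑ s ∈ S, (cnt (fun p => part (φ s p) ≠ part p) + cnt (fun p => c (φ s p) ≠ c p)) := by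
  have hp : IsPart part := fun p => ⟨(h p (mem_univ p)).1, (h p (mem_univ p)).2.2.1⟩
  have hc := cls_part hp c
  have a1 : γ * cnt (fun p => 2 * (cls part c p).card ≤ (part p).card) ≤
      ∑ p, bd φ S (cls part c p) / (cls part c p).card := by
    unfold cnt
    rw [mul_sum]
    refine sum_le_sum fun p _ => ?_
    have h0 := hc.card_pos p
    have h1 := bd_nonneg φ S (cls part c p)
    split_ifs with h2
    · rw [mul_one, le_div_iff₀ h0]
      exact (h p (mem_univ p)).2.2.2 _ (filter_subset _ _) h2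
    · rw [mul_zero]
      positivity
  refine a1.trans ?_
  unfold bd
  simp only [sum_div]
  rw [sum_comm, mul_sum]
  refine sum_le_sum fun s _ => ?_
  have a2 : cnt (fun q => cls part c (φ s q) ≠ cls part c q) ≤
      cnt (fun p => part (φ s p) ≠ part p) + cnt (fun p => c (φ s p) ≠ c p) := by
    refine cnt_or fun q hq => ?_
    by_contra hn
    push Not at hn
    apply hq
    unfold cls
    rw [hn.1, hn.2]
  have a3 : ∀ p, cnt (fun q => ¬ (φ s q ∈ cls part c p ↔ q ∈ cls part c p)) ≤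
      cnt (fun q => φ s q ∈ cls part c p ∧ cls part c (φ s q) ≠ cls part c q) +
      cnt (fun q => (1 : Perm A) q ∈ cls part c p ∧ cls part c (φ s q) ≠ cls part c q) := by
    intro p
    refine cnt_or fun q hq => ?_
    by_cases b1 : φ s q ∈ cls part c p
    · refine Or.inl ⟨b1, fun b2 => hq ⟨fun _ => ?_, fun _ => b1⟩⟩
      rw [← (hc p).2 _ b1, b2]
      exact (hc q).1
    · have b3 : q ∈ cls part c p := by tauto
      refine Or.inr ⟨b3, fun b2 => b1 ?_⟩
      rw [← (hc p).2 _ b3, ← b2]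
      exact (hc _).1
  calc _ ≤ ∑ p, (cnt (fun q => φ s q ∈ cls part c p ∧ cls part c (φ s q) ≠ cls part c q) /
          (cls part c p).card + cnt (fun q => (1 : Perm A) q ∈ cls part c p ∧
            cls part c (φ s q) ≠ cls part c q) / (cls part c p).card) := by
        refine sum_le_sum fun p _ => ?_
        rw [← add_div]
        gcongr
        exact a3 p
    _ = 2 * cnt (fun q => cls part c (φ s q) ≠ cls part c q) := by
        rw [sum_add_distrib, hc.sum_cnt, hc.sum_cnt, two_mul]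
    _ ≤ _ := by linarith

theorem cnt_shift (σ : Perm A) (Z₁ Z₂ : A → Prop) (h : ∀ p, Z₁ p → Z₂ p) :
    cnt (fun p => Z₂ p ∧ ¬ Z₁ p) ≤ cnt (fun p => ¬ (Z₂ p → Z₁ (σ p))) := by
  have a1 := cnt_split Z₂ Z₁
  have a2 : cnt (fun p => Z₂ p ∧ Z₁ p) = cnt Z₁ := cnt_congr fun p => ⟨fun h => h.2, fun h' => ⟨h p h', h'⟩⟩
  have a3 : cnt Z₂ ≤ cnt (fun p => Z₁ (σ p)) + cnt (fun p => ¬ (Z₂ p → Z₁ (σ p))) :=
    cnt_or fun p hp => by tauto
  rw [cnt_comp] at a3
  linarith

theorem cnt_inv (σ : Perm A) (Z : A → Prop) :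
    cnt (fun p => ¬ (Z (σ p) → Z p)) ≤ cnt (fun p => ¬ (Z p → Z (σ p))) := by
  have a1 := cnt_split Z (fun p => Z (σ p))
  have a2 := cnt_split (fun p => Z (σ p)) Z
  rw [cnt_comp] at a2
  have a3 : cnt (fun p => Z p ∧ Z (σ p)) = cnt (fun p => Z (σ p) ∧ Z p) :=
    cnt_congr fun p => and_comm
  have a4 : cnt (fun p => ¬ (Z (σ p) → Z p)) = cnt (fun p => Z (σ p) ∧ ¬ Z p) :=
    cnt_congr fun p => by tauto
  have a5 : cnt (fun p => ¬ (Z p → Z (σ p))) = cnt (fun p => Z p ∧ ¬ Z (σ p)) :=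
    cnt_congr fun p => by tauto
  linarith

theorem grow_fin {β : Type} {part : A → Finset A} (h : IsPart part) (σ τ : Perm A) (c : A → β)
    (p : A) (Gd : A → Prop)
    (h1 : 4 * cnt (fun q => q ∈ part p ∧ ¬ Gd q) ≤ (part p).card)
    (h2 : ∀ q ∈ part p, Gd q → σ q ∈ part (σ p) ∧ τ (σ q) ∈ part (σ p) ∧ c (σ q) = c (σ p) ∧
      c (τ (σ q)) ≠ c (σ p)) : (part p).card < (part (σ p)).card := by
  have a1 := cnt_split (fun q => q ∈ part p) Gd
  have a2 := cnt_split (fun q => q ∈ part (σ p)) (fun q => c q = c (σ p))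
  rw [cnt_mem] at a1 a2
  have a3 : cnt (fun q => q ∈ part p ∧ Gd q) ≤ cnt (fun q => q ∈ part (σ p) ∧ c q = c (σ p)) := by
    rw [← cnt_comp σ (fun q => q ∈ part (σ p) ∧ c q = c (σ p))]
    exact cnt_mono fun q hq => ⟨(h2 q hq.1 hq.2).1, (h2 q hq.1 hq.2).2.2.1⟩
  have a4 : cnt (fun q => q ∈ part p ∧ Gd q) ≤
      cnt (fun q => q ∈ part (σ p) ∧ ¬ c q = c (σ p)) := by
    rw [← cnt_comp (τ * σ) (fun q => q ∈ part (σ p) ∧ ¬ c q = c (σ p))]
    exact cnt_mono fun q hq => ⟨(h2 q hq.1 hq.2).2.1, (h2 q hq.1 hq.2).2.2.2⟩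
  have a5 := h.card_pos p
  have : ((part p).card : ℝ) < (part (σ p)).card := by linarith
  exact_mod_cast this

end fin

section ae

variable {J : Type} (l : Filter J) {A : J → Type} [∀ j, Fintype (A j)]

/-- asymptotically almost all points have the property -/
def AE (P : ∀ j, A j → Prop) : Prop :=
  ∀ ε : ℝ, 0 < ε → ∀ᶠ j in l, cnt (fun p => ¬ P j p) ≤ ε * Fintype.card (A j)

variable {l}

theorem AE.of_le {P Q : ∀ j, A j → Prop} (h : AE l P) (C : ℝ) (hC : 0 < C)
    (hPQ : ∀ j, cnt (fun p => ¬ Q j p) ≤ C * cnt (fun p => ¬ P j p)) : AE l Q := by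
  intro ε hε
  filter_upwards [h (ε / C) (by positivity)] with j hj
  calc _ ≤ C * (ε / C * Fintype.card (A j)) := (hPQ j).trans (by gcongr)
    _ = _ := by field_simp

theorem AE.mono {P Q : ∀ j, A j → Prop} (h : AE l P) (hPQ : ∀ j p, P j p → Q j p) : AE l Q :=
  h.of_le 1 one_pos fun j => by
    rw [one_mul]
    exact cnt_mono fun p hq hp => hq (hPQ j p hp)

theorem AE.and {P Q : ∀ j, A j → Prop} (h : AE l P) (h' : AE l Q) :
    AE l (fun j p => P j p ∧ Q j p) := by
  intro ε hε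
  filter_upwards [h (ε / 2) (by positivity), h' (ε / 2) (by positivity)] with j h1 h2
  have := cnt_or (P := fun p => ¬ (P j p ∧ Q j p)) (Q := fun p => ¬ P j p)
    (R := fun p => ¬ Q j p) (fun p hp => by tauto)
  linarith

theorem AE.comp {P : ∀ j, A j → Prop} (h : AE l P) (σ : ∀ j, Perm (A j)) :
    AE l (fun j p => P j (σ j p)) :=
  h.of_le 1 one_pos fun j => by
    rw [one_mul]
    exact (cnt_comp (σ j) (fun p => ¬ P j p)).le

theorem AE.all {P : ∀ j, A j → Prop} (h : ∀ j p, P j p) : AE l P := by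
  intro ε hε
  refine Eventually.of_forall fun j => ?_
  rw [cnt_false (fun p hp => hp (h j p))]
  positivity

theorem AE.sum {ι : Type} (t : Finset ι) {P : ι → ∀ j, A j → Prop} (h : ∀ i ∈ t, AE l (P i))
    (ε : ℝ) (hε : 0 < ε) :
    ∀ᶠ j in l, ∑ i ∈ t, cnt (fun p => ¬ P i j p) ≤ ε * Fintype.card (A j) := by
  have h1 := (eventually_all_finset t).mpr fun i hi => h i hi (ε / (t.card + 1)) (by positivity)
  filter_upwards [h1] with j hj
  refine (sum_le_sum hj).trans ?_
  rw [sum_const, nsmul_eq_mul]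
  calc (t.card : ℝ) * (ε / (t.card + 1) * Fintype.card (A j)) ≤
        (t.card + 1) * (ε / (t.card + 1) * Fintype.card (A j)) := by
        gcongr
        linarith
    _ = _ := by field_simp

theorem AE.not_false [l.NeBot] (hne : ∀ j, 0 < Fintype.card (A j)) :
    ¬ AE l (fun j (_ : A j) => False) := by
  intro h
  obtain ⟨j, hj⟩ := (h (1 / 2) (by norm_num)).exists
  have e : cnt (fun _ : A j => ¬ False) = Fintype.card (A j) := by
    rw [← cnt_true]
    exact cnt_congr fun _ => by simp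
  have : (0 : ℝ) < Fintype.card (A j) := by exact_mod_cast hne j
  have hj' := e.symm.trans_le hj
  linarith

variable {G : Type} [Group G]

theorem ae_gen {β : J → Type} (φ : ∀ j, G → Perm (A j)) (h1 : ∀ j, φ j 1 = 1)
    (hm : ∀ g h, AE l (fun j p => φ j (g * h) p = φ j g (φ j h p))) (c : ∀ j, A j → β j)
    (T : Set G) (hT : ∀ s ∈ T, AE l (fun j p => c j (φ j s p) = c j p)) (g : G)
    (hg : g ∈ Subgroup.closure T) : AE l (fun j p => c j (φ j g p) = c j p) := by
  induction hg using Subgroup.closure_induction with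
  | mem x hx => exact hT x hx
  | one => exact AE.all fun j p => by rw [h1]; rfl
  | mul x y _ _ hx hy =>
    exact ((hm x y).and ((hx.comp fun j => φ j y).and hy)).mono fun j p ⟨a, b, d⟩ => by
      rw [a, b, d]
  | inv x _ hx =>
    exact ((hm x x⁻¹).and (hx.comp fun j => φ j x⁻¹)).mono fun j p ⟨a, b⟩ => by
      rw [← b, ← a, mul_inv_cancel, h1]
      rfl

/-- no function grows along both positive generators -/
theorem no_growth [l.NeBot] (hne : ∀ j, 0 < Fintype.card (A j)) (φ : ∀ j, G → Perm (A j))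
    (h1 : ∀ j, φ j 1 = 1)
    (hm : ∀ g h, AE l (fun j p => φ j (g * h) p = φ j g (φ j h p))) (a b ρ : G)
    (hρ : ρ ∈ Subgroup.closure ({a, b} : Set G)) (ha : b * ρ * a = ρ) (hb : a * ρ * b = ρ)
    (h4 : ρ * ρ * ρ * ρ = 1) (f : ∀ j, A j → ℕ)
    (fa : AE l (fun j p => f j p < f j (φ j a p))) (fb : AE l (fun j p => f j p < f j (φ j b p))) :
    False := by
  set D : ∀ j, A j → ℤ := fun j p => (f j p : ℤ) - f j (φ j ρ p) with hD
  have key : ∀ r r' : G, r' * ρ * r = ρ → AE l (fun j p => f j p < f j (φ j r p)) →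
      AE l (fun j p => f j p < f j (φ j r' p)) → AE l (fun j p => D j p < D j (φ j r p)) := by
    intro r r' e g1 g2
    refine ((hm (r' * ρ) r).and (((hm r' ρ).comp fun j => φ j r).and
      (g1.and ((g2.comp fun j => φ j ρ).comp fun j => φ j r)))).mono fun j p ⟨b1, b2, b3, b4⟩ => ?_
    rw [e, b2] at b1
    simp only [hD]
    rw [b1]
    omega
  have da := key a b ha fa fb
  have db := key b a hb fb fa
  have d0 : AE l (fun j p => D j p ≠ 0) := by
    refine (da.mono (Q := fun j p => 0 ≤ D j p → 0 < D j (φ j a p))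
      fun j p h h' => by omega).of_le 1 one_pos fun j => ?_
    rw [one_mul]
    refine le_trans (cnt_mono fun p hp => ?_)
      (cnt_shift (φ j a) (fun p => 0 < D j p) (fun p => 0 ≤ D j p) fun p h => h.le)
    omega
  have inv : ∀ r : G, AE l (fun j p => D j p < D j (φ j r p)) →
      AE l (fun j p => (0 < D j (φ j r p)) = (0 < D j p)) := by
    intro r h
    have i1 := h.mono (Q := fun j p => 0 < D j p → 0 < D j (φ j r p)) fun j p h h' => by omega
    have i2 : AE l (fun j p => 0 < D j (φ j r p) → 0 < D j p) :=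
      i1.of_le 1 one_pos fun j => by
        rw [one_mul]
        exact cnt_inv (φ j r) (fun p => 0 < D j p)
    exact (i1.and i2).mono fun j p h => propext ⟨h.2, h.1⟩
  have iρ := ae_gen (β := fun _ => Prop) φ h1 hm (fun j p => 0 < D j p) {a, b} (by
    rintro s (rfl | rfl)
    · exact inv _ da
    · exact inv _ db) ρ hρ
  have m4 : AE l (fun j p => φ j ρ (φ j ρ (φ j ρ (φ j ρ p))) = p) := by
    refine ((hm (ρ * ρ * ρ) ρ).and (((hm (ρ * ρ) ρ).comp fun j => φ j ρ).and
      (((hm ρ ρ).comp fun j => φ j ρ).comp fun j => φ j ρ))).mono fun j p ⟨b1, b2, b3⟩ => ?_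
    rw [← b3, ← b2, ← b1, h4, h1]
    rfl
  have s1 := iρ.and d0
  have s2 := s1.comp fun j => φ j ρ
  have s3 := s2.comp fun j => φ j ρ
  have s4 := s3.comp fun j => φ j ρ
  refine AE.not_false hne ((m4.and (s1.and (s2.and (s3.and s4)))).mono
    fun j p ⟨b0, ⟨b1, c1⟩, ⟨b2, c2⟩, ⟨b3, c3⟩, ⟨b4, c4⟩⟩ => ?_)
  simp only [hD, eq_iff_iff, b0] at b1 c1 b2 c2 b3 c3 b4 c4
  omega

theorem exists_part {Λ : Type} [Group Λ] {S : Finset Λ} (hK : Kaz Λ S)
    (ψ : ∀ j, Λ → Perm (A j)) (h1 : ∀ j, ψ j 1 = 1)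
    (hm : ∀ g h, AE l (fun j p => ψ j (g * h) p = ψ j g (ψ j h p))) :
    ∃ part : ∀ j, A j → Finset (A j), (∀ j, IsPart (part j)) ∧
      (∀ s ∈ S, AE l (fun j p => part j (ψ j s p) = part j p)) ∧
      ∀ (β : Type) (c : ∀ j, A j → β), (∀ s ∈ S, AE l (fun j p => c j (ψ j s p) = c j p)) →
        AE l (fun j p => (part j p).card < 2 * (cls (part j) (c j) p).card) := by
  obtain ⟨γ, hγ, hd⟩ := decomp hK
  have ex : ∀ j, ∃ part : A j → Finset (A j), ExpOn (ψ j) S γ univ part ∧
      ∀ part' : A j → Finset (A j), ExpOn (ψ j) S γ univ part' →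
        ∑ s ∈ S, cnt (fun p => part (ψ j s p) ≠ part p) ≤
          ∑ s ∈ S, cnt (fun p => part' (ψ j s p) ≠ part' p) := by
    intro j
    obtain ⟨part, hp, hmin⟩ := exists_min_image
      (univ.filter fun part : A j → Finset (A j) => ExpOn (ψ j) S γ univ part)
      (fun part => ∑ s ∈ S, cnt (fun p => part (ψ j s p) ≠ part p))
      ⟨fun p => {p}, mem_filter.mpr ⟨mem_univ _, fun p _ => ⟨mem_singleton_self _, subset_univ _,
        fun q hq => by rw [mem_singleton.mp hq], fun V _ hV => by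
          rw [card_singleton] at hV
          have : V.card = 0 := by omega
          rw [this, Nat.cast_zero, mul_zero]
          exact bd_nonneg _ _ _⟩⟩⟩
    exact ⟨part, (mem_filter.mp hp).2, fun part' h' =>
      hmin part' (mem_filter.mpr ⟨mem_univ _, h'⟩)⟩
  choose part hp hmin using ex
  have cut : ∀ ε : ℝ, 0 < ε → ∀ᶠ j in l,
      ∑ s ∈ S, cnt (fun p => part j (ψ j s p) ≠ part j p) ≤ ε * Fintype.card (A j) := by
    intro ε hε
    obtain ⟨W, δ, hδ, hd⟩ := hd ε hε
    filter_upwards [AE.sum (W ×ˢ W) (P := fun i j p => ψ j (i.1 * i.2) p = ψ j i.1 (ψ j i.2 p))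
      (fun i _ => hm i.1 i.2) δ hδ] with j hj
    obtain ⟨part', q1, q2⟩ := hd (A j) (ψ j) (h1 j) (by
      refine le_of_eq_of_le ?_ hj
      rw [sum_product]
      unfold dft cnt
      rw [sum_comm]
      refine sum_congr rfl fun g _ => ?_
      rw [sum_comm]
      refine sum_congr rfl fun h _ => sum_congr rfl fun p _ => ?_
      by_cases hq : ψ j (g * h) p = ψ j g (ψ j h p)
      · simp [hq]
      · simp [hq, Ne.symm hq])
    exact (hmin j part' q1).trans q2
  refine ⟨part, fun j p => ⟨(hp j p (mem_univ p)).1, (hp j p (mem_univ p)).2.2.1⟩, ?_, ?_⟩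
  · intro s hs ε hε
    filter_upwards [cut ε hε] with j hj
    exact (single_le_sum (f := fun s => cnt (fun p => part j (ψ j s p) ≠ part j p))
      (fun _ _ => cnt_nonneg _) hs).trans hj
  · intro β c hc ε hε
    filter_upwards [cut (γ * ε / 4) (by positivity),
      AE.sum S hc (γ * ε / 4) (by positivity)] with j j1 j2
    have b1 := const_bound (hp j) (c j)
    rw [sum_add_distrib] at b1
    have b2 : cnt (fun p => ¬ (part j p).card < 2 * (cls (part j) (c j) p).card) =
        cnt (fun p => 2 * (cls (part j) (c j) p).card ≤ (part j p).card) :=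
      cnt_congr fun p => not_lt
    rw [b2]
    refine le_of_mul_le_mul_left ?_ hγ
    simp only [ne_eq] at b1 j1
    linarith

theorem grow {Λ Y : Type} [Group Λ] {S : Finset Λ} (hS : Subgroup.closure (S : Set Λ) = ⊤)
    (ι : Λ →* G) (φ : ∀ j, G → Perm (A j)) (h1 : ∀ j, φ j 1 = 1)
    (hm : ∀ g h, AE l (fun j p => φ j (g * h) p = φ j g (φ j h p)))
    (part : ∀ j, A j → Finset (A j)) (hp : ∀ j, IsPart (part j))
    (hs : ∀ s ∈ S, AE l (fun j p => part j (φ j (ι s) p) = part j p))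
    (hc : ∀ (β : Type) (c : ∀ j, A j → β), (∀ s ∈ S, AE l (fun j p => c j (φ j (ι s) p) = c j p)) →
        AE l (fun j p => (part j p).card < 2 * (cls (part j) (c j) p).card))
    (α : G →* Perm Y) (π : ∀ j, A j → Y → ℕ)
    (πe : ∀ g y, AE l (fun j p => π j (φ j g p) y = π j p (α g⁻¹ y)))
    (πi : ∀ y y', y ≠ y' → AE l (fun j p => π j p y ≠ π j p y'))
    (y₀ : Y) (hy : ∀ x, α (ι x) y₀ = y₀) (r : G) (hr : ∀ s ∈ S, ∃ x, r * ι s = ι x * r)
    (x₀ : Λ) (hx : α (ι x₀) (α r y₀) ≠ α r y₀) :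
    AE l (fun j p => (part j p).card < (part j (φ j r p)).card) := by
  have hall : ∀ x, AE l (fun j p => part j (φ j (ι x) p) = part j p) := fun x =>
    ae_gen (fun j x => φ j (ι x)) (fun j => by simp only [map_one, h1])
      (fun g h => by simpa only [map_mul] using hm (ι g) (ι h)) part S hs x (by rw [hS]; trivial)
  have code : ∀ j, ∃ e : Finset (A j) → ℕ, Function.Injective e := fun j =>
    Countable.exists_injective_nat _
  choose e he using code
  have c1 := hc (ℕ × ℕ) (fun j q => (e j (part j (φ j r q)), π j (φ j r q) (α r y₀))) (by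
    intro s hs'
    obtain ⟨x, hx⟩ := hr s hs'
    refine ((hm r (ι s)).and ((hm (ι x) r).and (((hall x).comp fun j => φ j r).and
      ((πe (r * ι s) (α r y₀)).and (πe r (α r y₀)))))).mono fun j p ⟨b1, b2, b3, b4, b5⟩ => ?_
    have e1 : α (r * ι s)⁻¹ (α r y₀) = y₀ := by
      rw [← Perm.mul_apply, ← map_mul, mul_inv_rev, inv_mul_cancel_right, ← map_inv, hy]
    have e2 : α r⁻¹ (α r y₀) = y₀ := by
      rw [← Perm.mul_apply, ← map_mul, inv_mul_cancel, map_one, Perm.one_apply]
    rw [← b1, b4, b5, e1, e2, hx, b2, b3])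
  have c2 : AE l (fun j q => part j (φ j (ι x₀⁻¹) q) = part j q ∧
      π j (φ j (ι x₀⁻¹) q) (α r y₀) ≠ π j q (α r y₀)) := by
    refine ((hall x₀⁻¹).and ((πe (ι x₀⁻¹) (α r y₀)).and (πi _ _ hx))).mono
      fun j q ⟨b1, b2, b3⟩ => ⟨b1, ?_⟩
    rw [b2, map_inv ι, inv_inv]
    exact b3
  have c3 := c1.and (c2.comp fun j => φ j r)
  have c4 := c3.of_le 4 (by norm_num) fun j => (hp j).dens _
  refine (c1.and c4).mono fun j p ⟨b1, b2⟩ => ?_
  refine grow_fin (hp j) (φ j r) (φ j (ι x₀⁻¹)) (fun q => π j q (α r y₀)) p _ b2 ?_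
  rintro q hq ⟨b3, b4, b5⟩
  have hpq := (hp j p).2 q hq
  set c := fun q => (e j (part j (φ j r q)), π j (φ j r q) (α r y₀)) with hcd
  have b6 : c q = c p := by
    by_contra hn
    have d1 : Disjoint (cls (part j) c p) (cls (part j) c q) := by
      rw [Finset.disjoint_left]
      intro z z1 z2
      exact hn ((mem_cls.mp z2).2.symm.trans (mem_cls.mp z1).2)
    have d2 : cls (part j) c p ∪ cls (part j) c q ⊆ part j p :=
      union_subset (fun z hz => (mem_cls.mp hz).1) (fun z hz => hpq ▸ (mem_cls.mp hz).1)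
    have d3 := card_le_card d2
    rw [card_union_of_disjoint d1] at d3
    rw [hpq] at b3
    omega
  have b7 : part j (φ j r q) = part j (φ j r p) := he j (congrArg Prod.fst b6)
  have b8 : π j (φ j r q) (α r y₀) = π j (φ j r p) (α r y₀) := congrArg Prod.snd b6
  refine ⟨b7 ▸ (hp j _).1, ?_, b8, b8 ▸ b5⟩
  rw [← b7, ← b4]
  exact (hp j _).1

end ae

theorem sofic_ae {G Y : Type} [Group G] (α : G →* Perm Y) (h : SoficAction α) :
    ∃ (J : Type) (l : Filter J) (_ : l.NeBot) (A : J → Type) (_ : ∀ j, Fintype (A j))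
      (φ : ∀ j, G → Perm (A j)) (π : ∀ j, A j → Y → ℕ),
      (∀ j, 0 < Fintype.card (A j)) ∧ (∀ j, φ j 1 = 1) ∧
      (∀ g h, AE l (fun j p => φ j (g * h) p = φ j g (φ j h p))) ∧
      (∀ g y, AE l (fun j p => π j (φ j g p) y = π j p (α g⁻¹ y))) ∧
      (∀ y y', y ≠ y' → AE l (fun j p => π j p y ≠ π j p y')) := by
  have h' : ∀ j : Finset G × Finset Y × ℕ, _ := fun j =>
    h j.1 j.2.1 (1 / ((j.2.2 : ℝ) + 1)) (by positivity)
  choose A iA φ h1 h2 B iB S π h3 h4 h5 using h'
  have code : ∀ j, ∃ e : B j → ℕ, Function.Injective e := fun j =>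
    Countable.exists_injective_nat _
  choose e he using code
  have hne : ∀ j, 0 < Fintype.card (A j) := by
    intro j
    by_contra hn
    have a1 : Fintype.card (A j) = 0 := by omega
    have a2 : (S j).card ≤ Fintype.card (A j) := card_le_univ _
    have a3 := h3 j
    rw [a1] at a2 a3
    have a4 : (S j).card = 0 := by omega
    rw [a4] at a3
    simp at a3
  have ev : ∀ (F : Finset G) (E : Finset Y) (ε : ℝ), 0 < ε →
      ∀ᶠ j : Finset G × Finset Y × ℕ in atTop, F ⊆ j.1 ∧ E ⊆ j.2.1 ∧ 1 / ((j.2.2 : ℝ) + 1) ≤ ε := by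
    intro F E ε hε
    obtain ⟨n, hn⟩ := exists_nat_one_div_lt hε
    filter_upwards [eventually_ge_atTop ((F, E, n) : Finset G × Finset Y × ℕ)] with j hj
    refine ⟨hj.1, hj.2.1, le_trans ?_ hn.le⟩
    have : (n : ℝ) ≤ j.2.2 := by exact_mod_cast hj.2.2
    gcongr
  have hS : AE atTop (fun j (p : A j) => p ∈ S j) := by
    intro ε hε
    filter_upwards [ev ∅ ∅ ε hε] with j hj
    have a1 := cnt_split (fun _ : A j => True) (fun p => p ∈ S j)
    simp only [true_and] at a1
    rw [cnt_true, cnt_mem] at a1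
    have a2 := h3 j
    have a3 : 1 / ((j.2.2 : ℝ) + 1) * Fintype.card (A j) ≤ ε * Fintype.card (A j) := by
      gcongr
      exact hj.2.2
    linarith
  have hev : ∀ (F : Finset G) (E : Finset Y),
      AE atTop (fun j (p : A j) => F ⊆ j.1 ∧ E ⊆ j.2.1) := by
    intro F E ε hε
    filter_upwards [ev F E ε hε] with j hj
    rw [cnt_false (fun p hp => hp ⟨hj.1, hj.2.1⟩)]
    positivity
  refine ⟨_, atTop, inferInstance, A, iA, φ, fun j p y =>
    if h : p ∈ S j ∧ y ∈ j.2.1 then e j (π j ⟨p, h.1⟩ ⟨y, h.2⟩) else 0, hne, h1, ?_, ?_, ?_⟩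
  · intro g g' ε hε
    filter_upwards [ev {g, g'} ∅ ε hε] with j hj
    have a1 := h2 j g (hj.1 (by simp)) g' (hj.1 (by simp))
    have a2 : (0 : ℝ) < Fintype.card (A j) := by exact_mod_cast hne j
    unfold ham at a1
    rw [div_lt_iff₀ a2, ← cnt_mem] at a1
    have a3 : 1 / ((j.2.2 : ℝ) + 1) * Fintype.card (A j) ≤ ε * Fintype.card (A j) := by
      gcongr
      exact hj.2.2
    refine le_trans (cnt_mono fun p hp => ?_) (a1.le.trans a3)
    simpa using hp
  · intro g y
    refine (hS.and ((hS.comp fun j => φ j g).and (hev {g} {y, α g⁻¹ y}))).mono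
      fun j p ⟨b1, b2, b3, b4⟩ => ?_
    have b5 : y ∈ j.2.1 := b4 (by simp)
    have b6 : α g⁻¹ y ∈ j.2.1 := b4 (by simp)
    beta_reduce
    rw [dif_pos ⟨b2, b5⟩, dif_pos ⟨b1, b6⟩]
    exact congrArg (e j) (h5 j ⟨p, b1⟩ g (b3 (by simp)) ⟨y, b5⟩ b2 b6)
  · intro y y' hy
    refine (hS.and (hev ∅ {y, y'})).mono fun j p ⟨b1, b3, b4⟩ => ?_
    have b5 : y ∈ j.2.1 := b4 (by simp)
    have b6 : y' ∈ j.2.1 := b4 (by simp)
    beta_reduce
    rw [dif_pos ⟨b1, b5⟩, dif_pos ⟨b1, b6⟩]
    intro hn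
    exact hy (congrArg Subtype.val (h4 j _ (he j hn)))

/-- criterion for non-soficity of an action -/
theorem not_sofic {G Λ Y : Type} [Group G] [Group Λ] {S : Finset Λ} (hK : Kaz Λ S)
    (hS : Subgroup.closure (S : Set Λ) = ⊤) (ι : Λ →* G) (a b ρ : G)
    (hρ : ρ ∈ Subgroup.closure ({a, b} : Set G)) (ha : b * ρ * a = ρ) (hb : a * ρ * b = ρ)
    (h4 : ρ * ρ * ρ * ρ = 1) (ca : ∀ s, ∃ x, a * ι s = ι x * a) (cb : ∀ s, ∃ x, b * ι s = ι x * b)
    (α : G →* Perm Y) (y₀ : Y) (hy : ∀ x, α (ι x) y₀ = y₀)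
    (ma : ∃ x, α (ι x) (α a y₀) ≠ α a y₀) (mb : ∃ x, α (ι x) (α b y₀) ≠ α b y₀) :
    ¬ SoficAction α := by
  intro h
  obtain ⟨J, l, _, A, _, φ, π, hne, h1, hm, πe, πi⟩ := sofic_ae α h
  obtain ⟨part, hp, hs, hc⟩ := exists_part (l := l) hK (fun j x => φ j (ι x))
    (fun j => by simp only [map_one, h1]) (fun g h => by simpa only [map_mul] using hm (ι g) (ι h))
  obtain ⟨xa, ma⟩ := ma
  obtain ⟨xb, mb⟩ := mb
  exact no_growth hne φ h1 hm a b ρ hρ ha hb h4 (fun j p => (part j p).card)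
    (grow hS ι φ h1 hm part hp hs hc α π πe πi y₀ hy a (fun s _ => ca s) xa ma)
    (grow hS ι φ h1 hm part hp hs hc α π πe πi y₀ hy b (fun s _ => cb s) xb mb)

end Pool.Agent.H515Z.NS
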