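import Mathlib
import Pool.Agent.H515Z.NSCore
import Pool.Agent.H304Z.Pair

set_option autoImplicit false
set_option linter.unusedSectionVars false
set_option linter.unusedVariables false

/-!
A residually finite group with a non-sofic action, and two commuting free actions.
-/

namespace Pool.Agent.H515Z.NS

open Equiv Matrix
open scoped Classical
open Pool.Agent.H304Z Pool.Agent.H304Z.NH

section el

variable {R : Type} [Ring R]

/-- invertible three by three matrices -/
abbrev GL3 (R : Type) [Ring R] : Type := (Matrix (Fin 3) (Fin 3) R)ˣ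

/-- elementary matrices -/
def el {i j : Fin 3} (h : i ≠ j) (r : R) : GL3 R where
  val := 1 + single i j r
  inv := 1 + single i j (-r)
  val_inv := by
    rw [add_mul, mul_add, mul_add, single_mul_single_of_ne _ _ _ _ h.symm]
    simp [← single_neg]
  inv_val := by
    rw [add_mul, mul_add, mul_add, single_mul_single_of_ne _ _ _ _ h.symm]
    simp [← single_neg]

theorem el_val {i j : Fin 3} (h : i ≠ j) (r : R) :
    ((el h r : GL3 R) : Matrix (Fin 3) (Fin 3) R) = 1 + single i j r := rfl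

theorem el_inv_val {i j : Fin 3} (h : i ≠ j) (r : R) :
    (((el h r)⁻¹ : GL3 R) : Matrix (Fin 3) (Fin 3) R) = 1 + single i j (-r) := rfl

theorem el_add {i j : Fin 3} (h : i ≠ j) (r s : R) : el h (r + s) = el h r * el h s := by
  ext1
  rw [Units.val_mul, el_val, el_val, el_val, add_mul, mul_add, mul_add,
    single_mul_single_of_ne _ _ _ _ h.symm, single_add]
  simp only [mul_one, one_mul, add_zero]
  abel

theorem el_comm {i j k l : Fin 3} (hij : i ≠ j) (hkl : k ≠ l) (h1 : j ≠ k) (h2 : l ≠ i)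
    (r s : R) : el hij r * el hkl s = el hkl s * el hij r := by
  ext1
  simp only [Units.val_mul, el_val, add_mul, mul_add, single_mul_single_of_ne _ _ _ _ h1,
    single_mul_single_of_ne _ _ _ _ h2, mul_one, one_mul, add_zero]
  abel

theorem el_heis {i j k : Fin 3} (hij : i ≠ j) (hjk : j ≠ k) (hik : i ≠ k) (r s : R) :
    el hij r * el hjk s = el hjk s * (el hij r * el hik (r * s)) := by
  ext1
  simp only [Units.val_mul, el_val, add_mul, mul_add, single_mul_single_of_ne _ _ _ _ hij.symm,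
    single_mul_single_of_ne _ _ _ _ hik.symm, single_mul_single_same, mul_one, one_mul, add_zero,
    mul_zero]
  abel

theorem el_mem {L : Subgroup (GL3 R)} {i j k : Fin 3} (hij : i ≠ j) (hjk : j ≠ k) (hik : i ≠ k)
    {r s : R} (h1 : el hij r ∈ L) (h2 : el hjk s ∈ L) : el hik (r * s) ∈ L := by
  have h := L.mul_mem h1 h2
  rw [el_heis hij hjk hik] at h
  exact (L.mul_mem_cancel_left h1).mp ((L.mul_mem_cancel_left h2).mp h)

/-- scalar matrices -/
def sc : Rˣ →* GL3 R := Units.map (Matrix.scalar (Fin 3) : R →+* _).toMonoidHom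

theorem sc_el (u : Rˣ) {i j : Fin 3} (h : i ≠ j) (r s : R) (hrs : u * r = s * u) :
    sc u * el h r = el h s * sc u := by
  ext1
  have e : ((sc u : GL3 R) : Matrix (Fin 3) (Fin 3) R) = diagonal (fun _ => (u : R)) := rfl
  rw [Units.val_mul, Units.val_mul, el_val, el_val, e, mul_add, add_mul, mul_one, one_mul]
  congr 1
  ext a b
  rw [diagonal_mul, mul_diagonal]
  by_cases hab : i = a ∧ j = b
  · obtain ⟨rfl, rfl⟩ := hab
    simpa using hrs
  · rw [single_apply_of_ne _ _ _ _ _ hab, single_apply_of_ne _ _ _ _ _ hab]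
    simp

variable {F : Type} [Field F] [Algebra F R]

theorem hp_heis {L : Subgroup (GL3 R)} {i j k : Fin 3} (hij : i ≠ j) (hjk : j ≠ k) (hik : i ≠ k)
    (p q : R) (h1 : ∀ c : F, el hij (c • p) ∈ L) (h2 : ∀ c : F, el hjk (c • q) ∈ L) :
    HP2 (fun c : F => (⟨el hij (c • p), h1 c⟩ : L)) (fun c : F => (⟨el hjk (c • q), h2 c⟩ : L)) := by
  have h3 : ∀ c : F, el hik (c • (p * q)) ∈ L := fun c => by
    have := el_mem hij hjk hik (h1 c) (h2 1)
    rwa [one_smul, smul_mul_assoc] at this
  refine HP2.of_heis (fun c : F => ⟨el hik (c • (p * q)), h3 c⟩) ?_ ?_ ?_ ?_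
  · intro c d
    apply Subtype.ext
    show el hik ((c + d) • (p * q)) = el hik _ * el hik _
    rw [add_smul, el_add]
  · intro a b
    apply Subtype.ext
    show el hij _ * el hjk _ = el hjk _ * (el hij _ * el hik ((a * b) • (p * q)))
    rw [el_heis hij hjk hik, smul_mul_smul_comm]
  · intro c b
    exact Subtype.ext (el_comm hik hij hik.symm hij.symm _ _)
  · intro c b
    exact Subtype.ext (el_comm hik hjk hjk.symm hik.symm _ _)

theorem n01 : (0 : Fin 3) ≠ 1 := by decide
theorem n02 : (0 : Fin 3) ≠ 2 := by decide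
theorem n12 : (1 : Fin 3) ≠ 2 := by decide

/-- the five lines -/
def ln (F : Type) [Field F] [Algebra F R] (x y : R) : Fin 5 → F → GL3 R :=
  ![fun c => el n01 (c • (1 : R)), fun c => el n01 (c • x), fun c => el n01 (c • y),
    fun c => el n12 (c • (1 : R)), fun c => el n02.symm (c • (1 : R))]

/-- the group generated by the lines -/
def LL (F : Type) [Field F] [Algebra F R] (x y : R) : Subgroup (GL3 R) :=
  Subgroup.closure {g | ∃ i c, g = ln F x y i c}

theorem ln_mem (x y : R) (i : Fin 5) (c : F) : ln F x y i c ∈ LL F x y :=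
  Subgroup.subset_closure ⟨i, c, rfl⟩

theorem xy_mem (x y : R) (c : F) : el n01 (c • (x * y)) ∈ LL F x y := by
  have h1 : el n02 ((c • x) * ((1 : F) • (1 : R))) ∈ LL F x y :=
    el_mem n01 n12 n02 (ln_mem x y 1 c) (ln_mem x y 3 1)
  have h2 : el n12.symm (((1 : F) • (1 : R)) * ((1 : F) • y)) ∈ LL F x y :=
    el_mem n02.symm n01 n12.symm (ln_mem x y 4 1) (ln_mem x y 2 1)
  have h3 := el_mem n02 n12.symm n01 h1 h2
  simpa using h3

theorem kaz_LL [Fintype F] (hF : 512 ≤ Fintype.card F) (x y : R) :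
    ∃ S : Finset (LL F x y), Kaz (LL F x y) S ∧ Subgroup.closure (S : Set (LL F x y)) = ⊤ := by
  set u : Fin 5 → F → LL F x y := fun i c => ⟨ln F x y i c, ln_mem x y i c⟩ with hu
  have gen : Subgroup.closure {g | ∃ i t, g = u i t} = ⊤ := by
    refine Eq.trans ?_ (Subgroup.closure_closure_coe_preimage (k := {g | ∃ i c, g = ln F x y i c}))
    congr 1
    ext g
    simp only [hu, Set.mem_setOf_eq, Subtype.ext_iff]
    rfl
  have c01 : ∀ p q : R, ∀ (h1 : ∀ c : F, el n01 (c • p) ∈ LL F x y)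
      (h2 : ∀ c : F, el n01 (c • q) ∈ LL F x y),
      HP2 (fun c : F => (⟨el n01 (c • p), h1 c⟩ : LL F x y))
        (fun c : F => (⟨el n01 (c • q), h2 c⟩ : LL F x y)) := fun p q h1 h2 =>
    HP2.of_comm fun a b => Subtype.ext (el_comm n01 n01 n01.symm n01.symm _ _)
  obtain ⟨S, ε, hε, h⟩ := propT_lines2 hF (n := 5) (by norm_num) (by norm_num) u (by
      intro i a b
      apply Subtype.ext
      have k : ∀ {i j : Fin 3} (h : i ≠ j) (p : R),
          el h ((a + b) • p) = el h (a • p) * el h (b • p) := fun h p => by rw [add_smul, el_add]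
      fin_cases i
      exacts [k n01 1, k n01 x, k n01 y, k n12 1, k n02.symm 1]) (by
      have p01 : HP2 (u 0) (u 1) := c01 _ _ _ _
      have p02 : HP2 (u 0) (u 2) := c01 _ _ _ _
      have p12 : HP2 (u 1) (u 2) := c01 _ _ _ _
      have p03 : HP2 (u 0) (u 3) := hp_heis n01 n12 n02 _ _ _ _
      have p13 : HP2 (u 1) (u 3) := hp_heis n01 n12 n02 _ _ _ _
      have p23 : HP2 (u 2) (u 3) := hp_heis n01 n12 n02 _ _ _ _
      have p40 : HP2 (u 4) (u 0) := hp_heis n02.symm n01 n12.symm _ _ _ _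
      have p41 : HP2 (u 4) (u 1) := hp_heis n02.symm n01 n12.symm _ _ _ _
      have p42 : HP2 (u 4) (u 2) := hp_heis n02.symm n01 n12.symm _ _ _ _
      have p34 : HP2 (u 3) (u 4) := hp_heis n12 n02.symm n01.symm _ _ _ _
      intro i j hij
      fin_cases i <;> fin_cases j <;> first
        | exact absurd rfl hij
        | exact Or.inl (by assumption)
        | exact Or.inr (by assumption)) gen
  refine ⟨S ∪ Finset.univ.image (fun p : Fin 5 × F => u p.1 p.2), ⟨ε, hε, ?_⟩, ?_⟩
  · intro E _ _ _ π hπ ⟨v, hv, hs⟩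
    exact h E π hπ ⟨v, hv, fun s hs' => hs s (Finset.mem_union_left _ hs')⟩
  · rw [eq_top_iff, ← gen]
    refine Subgroup.closure_mono ?_
    rintro g ⟨i, t, rfl⟩
    exact Finset.mem_coe.mpr (Finset.mem_union_right _ (Finset.mem_image.mpr
      ⟨(i, t), Finset.mem_univ _, rfl⟩))

theorem compress (x y : R) (u : Rˣ) (x' y' : R) (hx : u * x = x' * u) (hy : u * y = y' * u)
    (mx : ∀ c : F, el n01 (c • x') ∈ LL F x y) (my : ∀ c : F, el n01 (c • y') ∈ LL F x y)
    (s : LL F x y) : ∃ z : LL F x y,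
      sc u * (LL F x y).subtype s = (LL F x y).subtype z * sc u := by
  obtain ⟨s, hs⟩ := s
  have key : ∀ {i j : Fin 3} (h : i ≠ j) (p p' : R) (c : F), u * p = p' * u →
      el h (c • p') ∈ LL F x y → sc u * el h (c • p) * (sc u)⁻¹ ∈ LL F x y := by
    intro i j h p p' c e hm
    rw [sc_el u h (c • p) (c • p') (by rw [mul_smul_comm, smul_mul_assoc, e]), mul_inv_cancel_right]
    exact hm
  have : sc u * s * (sc u)⁻¹ ∈ LL F x y := by
    induction hs using Subgroup.closure_induction with
    | mem g hg =>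
      obtain ⟨i, c, rfl⟩ := hg
      fin_cases i
      · exact key n01 1 1 c (by simp) (ln_mem x y 0 c)
      · exact key n01 x x' c hx (mx c)
      · exact key n01 y y' c hy (my c)
      · exact key n12 1 1 c (by simp) (ln_mem x y 3 c)
      · exact key n02.symm 1 1 c (by simp) (ln_mem x y 4 c)
    | one => simpa using one_mem _
    | mul g h _ _ hg hh =>
      have := mul_mem hg hh
      simpa [mul_assoc] using this
    | inv g _ hg =>
      have := inv_mem hg
      simpa [mul_assoc] using this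
  exact ⟨⟨_, this⟩, by simp⟩

/-- invertible matrices over a subalgebra -/
def subGL (P : Subalgebra F R) : Subgroup (GL3 R) where
  carrier := {g | ∀ i j, (g : Matrix (Fin 3) (Fin 3) R) i j ∈ P ∧
    ((g⁻¹ : GL3 R) : Matrix (Fin 3) (Fin 3) R) i j ∈ P}
  one_mem' := by
    intro i j
    rw [inv_one, Units.val_one, Matrix.one_apply]
    split_ifs
    · exact ⟨one_mem _, one_mem _⟩
    · exact ⟨zero_mem _, zero_mem _⟩
  mul_mem' := by
    intro g h hg hh i j
    rw [_root_.mul_inv_rev, Units.val_mul, Units.val_mul, Matrix.mul_apply, Matrix.mul_apply]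
    exact ⟨sum_mem fun k _ => mul_mem (hg _ _).1 (hh _ _).1,
      sum_mem fun k _ => mul_mem (hh _ _).2 (hg _ _).2⟩
  inv_mem' := by
    intro g hg i j
    rw [inv_inv]
    exact ⟨(hg i j).2, (hg i j).1⟩

theorem el_subGL (P : Subalgebra F R) {i j : Fin 3} (h : i ≠ j) {r : R} :
    el h r ∈ subGL P ↔ r ∈ P := by
  constructor
  · intro hm
    have := (hm i j).1
    rw [el_val, Matrix.add_apply, Matrix.one_apply_ne h, zero_add, single_apply_same] at this
    exact this
  · intro hr
    have key : ∀ r ∈ P, ∀ a b, (1 + single i j r : Matrix (Fin 3) (Fin 3) R) a b ∈ P := by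
      intro r hr a b
      rw [Matrix.add_apply, Matrix.one_apply, single_apply]
      refine add_mem ?_ ?_ <;> split_ifs
      exacts [one_mem _, zero_mem _, hr, zero_mem _]
    exact fun a b => ⟨key r hr a b, key _ (neg_mem hr) a b⟩

theorem LL_le (P : Subalgebra F R) {x y : R} (hx : x ∈ P) (hy : y ∈ P) : LL F x y ≤ subGL P := by
  rw [LL, Subgroup.closure_le]
  rintro g ⟨i, c, rfl⟩
  fin_cases i
  · exact (el_subGL P n01).mpr (P.smul_mem (one_mem _) c)
  · exact (el_subGL P n01).mpr (P.smul_mem hx c)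
  · exact (el_subGL P n01).mpr (P.smul_mem hy c)
  · exact (el_subGL P n12).mpr (P.smul_mem (one_mem _) c)
  · exact (el_subGL P n02.symm).mpr (P.smul_mem (one_mem _) c)

end el

section alg

variable {F W : Type} [Field F] [Group W]

/-- elements of the group algebra supported in a submonoid -/
def supp (F : Type) [Field F] (P : Submonoid W) : Subalgebra F (MonoidAlgebra F W) where
  carrier := {f | ∀ w ∈ f.coeff.support, w ∈ P}
  mul_mem' := by
    intro f g hf hg w hw
    obtain ⟨a, ha, b, hb, rfl⟩ := Finset.mem_mul.mp (MonoidAlgebra.support_coeff_mul_subset f g hw)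
    exact mul_mem (hf a ha) (hg b hb)
  add_mem' := by
    intro f g hf hg w hw
    rw [MonoidAlgebra.coeff_add] at hw
    rcases Finset.mem_union.mp (Finsupp.support_add hw) with h | h
    exacts [hf w h, hg w h]
  algebraMap_mem' := by
    intro c w hw
    rw [MonoidAlgebra.coe_algebraMap, Function.comp_apply, MonoidAlgebra.coeff_single] at hw
    rw [Finset.mem_singleton.mp (Finsupp.support_single_subset hw)]
    exact one_mem _

/-- group elements as units of the group algebra -/
noncomputable def un (F : Type) [Field F] : W →* (MonoidAlgebra F W)ˣ :=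
  (MonoidAlgebra.of F W).toHomUnits

theorem un_val (w : W) : ((un F w : (MonoidAlgebra F W)ˣ) : MonoidAlgebra F W) =
    MonoidAlgebra.of F W w := rfl

theorem of_mem_supp (P : Submonoid W) (w : W) : MonoidAlgebra.of F W w ∈ supp F P ↔ w ∈ P := by
  show (∀ v ∈ (MonoidAlgebra.single w (1 : F)).coeff.support, v ∈ P) ↔ _
  rw [MonoidAlgebra.coeff_single, Finsupp.support_single _ one_ne_zero]
  simp

theorem not_sofic_alg [Fintype F] (hF : 512 ≤ Fintype.card F) (P : Submonoid W)
    (x y a b ρ : W) (hρ : ρ = a * b⁻¹ * a) (ha : b * ρ * a = ρ) (hb : a * ρ * b = ρ)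
    (h4 : ρ * ρ * ρ * ρ = 1) (ax : a * x = x * a) (ay : a * y = x * y * a)
    (bx : b * x = x * y * b) (bY : b * y = y * b) (hx : x ∈ P) (hy : y ∈ P)
    (na : a⁻¹ * y * a ∉ P) (nb : b⁻¹ * x * b ∉ P) :
    ¬ SoficAction (MulAction.toPermHom (GL3 (MonoidAlgebra F W))
      (GL3 (MonoidAlgebra F W) ⧸ subGL (supp F P))) := by
  set o := MonoidAlgebra.of F W with ho
  obtain ⟨S, hK, hS⟩ := kaz_LL hF (o x) (o y)
  set d : W →* GL3 (MonoidAlgebra F W) := sc.comp (un F) with hd
  have hle : LL F (o x) (o y) ≤ subGL (supp F P) :=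
    LL_le _ ((of_mem_supp P x).mpr hx) ((of_mem_supp P y).mpr hy)
  have mv : ∀ r z : W, r⁻¹ * z * r ∉ P → el n01 ((1 : F) • o z) ∈ LL F (o x) (o y) →
      ∃ l : LL F (o x) (o y), MulAction.toPermHom (GL3 (MonoidAlgebra F W))
        (GL3 (MonoidAlgebra F W) ⧸ subGL (supp F P)) ((LL F (o x) (o y)).subtype l)
        (MulAction.toPermHom _ (GL3 (MonoidAlgebra F W) ⧸ subGL (supp F P)) (d r)
          ((1 : GL3 (MonoidAlgebra F W)) : _ ⧸ subGL (supp F P))) ≠
        MulAction.toPermHom _ (GL3 (MonoidAlgebra F W) ⧸ subGL (supp F P)) (d r)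
          ((1 : GL3 (MonoidAlgebra F W)) : _ ⧸ subGL (supp F P)) := by
    intro r z hz hm
    refine ⟨⟨_, hm⟩, fun h => hz ?_⟩
    simp only [MulAction.toPermHom_apply, MulAction.toPerm_apply, MulAction.Quotient.smul_mk,
      smul_eq_mul, mul_one, Subgroup.coe_subtype] at h
    have h' := QuotientGroup.eq.mp h.symm
    have e : el n01 ((1 : F) • o z) * d r = d r * el n01 (o (r⁻¹ * z * r)) := by
      symm
      refine sc_el (un F r) n01 _ _ ?_
      rw [un_val, one_smul, ← ho, ← map_mul, ← map_mul]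
      congr 1
      group
    rw [e, inv_mul_cancel_left, el_subGL] at h'
    exact (of_mem_supp P _).mp h'
  have xy : ∀ c : F, el n01 (c • o (x * y)) ∈ LL F (o x) (o y) := fun c => by
    rw [map_mul]
    exact xy_mem _ _ c
  refine not_sofic hK hS (LL F (o x) (o y)).subtype (d a) (d b) (d ρ) ?_
    (by rw [← map_mul, ← map_mul, ha]) (by rw [← map_mul, ← map_mul, hb])
    (by rw [← map_mul, ← map_mul, ← map_mul, h4, map_one])
    (compress (o x) (o y) (un F a) (o x) (o (x * y))
      (by rw [un_val, ← ho, ← map_mul, ← map_mul, ax])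
      (by rw [un_val, ← ho, ← map_mul, ← map_mul, ay]) (ln_mem (o x) (o y) 1) xy)
    (compress (o x) (o y) (un F b) (o (x * y)) (o y)
      (by rw [un_val, ← ho, ← map_mul, ← map_mul, bx])
      (by rw [un_val, ← ho, ← map_mul, ← map_mul, bY]) xy (ln_mem (o x) (o y) 2))
    _ ((1 : GL3 (MonoidAlgebra F W)) : _ ⧸ subGL (supp F P)) ?_
    (mv a y na (ln_mem (o x) (o y) 2 1)) (mv b x nb (ln_mem (o x) (o y) 1 1))
  · rw [hρ, map_mul, map_mul, map_inv]
    have h1 : d a ∈ Subgroup.closure ({d a, d b} : Set _) := Subgroup.subset_closure (by simp)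
    have h2 : d b ∈ Subgroup.closure ({d a, d b} : Set _) := Subgroup.subset_closure (by simp)
    exact mul_mem (mul_mem h1 (inv_mem h2)) h1
  · intro l
    simp only [MulAction.toPermHom_apply, MulAction.toPerm_apply, MulAction.Quotient.smul_mk,
      smul_eq_mul, mul_one, Subgroup.coe_subtype]
    symm
    rw [QuotientGroup.eq, inv_one, one_mul]
    exact hle l.2

end alg

/-- finite sets are separated by homomorphisms to finite groups -/
def RF (G : Type) [Group G] : Prop :=
  ∀ E : Finset G, ∃ (Q : Type) (_ : Group Q) (_ : Finite Q) (ψ : G →* Q), Set.InjOn ψ E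

theorem rf_GL3 {F W : Type} [Field F] [Finite F] [Group W] (h : RF W) :
    RF (GL3 (MonoidAlgebra F W)) := by
  intro E
  obtain ⟨Q, _, _, ψ, hψ⟩ := h (E.biUnion fun g => Finset.univ.biUnion fun p : Fin 3 × Fin 3 =>
    ((g : Matrix (Fin 3) (Fin 3) (MonoidAlgebra F W)) p.1 p.2).coeff.support)
  haveI : Finite (Q →₀ F) := Finite.of_injective _ (DFunLike.coe_injective (F := Q →₀ F))
  haveI : Finite (MonoidAlgebra F Q) := Finite.of_equiv _ MonoidAlgebra.coeffEquiv.symm
  refine ⟨GL3 (MonoidAlgebra F Q), inferInstance, inferInstance,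
    Units.map (MonoidAlgebra.mapDomainRingHom F ψ).mapMatrix.toMonoidHom, ?_⟩
  intro g hg g' hg' e
  refine Units.ext (Matrix.ext fun i j => ?_)
  have e1 : MonoidAlgebra.mapDomain ψ ((g : Matrix (Fin 3) (Fin 3) (MonoidAlgebra F W)) i j) =
      MonoidAlgebra.mapDomain ψ ((g' : Matrix (Fin 3) (Fin 3) (MonoidAlgebra F W)) i j) :=
    congrArg (fun z : GL3 (MonoidAlgebra F Q) =>
      (z : Matrix (Fin 3) (Fin 3) (MonoidAlgebra F Q)) i j) e
  apply MonoidAlgebra.coeffEquiv.injective
  refine Finsupp.mapDomain_injOn _ hψ ?_ ?_ (congrArg MonoidAlgebra.coeff e1)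
  · intro w hw
    simp only [Finset.coe_biUnion, Set.mem_iUnion]
    exact ⟨g, hg, (i, j), by simp, hw⟩
  · intro w hw
    simp only [Finset.coe_biUnion, Set.mem_iUnion]
    exact ⟨g', hg', (i, j), by simp, hw⟩

theorem rf_SL : RF (Matrix.SpecialLinearGroup (Fin 3) ℤ) := by
  intro E
  obtain ⟨m, hm⟩ : ∃ m : ℕ, ∀ g ∈ E, ∀ i j, |(g : Matrix (Fin 3) (Fin 3) ℤ) i j| ≤ m := by
    refine ⟨E.sup fun g => Finset.univ.sup fun p : Fin 3 × Fin 3 =>
      ((g : Matrix (Fin 3) (Fin 3) ℤ) p.1 p.2).natAbs, fun g hg i j => ?_⟩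
    rw [← Int.natCast_natAbs]
    exact_mod_cast (Finset.le_sup (f := fun p : Fin 3 × Fin 3 =>
      ((g : Matrix (Fin 3) (Fin 3) ℤ) p.1 p.2).natAbs) (Finset.mem_univ (i, j))).trans
      (Finset.le_sup (f := fun g : Matrix.SpecialLinearGroup (Fin 3) ℤ =>
        Finset.univ.sup fun p : Fin 3 × Fin 3 =>
          ((g : Matrix (Fin 3) (Fin 3) ℤ) p.1 p.2).natAbs) hg)
  refine ⟨Matrix.SpecialLinearGroup (Fin 3) (ZMod (2 * m + 1)), inferInstance, inferInstance,
    Matrix.SpecialLinearGroup.map (Int.castRingHom _), ?_⟩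
  intro g hg g' hg' e
  ext i j
  have e1 : (((g : Matrix (Fin 3) (Fin 3) ℤ) i j : ℤ) : ZMod (2 * m + 1)) =
      (((g' : Matrix (Fin 3) (Fin 3) ℤ) i j : ℤ) : ZMod (2 * m + 1)) :=
    congrArg (fun z : Matrix.SpecialLinearGroup (Fin 3) (ZMod (2 * m + 1)) =>
      (z : Matrix (Fin 3) (Fin 3) (ZMod (2 * m + 1))) i j) e
  rw [ZMod.intCast_eq_intCast_iff_dvd_sub] at e1
  have a1 := abs_le.mp (hm g hg i j)
  have a2 := abs_le.mp (hm g' hg' i j)
  have := Int.eq_zero_of_abs_lt_dvd e1 (by
    rw [abs_lt]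
    push_cast
    constructor <;> linarith)
  linarith

/-- nonnegative matrices -/
def posSL : Submonoid (Matrix.SpecialLinearGroup (Fin 3) ℤ) where
  carrier := {g | ∀ i j, 0 ≤ (g : Matrix (Fin 3) (Fin 3) ℤ) i j}
  one_mem' := by
    intro i j
    rw [Matrix.SpecialLinearGroup.coe_one, Matrix.one_apply]
    split_ifs <;> norm_num
  mul_mem' := by
    intro g h hg hh i j
    rw [Matrix.SpecialLinearGroup.coe_mul, Matrix.mul_apply]
    exact Finset.sum_nonneg fun k _ => mul_nonneg (hg _ _) (hh _ _)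

theorem exists_nonsofic : ∃ (G Y : Type) (_ : Group G) (_ : Countable G) (_ : Countable Y)
    (β : G →* Perm Y), RF G ∧ ¬ SoficAction β := by
  let F := GaloisField 2 9
  haveI : Fact (Nat.Prime 2) := ⟨Nat.prime_two⟩
  letI : Fintype F := Fintype.ofFinite F
  have hF : 512 ≤ Fintype.card F := by
    rw [← Nat.card_eq_fintype_card, GaloisField.card 2 9 (by norm_num)]
    norm_num
  let W := Matrix.SpecialLinearGroup (Fin 3) ℤ
  let x : W := ⟨!![1, 0, 1; 0, 1, 0; 0, 0, 1], by decide⟩
  let y : W := ⟨!![1, 0, 0; 0, 1, 1; 0, 0, 1], by decide⟩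
  let a : W := ⟨!![1, 1, 0; 0, 1, 0; 0, 0, 1], by decide⟩
  let b : W := ⟨!![1, 0, 0; 1, 1, 0; 0, 0, 1], by decide⟩
  let a' : W := ⟨!![1, -1, 0; 0, 1, 0; 0, 0, 1], by decide⟩
  let b' : W := ⟨!![1, 0, 0; -1, 1, 0; 0, 0, 1], by decide⟩
  let ρ : W := ⟨!![0, 1, 0; -1, 0, 0; 0, 0, 1], by decide⟩
  have ha : a⁻¹ = a' := inv_eq_of_mul_eq_one_right (Subtype.ext (by decide))
  have hb : b⁻¹ = b' := inv_eq_of_mul_eq_one_right (Subtype.ext (by decide))
  haveI : Countable W := inferInstanceAs (Countable {A : Fin 3 → Fin 3 → ℤ // _})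
  haveI : Countable (MonoidAlgebra F W) := Countable.of_equiv _ MonoidAlgebra.coeffEquiv.symm
  haveI : Countable (Matrix (Fin 3) (Fin 3) (MonoidAlgebra F W)) :=
    inferInstanceAs (Countable (Fin 3 → Fin 3 → _))
  haveI : Countable (GL3 (MonoidAlgebra F W)) := Units.val_injective.countable
  refine ⟨GL3 (MonoidAlgebra F W), GL3 (MonoidAlgebra F W) ⧸ subGL (supp F posSL), inferInstance,
    inferInstance, QuotientGroup.mk_surjective.countable, _, rf_GL3 rf_SL,
    not_sofic_alg hF posSL x y a b ρ (by rw [hb]; exact Subtype.ext (by decide))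
      (Subtype.ext (by decide)) (Subtype.ext (by decide)) (Subtype.ext (by decide))
      (Subtype.ext (by decide)) (Subtype.ext (by decide)) (Subtype.ext (by decide))
      (Subtype.ext (by decide)) (by intro i j; revert i j; decide)
      (by intro i j; revert i j; decide) ?_ ?_⟩
  · rw [ha]
    intro h
    exact absurd (h 0 2) (by decide)
  · rw [hb]
    intro h
    exact absurd (h 1 2) (by decide)

section free

variable {G Y : Type} [Group G]

/-- left translation in the first coordinate -/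
def act1 (G Y : Type) [Group G] : G →* Perm (G × Y) where
  toFun g := Equiv.prodCongr (Equiv.mulLeft g) (Equiv.refl Y)
  map_one' := by ext <;> simp
  map_mul' g h := by ext <;> simp [mul_assoc]

/-- right translation in the first coordinate and the given action in the second -/
def act2 (β : G →* Perm Y) : G →* Perm (G × Y) where
  toFun g := Equiv.prodCongr (Equiv.mulRight g⁻¹) (β g)
  map_one' := by ext <;> simp
  map_mul' g h := by ext <;> simp [mul_assoc]

theorem act1_apply (g : G) (x : G × Y) : act1 G Y g x = (g * x.1, x.2) := rfl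

theorem act2_apply (β : G →* Perm Y) (g : G) (x : G × Y) :
    act2 β g x = (x.1 * g⁻¹, β g x.2) := rfl

theorem act_comm (β : G →* Perm Y) (g h : G) : Commute (act1 G Y g) (act2 β h) := by
  ext x <;> simp [act1_apply, act2_apply, mul_assoc]

theorem sofic_of_cocycle {X Z : Type} (hG : RF G) (α : G →* Perm X) (u : X → G) (z : X → Z)
    (hu : ∀ g x, u (α g⁻¹ x) = u x * g) (hz : ∀ g x, z (α g x) = z x)
    (hi : ∀ x x', u x = u x' → z x = z x' → x = x') : SoficAction α := by
  intro F E ε hε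
  obtain ⟨Q, _, _, ψ, hψ⟩ := hG (E.image u)
  letI : Fintype Q := Fintype.ofFinite Q
  refine ⟨Q, inferInstance, fun g => Equiv.mulLeft (ψ g), by ext; simp, ?_,
    Q × (E.image z), inferInstance, Finset.univ,
    fun s x => (ψ (u x) * s, ⟨z x, Finset.mem_image_of_mem _ x.2⟩), ?_, ?_, ?_⟩
  · intro g _ h _
    have : (Equiv.mulLeft (ψ (g * h)) : Perm Q) = Equiv.mulLeft (ψ g) * Equiv.mulLeft (ψ h) := by
      ext; simp [mul_assoc]
    beta_reduce
    rw [this]
    simpa [ham] using hε
  · have : (0 : ℝ) < Fintype.card Q := by exact_mod_cast Fintype.card_pos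
    rw [Finset.card_univ]
    nlinarith
  · intro s x x' e
    have e1 := mul_right_cancel (congrArg Prod.fst e)
    have e2 := congrArg (fun p => (p.2 : Z)) e
    exact Subtype.ext (hi _ _ (hψ (Finset.mem_coe.mpr (Finset.mem_image_of_mem _ x.2))
      (Finset.mem_coe.mpr (Finset.mem_image_of_mem _ x'.2)) e1) e2)
  · intro s g _ x hs hx
    refine Prod.ext ?_ (Subtype.ext (hz g⁻¹ x).symm)
    show ψ (u x) * (ψ g * s) = ψ (u (α g⁻¹ x)) * s
    rw [hu, map_mul, mul_assoc]

theorem sofic_act1 (hG : RF G) : SoficAction (act1 G Y) :=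
  sofic_of_cocycle hG _ (fun x => x.1⁻¹) (fun x => x.2)
    (fun g x => by rw [act1_apply]; simp) (fun g x => rfl)
    (fun x x' h1 h2 => Prod.ext (inv_injective h1) h2)

theorem sofic_act2 (hG : RF G) (β : G →* Perm Y) : SoficAction (act2 β) :=
  sofic_of_cocycle hG _ (fun x => x.1) (fun x => β x.1 x.2)
    (fun g x => by rw [act2_apply]; simp) (fun g x => by
      show β (x.1 * g⁻¹) (β g x.2) = β x.1 x.2
      rw [← Perm.mul_apply, ← map_mul, inv_mul_cancel_right])
    (fun x x' h1 h2 => Prod.ext h1 (by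
      have h2' : β x.1 x.2 = β x'.1 x'.2 := h2
      have h1' : x.1 = x'.1 := h1
      rw [h1'] at h2'
      exact (β x'.1).injective h2'))

theorem sofic_restrict {H X : Type} [Group H] (α : H →* Perm X) (β : G →* Perm Y) (f : G →* H)
    (i : Y → X) (hi : Function.Injective i) (he : ∀ g y, α (f g) (i y) = i (β g y))
    (h : SoficAction α) : SoficAction β := by
  intro F E ε hε
  obtain ⟨A, _, φ, h1, h2, B, _, S, π, h3, h4, h5⟩ := h (F.image f) (E.image i) ε hε
  refine ⟨A, inferInstance, fun g => φ (f g), by simp only [map_one, h1], ?_, B, inferInstance, S,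
    fun s x => π s ⟨i x, Finset.mem_image_of_mem _ x.2⟩, h3, ?_, ?_⟩
  · intro g hg g' hg'
    beta_reduce
    rw [map_mul]
    exact h2 _ (Finset.mem_image_of_mem _ hg) _ (Finset.mem_image_of_mem _ hg')
  · intro s x x' e
    exact Subtype.ext (hi (congrArg Subtype.val (h4 s e)))
  · intro s g hg x hs hx
    have e : α (f g)⁻¹ (i x) = i (β g⁻¹ x) := by rw [← map_inv, he]
    have := h5 s (f g) (Finset.mem_image_of_mem _ hg) ⟨i x, Finset.mem_image_of_mem _ x.2⟩ hs
      (by rw [e]; exact Finset.mem_image_of_mem _ hx)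
    refine this.trans ?_
    congr 1
    exact Subtype.ext e

end free

theorem main : ∃ (G₁ G₂ X : Type) (_ : Group G₁) (_ : Group G₂) (_ : Countable G₁)
    (_ : Countable G₂) (_ : Countable X) (α₁ : G₁ →* Perm X) (α₂ : G₂ →* Perm X)
    (hc : ∀ g h, Commute (α₁ g) (α₂ h)),
    SoficAction α₁ ∧ SoficAction α₂ ∧ ¬ SoficAction (α₁.noncommCoprod α₂ hc) := by
  obtain ⟨G, Y, _, _, _, β, hG, hβ⟩ := exists_nonsofic
  refine ⟨G, G, G × Y, inferInstance, inferInstance, inferInstance, inferInstance, inferInstance,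
    act1 G Y, act2 β, act_comm β, sofic_act1 hG, sofic_act2 hG β, fun h => hβ ?_⟩
  refine sofic_restrict _ β ((MonoidHom.id G).prod (MonoidHom.id G)) (fun y => (1, y))
    (fun y y' e => congrArg Prod.snd e) (fun g y => ?_) h
  simp [act1_apply, act2_apply]

end Pool.Agent.H515Z.NS
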