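import Mathlib

set_option autoImplicit false

/-! Rotor walks on the lattice: definitions. -/

namespace Pool.Agent.H515Z.Rotor

open MeasureTheory ProbabilityTheory

/-- The sites of the lattice `ℤ^d`. -/
abbrev Site (d : ℕ) : Type := Fin d → ℤ

/-- The `2d` directions: `(i, true)` is `e_i` and `(i, false)` is `-e_i`. -/
abbrev Dir (d : ℕ) : Type := Fin d × Bool

variable {d : ℕ}

/-- The unit vector of a direction. -/
def vec (e : Dir d) : Site d := Pi.single e.1 (if e.2 then 1 else -1)

/-- One step of the rotor walk: the particle moves in the direction of the rotor at its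
position, and then that rotor advances. -/
def step (m : Site d → Equiv.Perm (Dir d)) (s : Site d × (Site d → Dir d)) :
    Site d × (Site d → Dir d) :=
  (s.1 + vec (s.2 s.1), Function.update s.2 s.1 (m s.1 (s.2 s.1)))

/-- Position and rotor configuration at time `k` of the rotor walk from the origin with initial
configuration `ρ`. -/
def walk (m : Site d → Equiv.Perm (Dir d)) (ρ : Site d → Dir d) (k : ℕ) :
    Site d × (Site d → Dir d) :=
  (step m)^[k] (0, ρ)

/-- The walk returns to the origin at some time `k ≥ 1`. -/
def Returns (m : Site d → Equiv.Perm (Dir d)) (ρ : Site d → Dir d) : Prop :=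
  ∃ k, 1 ≤ k ∧ (walk m ρ k).1 = 0

open Classical in
/-- The configuration left by a particle started with configuration `ρ`: the configuration at the
first return time if it returns; otherwise the rotor at `x` has advanced once for each of the
(finitely many) visits to `x`. -/
noncomputable def next (m : Site d → Equiv.Perm (Dir d)) (ρ : Site d → Dir d) : Site d → Dir d :=
  if h : Returns m ρ then (walk m ρ (Nat.find h)).2
  else fun x => (m x ^ Set.ncard {k | (walk m ρ k).1 = x}) (ρ x)

open Classical in
/-- The number of escapes among the first `n` particles. -/
noncomputable def escapes (m : Site d → Equiv.Perm (Dir d)) (ρ : Site d → Dir d) (n : ℕ) : ℕ :=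
  ((Finset.range n).filter (fun j => ¬ Returns m ((next m)^[j] ρ))).card

/-- The law of the steps of simple random walk: independent uniform directions. -/
noncomputable def srw (d : ℕ) : Measure (ℕ → Dir d) :=
  Measure.infinitePi (fun _ : ℕ => uniformOn (Set.univ : Set (Dir d)))

/-- The probability that simple random walk started at the origin never returns to it. -/
noncomputable def escapeProb (d : ℕ) : ℝ :=
  (srw d {ω | ∀ k, 1 ≤ k → ∑ i ∈ Finset.range k, vec (ω i) ≠ 0}).toReal

end Pool.Agent.H515Z.Rotor
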