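import Mathlib
import Pool.Agent.H515Z.RotorDefs

set_option autoImplicit false

/-! The escape probability and the Dirichlet problem. -/

namespace Pool.Agent.H515Z.Rotor

open MeasureTheory ProbabilityTheory Filter Topology

variable {d : ℕ}

/-- The averaging operator. -/
noncomputable def P (f : Site d → ℝ) (x : Site d) : ℝ :=
  (∑ e : Dir d, f (x + vec e)) / (2 * d)

theorem card_dir : Fintype.card (Dir d) = 2 * d := by
  simp [mul_comm]

theorem P_mono {f g : Site d → ℝ} {x : Site d} (h : ∀ e : Dir d, f (x + vec e) ≤ g (x + vec e)) :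
    P f x ≤ P g x :=
  div_le_div_of_nonneg_right (Finset.sum_le_sum fun e _ => h e) (by positivity)

theorem P_nonneg {f : Site d → ℝ} (h : ∀ y, 0 ≤ f y) (x : Site d) : 0 ≤ P f x :=
  div_nonneg (Finset.sum_nonneg fun _ _ => h _) (by positivity)

theorem P_const (hd : 0 < d) (c : ℝ) (x : Site d) : P (fun _ => c) x = c := by
  have : (0 : ℝ) < d := by exact_mod_cast hd
  simp only [P, Finset.sum_const, Finset.card_univ, card_dir, nsmul_eq_mul]
  push_cast
  field_simp

theorem P_sub (f g : Site d → ℝ) (x : Site d) : P (fun y => f y - g y) x = P f x - P g x := by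
  simp only [P, Finset.sum_sub_distrib, sub_div]

open Classical in
/-- Probability of hitting the origin within `k` steps and before leaving `D`. -/
noncomputable def hit (D : Set (Site d)) : ℕ → Site d → ℝ
  | 0, x => if x = 0 then 1 else 0
  | k + 1, x => if x = 0 then 1 else if x ∈ D then P (hit D k) x else 0

theorem hit_nonneg (D : Set (Site d)) (k : ℕ) (x : Site d) : 0 ≤ hit D k x := by
  induction k generalizing x with
  | zero => simp only [hit]; split_ifs <;> norm_num
  | succ k ih =>
    simp only [hit]; split_ifs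
    · norm_num
    · exact P_nonneg ih x
    · exact le_rfl

theorem hit_le_one (hd : 0 < d) (D : Set (Site d)) (k : ℕ) (x : Site d) : hit D k x ≤ 1 := by
  induction k generalizing x with
  | zero => simp only [hit]; split_ifs <;> norm_num
  | succ k ih =>
    simp only [hit]; split_ifs
    · norm_num
    · exact (P_mono fun e => ih _).trans (P_const hd 1 x).le
    · norm_num

theorem hit_succ (D : Set (Site d)) (k : ℕ) (x : Site d) : hit D k x ≤ hit D (k + 1) x := by
  induction k generalizing x with
  | zero =>
    have := hit_nonneg D 1 x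
    by_cases h : x = 0
    · simp [hit, h]
    · simpa [hit, h] using this
  | succ k ih =>
    rw [hit, hit]; split_ifs
    · exact le_rfl
    · exact P_mono fun e => ih _
    · exact le_rfl

theorem hit_le_univ (D : Set (Site d)) (k : ℕ) (x : Site d) : hit D k x ≤ hit Set.univ k x := by
  induction k generalizing x with
  | zero => exact le_rfl
  | succ k ih =>
    rw [hit, hit]; split_ifs with h1 h2 h3 h3
    · exact le_rfl
    · exact P_mono fun e => ih _
    · exact absurd trivial h3
    · exact P_nonneg (hit_nonneg _ _) _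
    · exact le_rfl

theorem abs_vec_le (e : Dir d) (i : Fin d) : |vec e i| ≤ 1 := by
  simp only [vec, Pi.single_apply]
  split_ifs <;> simp

theorem hit_eq_univ (D : Set (Site d)) (k : ℕ) (x : Site d)
    (h : ∀ y : Site d, (∀ i, |y i - x i| ≤ k) → y ∈ D) : hit D k x = hit Set.univ k x := by
  induction k generalizing x with
  | zero => rfl
  | succ k ih =>
    have hx : x ∈ D := h x (fun i => by simp; positivity)
    rw [hit, hit, if_pos hx, if_pos (Set.mem_univ x)]
    split_ifs
    · rfl
    · simp only [P]
      congr 1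
      refine Finset.sum_congr rfl fun e _ => ih _ fun y hy => h y fun i => ?_
      have h1 := hy i
      have h2 := abs_vec_le e i
      simp only [Pi.add_apply] at h1
      rw [abs_le] at h1 h2 ⊢
      push_cast
      constructor <;> linarith [h1.1, h1.2, h2.1, h2.2]

open Classical in
/-- The event of avoiding the origin during `k` steps, using the steps from index `s` on. -/
def Av : ℕ → ℕ → Site d → Set (ℕ → Dir d)
  | 0, _, x => if x = 0 then ∅ else Set.univ
  | k + 1, s, x => if x = 0 then ∅ else ⋃ e : Dir d, {ω | ω s = e} ∩ Av k (s + 1) (x + vec e)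

theorem mem_Av (k s : ℕ) (x : Site d) (ω : ℕ → Dir d) :
    ω ∈ Av k s x ↔ ∀ j ≤ k, x + ∑ i ∈ Finset.range j, vec (ω (s + i)) ≠ 0 := by
  induction k generalizing s x with
  | zero =>
    by_cases h : x = 0 <;> simp [Av, h]
  | succ k ih =>
    by_cases h : x = 0
    · simp only [Av, h, if_true, Set.mem_empty_iff_false, false_iff, not_forall]
      exact ⟨0, by simp, by simp⟩
    · simp only [Av, h, if_false, Set.mem_iUnion, Set.mem_inter_iff, Set.mem_ofPred_eq, ih]
      have key : ∀ j, x + ∑ i ∈ Finset.range (j + 1), vec (ω (s + i)) =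
          x + vec (ω s) + ∑ i ∈ Finset.range j, vec (ω (s + 1 + i)) := by
        intro j
        rw [Finset.sum_range_succ']
        simp only [add_zero]
        have : ∑ i ∈ Finset.range j, vec (ω (s + (i + 1))) =
            ∑ i ∈ Finset.range j, vec (ω (s + 1 + i)) :=
          Finset.sum_congr rfl fun i _ => by rw [show s + (i + 1) = s + 1 + i by omega]
        rw [this]
        abel
      constructor
      · rintro ⟨e, rfl, he⟩ j hj
        cases j with
        | zero => simpa using h
        | succ j => rw [key]; exact he j (by omega)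
      · intro hh
        refine ⟨ω s, rfl, fun j hj => ?_⟩
        rw [← key]; exact hh (j + 1) (by omega)

theorem meas_coord (s : ℕ) (e : Dir d) : MeasurableSet {ω : ℕ → Dir d | ω s = e} :=
  measurableSet_eq_fun (measurable_pi_apply s) measurable_const

theorem meas_Av (k s : ℕ) (x : Site d) : MeasurableSet (Av k s x) := by
  induction k generalizing s x with
  | zero => simp only [Av]; split_ifs <;> simp
  | succ k ih =>
    simp only [Av]; split_ifs
    · simp
    · exact MeasurableSet.iUnion fun e => (meas_coord s e).inter (ih _ _)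

theorem unif_single (hd : 0 < d) (e : Dir d) :
    uniformOn (Set.univ : Set (Dir d)) {e} = ENNReal.ofReal (1 / (2 * d)) := by
  rw [uniformOn_univ]
  have : (0 : ℝ) < d := by exact_mod_cast hd
  rw [ENNReal.ofReal_div_of_pos (by positivity)]
  simp only [Measure.count_singleton, card_dir, ENNReal.ofReal_one]
  congr 1
  rw [ENNReal.ofReal_mul (by norm_num)]
  simp

theorem srw_step (hd : 0 < d) (s : ℕ) (t : ℕ → Set (Dir d)) (B : Dir d → Set (ℕ → Dir d))
    (b : Dir d → ℝ) (hb : ∀ e, 0 ≤ b e) (hB : ∀ e, MeasurableSet (B e))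
    (h : ∀ e (t' : ℕ → Set (Dir d)), srw d (Set.pi (Finset.range (s + 1)) t' ∩ B e) =
      (∏ i ∈ Finset.range (s + 1), uniformOn (Set.univ : Set (Dir d)) (t' i)) *
        ENNReal.ofReal (b e)) :
    srw d (Set.pi (Finset.range s) t ∩ ⋃ e : Dir d, {ω | ω s = e} ∩ B e) =
      (∏ i ∈ Finset.range s, uniformOn (Set.univ : Set (Dir d)) (t i)) *
        ENNReal.ofReal ((∑ e, b e) / (2 * d)) := by
  have e1 : ∀ e : Dir d, Set.pi (Finset.range s) t ∩ ({ω | ω s = e} ∩ B e) =
      Set.pi (Finset.range (s + 1)) (Function.update t s {e}) ∩ B e := by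
    intro e
    ext ω
    simp only [Set.mem_inter_iff, Set.mem_pi, Finset.coe_range, Set.mem_Iio, Set.mem_ofPred_eq]
    constructor
    · rintro ⟨h1, h2, h3⟩
      refine ⟨fun i hi => ?_, h3⟩
      by_cases his : i = s
      · subst his; simpa using h2
      · rw [Function.update_of_ne his]; exact h1 i (by omega)
    · rintro ⟨h1, h3⟩
      refine ⟨fun i hi => ?_, by simpa using h1 s (by omega), h3⟩
      have := h1 i (by omega)
      rwa [Function.update_of_ne (by omega)] at this
  rw [Set.inter_iUnion, measure_iUnion]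
  · rw [tsum_fintype]
    simp only [e1, h, Finset.prod_range_succ, Function.update_self, unif_single hd]
    have e2 : ∀ e : Dir d, ∏ i ∈ Finset.range s,
        uniformOn (Set.univ : Set (Dir d)) (Function.update t s {e} i) =
        ∏ i ∈ Finset.range s, uniformOn (Set.univ : Set (Dir d)) (t i) := by
      intro e
      refine Finset.prod_congr rfl fun i hi => ?_
      rw [Function.update_of_ne (by simp at hi; omega)]
    simp only [e2, mul_assoc, ← Finset.mul_sum]
    congr 1
    rw [← ENNReal.ofReal_sum_of_nonneg (fun e _ => hb e), ← ENNReal.ofReal_mul (by positivity)]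
    congr 1
    ring
  · intro e e' hne
    rw [Function.onFun, Set.disjoint_left]
    rintro ω ⟨-, h1, -⟩ ⟨-, h2, -⟩
    exact hne (h1.symm.trans h2)
  · intro e
    refine MeasurableSet.inter ?_ ((meas_coord s e).inter (hB e))
    exact MeasurableSet.pi (Finset.countable_toSet _) fun i _ => (Set.toFinite _).measurableSet

theorem srw_Av (hd : 0 < d) (k s : ℕ) (x : Site d) (t : ℕ → Set (Dir d)) :
    srw d (Set.pi (Finset.range s) t ∩ Av k s x) =
      (∏ i ∈ Finset.range s, uniformOn (Set.univ : Set (Dir d)) (t i)) *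
        ENNReal.ofReal (1 - hit Set.univ k x) := by
  have : Nonempty (Dir d) := ⟨(⟨0, hd⟩, true)⟩
  induction k generalizing s x t with
  | zero =>
    by_cases h : x = 0
    · simp [Av, hit, h]
    · simp only [Av, hit, h, if_false, Set.inter_univ, sub_zero, ENNReal.ofReal_one, mul_one]
      exact Measure.infinitePi_pi _ fun i _ => (Set.toFinite _).measurableSet
  | succ k ih =>
    by_cases h : x = 0
    · simp [Av, hit, h]
    · simp only [Av, hit, h, if_false, Set.mem_univ, if_true]
      rw [srw_step hd s t _ (fun e => 1 - hit Set.univ k (x + vec e))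
        (fun e => sub_nonneg.mpr (hit_le_one hd _ _ _)) (fun e => meas_Av _ _ _)
        (fun e t' => ih _ _ _)]
      congr 2
      have := P_sub (fun _ => 1) (hit Set.univ k) x
      rw [P_const hd] at this
      exact this

theorem tendsto_escape (hd : 0 < d) :
    Tendsto (fun k => 1 - P (hit (Set.univ : Set (Site d)) k) 0) atTop (𝓝 (escapeProb d)) := by
  have : Nonempty (Dir d) := ⟨(⟨0, hd⟩, true)⟩
  have hprob : IsProbabilityMeasure (srw d) := by unfold srw; infer_instance
  let E : ℕ → Set (ℕ → Dir d) := fun k => ⋃ e : Dir d, {ω | ω 0 = e} ∩ Av k 1 (0 + vec e)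
  have hE : ∀ k ω, ω ∈ E k ↔ ∀ j ≤ k, ∑ i ∈ Finset.range (j + 1), vec (ω i) ≠ 0 := by
    intro k ω
    simp only [E, Set.mem_iUnion, Set.mem_inter_iff, Set.mem_ofPred_eq, mem_Av]
    have key : ∀ j, ∑ i ∈ Finset.range (j + 1), vec (ω i) =
        0 + vec (ω 0) + ∑ i ∈ Finset.range j, vec (ω (1 + i)) := by
      intro j
      rw [Finset.sum_range_succ']
      simp only [add_comm 1]
      abel
    constructor
    · rintro ⟨e, rfl, he⟩ j hj
      rw [key]; exact he j hj
    · intro hh
      exact ⟨ω 0, rfl, fun j hj => by rw [← key]; exact hh j hj⟩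
  have hmeas : ∀ k, MeasurableSet (E k) := fun k =>
    MeasurableSet.iUnion fun e => (meas_coord 0 e).inter (meas_Av _ _ _)
  have hval : ∀ k, srw d (E k) = ENNReal.ofReal (1 - P (hit (Set.univ : Set (Site d)) k) 0) := by
    intro k
    have := srw_step hd 0 (fun _ => Set.univ) (fun e => Av k 1 (0 + vec e))
      (fun e => 1 - hit Set.univ k (0 + vec e))
      (fun e => sub_nonneg.mpr (hit_le_one hd _ _ _)) (fun e => meas_Av _ _ _)
      (fun e t' => srw_Av hd _ _ _ _)
    simp only [Finset.range_zero, Finset.coe_empty, Set.empty_pi, Set.univ_inter,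
      Finset.prod_empty, one_mul] at this
    rw [this]
    congr 1
    have h2 := P_sub (fun _ => 1) (hit Set.univ k) (0 : Site d)
    rw [P_const hd] at h2
    exact h2
  have hanti : Antitone E := by
    intro k k' hk ω hω
    rw [hE] at hω ⊢
    exact fun j hj => hω j (hj.trans hk)
  have hlim := tendsto_measure_iInter_atTop (μ := srw d)
    (fun k => (hmeas k).nullMeasurableSet) hanti ⟨0, measure_ne_top _ _⟩
  have hint : ⋂ k, E k = {ω | ∀ k, 1 ≤ k → ∑ i ∈ Finset.range k, vec (ω i) ≠ 0} := by
    ext ω
    simp only [Set.mem_iInter, hE, Set.mem_ofPred_eq]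
    constructor
    · intro h k hk
      obtain ⟨j, rfl⟩ : ∃ j, k = j + 1 := ⟨k - 1, by omega⟩
      exact h j j le_rfl
    · intro h k j _
      exact h (j + 1) (by omega)
  rw [hint] at hlim
  have h2 := (ENNReal.tendsto_toReal (measure_ne_top _ _)).comp hlim
  refine h2.congr fun k => ?_
  simp only [Function.comp, hval]
  apply ENNReal.toReal_ofReal
  exact sub_nonneg.mpr ((P_mono fun e => hit_le_one hd _ _ _).trans (P_const hd 1 _).le)

theorem escape_le (hd : 0 < d) (k : ℕ) :
    escapeProb d ≤ 1 - P (hit (Set.univ : Set (Site d)) k) 0 := by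
  have hanti : Antitone (fun k => 1 - P (hit (Set.univ : Set (Site d)) k) 0) := by
    apply antitone_nat_of_succ_le
    intro k
    exact sub_le_sub_left (P_mono fun e => hit_succ _ _ _) _
  exact hanti.le_of_tendsto (tendsto_escape hd) k

/-- The solution of the Dirichlet problem. -/
structure Sol (D : Finset (Site d)) (g : Site d → ℝ) : Prop where
  zero : g 0 = 1
  out : ∀ x, x ∉ D → g x = 0
  harm : ∀ x ∈ D, x ≠ 0 → P g x = g x
  nonneg : ∀ x, 0 ≤ g x
  le_one : ∀ x, g x ≤ 1
  lower : escapeProb d ≤ 1 - P g 0
  upper : ∀ k : ℕ, (∀ y : Site d, (∀ i, |y i| ≤ k + 1) → y ∈ D) →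
    1 - P g 0 ≤ 1 - P (hit (Set.univ : Set (Site d)) k) 0

theorem exists_sol (hd : 0 < d) (D : Finset (Site d)) (h0 : 0 ∈ D) : ∃ g, Sol D g := by
  have hmono : ∀ x, Monotone (fun k => hit (D : Set (Site d)) k x) := fun x =>
    monotone_nat_of_le_succ fun k => hit_succ _ _ _
  have hbdd : ∀ x, BddAbove (Set.range fun k => hit (D : Set (Site d)) k x) := fun x =>
    ⟨1, by rintro _ ⟨k, rfl⟩; exact hit_le_one hd _ _ _⟩
  let g : Site d → ℝ := fun x => ⨆ k, hit (D : Set (Site d)) k x
  have hlim : ∀ x, Tendsto (fun k => hit (D : Set (Site d)) k x) atTop (𝓝 (g x)) := fun x =>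
    tendsto_atTop_ciSup (hmono x) (hbdd x)
  have hP : ∀ x, Tendsto (fun k => P (hit (D : Set (Site d)) k) x) atTop (𝓝 (P g x)) := fun x =>
    (tendsto_finsetSum _ fun e _ => hlim _).div_const _
  have hle : ∀ k x, hit (D : Set (Site d)) k x ≤ g x := fun k x => le_ciSup (hbdd x) k
  refine ⟨g, ?_, ?_, ?_, ?_, ?_, ?_, ?_⟩
  · refine tendsto_nhds_unique (hlim 0) (tendsto_const_nhds.congr fun k => ?_)
    cases k <;> simp [hit]
  · intro x hx
    have hx0 : x ≠ 0 := fun h => hx (h ▸ h0)
    refine tendsto_nhds_unique (hlim x) (tendsto_const_nhds.congr fun k => ?_)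
    cases k <;> simp [hit, hx, hx0]
  · intro x hx hx0
    refine tendsto_nhds_unique (hP x) (((hlim x).comp (tendsto_add_atTop_nat 1)).congr fun k => ?_)
    simp [hit, hx, hx0]
  · exact fun x => (hit_nonneg _ 0 x).trans (hle 0 x)
  · exact fun x => ciSup_le fun k => hit_le_one hd _ _ _
  · refine ge_of_tendsto' (tendsto_const_nhds.sub (hP 0)) fun k => ?_
    exact (escape_le hd k).trans (sub_le_sub_left (P_mono fun e => hit_le_univ _ _ _) _)
  · intro k hk
    refine sub_le_sub_left (P_mono fun e => ?_) _
    rw [← hit_eq_univ (D : Set (Site d)) k]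
    · exact hle _ _
    · intro y hy
      refine hk y fun i => ?_
      have h1 := hy i
      have h2 := abs_vec_le e i
      simp only [zero_add] at h1
      rw [abs_le] at h1 h2 ⊢
      constructor <;> linarith [h1.1, h1.2, h2.1, h2.2]

end Pool.Agent.H515Z.Rotor
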