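import Mathlib
import Pool.Agent.H515Z.RotorProb

set_option autoImplicit false

/-! Green identities and energy estimates. -/

namespace Pool.Agent.H515Z.Rotor

variable {d : ℕ}

/-- The opposite direction. -/
def opp : Dir d ≃ Dir d where
  toFun e := (e.1, !e.2)
  invFun e := (e.1, !e.2)
  left_inv e := by simp
  right_inv e := by simp

theorem vec_opp (e : Dir d) : vec (opp e) = -vec e := by
  obtain ⟨i, b⟩ := e
  funext j
  cases b <;> simp [vec, opp, Pi.single_apply] <;> split_ifs <;> simp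

/-- `W` contains `D` and its neighbours. -/
def Nbr (D W : Finset (Site d)) : Prop := ∀ x ∈ D, x ∈ W ∧ ∀ e : Dir d, x + vec e ∈ W

theorem Nbr.sub {D W : Finset (Site d)} (h : Nbr D W) : D ⊆ W := fun x hx => (h x hx).1

theorem Nbr.out {D W : Finset (Site d)} (h : Nbr D W) {x : Site d} (hx : x ∉ W) (e : Dir d) :
    x + vec e ∉ D := by
  intro hh
  apply hx
  have := (h _ hh).2 (opp e)
  rwa [vec_opp, add_neg_cancel_right] at this

theorem green {D W : Finset (Site d)} (hW : Nbr D W) (φ g : Site d → ℝ)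
    (hg : ∀ x, x ∉ D → g x = 0) :
    ∑ x ∈ W, φ x * P g x = ∑ x ∈ D, g x * P φ x := by
  classical
  have key : ∀ e : Dir d, ∑ x ∈ W, φ x * g (x + vec e) =
      ∑ y ∈ D, g y * φ (y + vec (opp e)) := by
    intro e
    have h1 : D.image (fun y => y + vec (opp e)) ⊆ W := by
      intro x hx
      obtain ⟨y, hy, rfl⟩ := Finset.mem_image.mp hx
      exact (hW y hy).2 _
    rw [← Finset.sum_subset h1, Finset.sum_image (fun a _ b _ hab => add_right_cancel hab)]
    · refine Finset.sum_congr rfl fun y _ => ?_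
      rw [vec_opp, neg_add_cancel_right, mul_comm]
    · intro x _ hx
      rw [hg, mul_zero]
      intro hh
      apply hx
      exact Finset.mem_image.mpr ⟨_, hh, by rw [vec_opp, add_neg_cancel_right]⟩
  simp only [P, ← mul_div_assoc, Finset.mul_sum, ← Finset.sum_div]
  congr 1
  rw [Finset.sum_comm, Finset.sum_comm (s := D)]
  simp only [key]
  exact Equiv.sum_comp opp (fun e => ∑ y ∈ D, g y * φ (y + vec e))

theorem sum_dir (hd : 0 < d) (f : Site d → ℝ) (x : Site d) :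
    ∑ e : Dir d, f (x + vec e) = 2 * d * P f x := by
  have : (0 : ℝ) < d := by exact_mod_cast hd
  rw [P]; field_simp

theorem energy (hd : 0 < d) {D W : Finset (Site d)} (hW : Nbr D W) (h : Site d → ℝ)
    (hh : ∀ x, x ∉ D → h x = 0) :
    ∑ x ∈ W, ∑ e : Dir d, (h (x + vec e) - h x) ^ 2 =
      4 * d * ∑ x ∈ D, h x * (h x - P h x) := by
  have e1 : ∀ x, ∑ e : Dir d, (h (x + vec e) - h x) ^ 2 =
      2 * d * (1 * P (fun y => h y ^ 2) x - 2 * (h x * P h x) + h x ^ 2) := by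
    intro x
    have : ∀ e : Dir d, (h (x + vec e) - h x) ^ 2 =
        h (x + vec e) ^ 2 - 2 * h x * h (x + vec e) + h x ^ 2 := fun e => by ring
    simp only [this, Finset.sum_add_distrib, Finset.sum_sub_distrib, ← Finset.mul_sum,
      Finset.sum_const, Finset.card_univ, card_dir, nsmul_eq_mul]
    rw [sum_dir hd (fun y => h y ^ 2), sum_dir hd h]
    push_cast
    ring
  simp only [e1, ← Finset.mul_sum, Finset.sum_add_distrib, Finset.sum_sub_distrib]
  have g1 := green hW (fun _ => 1) (fun y => h y ^ 2) (fun x hx => by simp [hh x hx])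
  rw [← Finset.mul_sum] at g1
  rw [g1, green hW h h hh, ← Finset.sum_subset hW.sub (f := fun x => h x ^ 2)
      (fun x _ hx => by simp [hh x hx])]
  simp only [P_const hd, mul_sub, Finset.sum_sub_distrib, mul_one, sq]
  ring

theorem Sol.sum_lap {D : Finset (Site d)} {g : Site d → ℝ} (hg : Sol D g) (h0 : 0 ∈ D)
    (φ : Site d → ℝ) : ∑ x ∈ D, φ x * (g x - P g x) = φ 0 * (1 - P g 0) := by
  rw [Finset.sum_eq_single 0]
  · rw [hg.zero]
  · intro x hx hx0
    rw [hg.harm x hx hx0, sub_self, mul_zero]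
  · intro h; exact absurd h0 h

theorem energy_diff (hd : 0 < d) {D D0 W : Finset (Site d)} (hW : Nbr D W) (hD : D0 ⊆ D)
    (h0 : 0 ∈ D0) {g g0 : Site d → ℝ} (hg : Sol D g) (hg0 : Sol D0 g0) :
    ∑ x ∈ W, ∑ e : Dir d, ((g (x + vec e) - g0 (x + vec e)) - (g x - g0 x)) ^ 2 =
      4 * d * ((1 - P g0 0) - (1 - P g 0)) := by
  have out0 : ∀ x, x ∉ D → g0 x = 0 := fun x hx => hg0.out x fun h => hx (hD h)
  rw [energy hd hW (fun x => g x - g0 x) (fun x hx => by rw [hg.out x hx, out0 x hx, sub_self])]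
  congr 1
  have e1 : ∀ x, (g x - g0 x) * (g x - g0 x - P (fun x => g x - g0 x) x) =
      (g x - g0 x) * (g x - P g x) - g x * g0 x + g x * P g0 x + g0 x * (g0 x - P g0 x) := by
    intro x; rw [P_sub]; ring
  simp only [e1, Finset.sum_add_distrib, Finset.sum_sub_distrib]
  have a1 := hg.sum_lap (hD h0) (fun x => g x - g0 x)
  have a2 : ∑ x ∈ D, g x * P g0 x = ∑ x ∈ D, g0 x * P g x := by
    rw [← green hW g g0 out0]
    exact Finset.sum_subset hW.sub fun x _ hx => by rw [hg.out x hx, zero_mul]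
  have a3 := hg.sum_lap (hD h0) g0
  have a4 : ∑ x ∈ D, g0 x * (g0 x - P g0 x) = g0 0 * (1 - P g0 0) := by
    rw [← hg0.sum_lap h0 g0]
    exact (Finset.sum_subset hD fun x _ hx => by rw [hg0.out x hx, zero_mul]).symm
  simp only [mul_sub, Finset.sum_sub_distrib, hg.zero, hg0.zero] at a1 a3 a4 ⊢
  have a5 : ∑ x ∈ D, g x * g0 x = ∑ x ∈ D, g0 x * g x :=
    Finset.sum_congr rfl fun x _ => mul_comm _ _
  linarith

theorem Sol.boundary {D W : Finset (Site d)} (hW : Nbr D W) {g : Site d → ℝ} (hg : Sol D g)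
    (h0 : 0 ∈ D) (φ : Site d → ℝ) (hφ : ∀ x, P φ x = φ x) :
    ∑ x ∈ W \ D, φ x * P g x = φ 0 * (1 - P g 0) := by
  have a1 := green hW φ g hg.out
  have a2 := hg.sum_lap h0 φ
  have a3 := Finset.sum_sdiff hW.sub (f := fun x => φ x * P g x)
  simp only [hφ, mul_sub, Finset.sum_sub_distrib] at a1 a2 ⊢
  have a5 : ∑ x ∈ D, g x * φ x = ∑ x ∈ D, φ x * g x :=
    Finset.sum_congr rfl fun x _ => mul_comm _ _
  linarith

theorem sum_sq_coord (x : Site d) (i : Fin d) :
    ∑ e : Dir d, (((x + vec e) i : ℤ) : ℝ) ^ 2 = 2 * d * (x i : ℝ) ^ 2 + 2 := by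
  rw [Fintype.sum_prod_type]
  have : ∀ j : Fin d, ∑ b : Bool, (((x + vec (j, b)) i : ℤ) : ℝ) ^ 2 =
      2 * (x i : ℝ) ^ 2 + if i = j then 2 else 0 := by
    intro j
    by_cases h : i = j
    · subst h
      simp [vec]; ring
    · simp [vec, h]
  simp only [this, Finset.sum_add_distrib, Finset.sum_const, Finset.card_univ, Fintype.card_fin,
    nsmul_eq_mul, Finset.sum_ite_eq, Finset.mem_univ, if_true]
  ring

theorem harm_psi (hd : 0 < d) (i j : Fin d) (x : Site d) :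
    P (fun y : Site d => (y i : ℝ) ^ 2 - (y j : ℝ) ^ 2) x = (x i : ℝ) ^ 2 - (x j : ℝ) ^ 2 := by
  have : (0 : ℝ) < d := by exact_mod_cast hd
  simp only [P, Finset.sum_sub_distrib, sum_sq_coord]
  field_simp
  ring

theorem Sol.top (hd : 0 < d) {D W : Finset (Site d)} (hW : Nbr D W) {g : Site d → ℝ}
    (hg : Sol D g) (h0 : 0 ∈ D) (i j : Fin d) (L R : ℝ) (hR : 0 ≤ R)
    (hL : ∀ x ∈ W, |(x j : ℝ)| ≤ L) :
    R ^ 2 * ∑ x ∈ (W \ D).filter (fun x => R ≤ |(x i : ℝ)|), P g x ≤ L ^ 2 := by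
  have b1 := hg.boundary hW h0 _ (harm_psi hd i j)
  have b2 := hg.boundary hW h0 (fun _ => 1) (P_const hd 1)
  have hP : ∀ x, 0 ≤ P g x := P_nonneg hg.nonneg
  simp only [Pi.zero_apply, Int.cast_zero, sub_self, zero_mul, one_mul] at b1 b2
  calc R ^ 2 * ∑ x ∈ (W \ D).filter (fun x => R ≤ |(x i : ℝ)|), P g x
      = ∑ x ∈ (W \ D).filter (fun x => R ≤ |(x i : ℝ)|), R ^ 2 * P g x := Finset.mul_sum _ _ _
    _ ≤ ∑ x ∈ (W \ D).filter (fun x => R ≤ |(x i : ℝ)|), (x i : ℝ) ^ 2 * P g x := by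
        refine Finset.sum_le_sum fun x hx => mul_le_mul_of_nonneg_right ?_ (hP x)
        have := (Finset.mem_filter.mp hx).2
        rw [← sq_abs (x i : ℝ)]
        exact pow_le_pow_left₀ hR this 2
    _ ≤ ∑ x ∈ W \ D, (x i : ℝ) ^ 2 * P g x :=
        Finset.sum_le_sum_of_subset_of_nonneg (Finset.filter_subset _ _)
          fun x _ _ => mul_nonneg (sq_nonneg _) (hP x)
    _ ≤ ∑ x ∈ W \ D, (((x i : ℝ) ^ 2 - (x j : ℝ) ^ 2) * P g x + L ^ 2 * P g x) := by
        refine Finset.sum_le_sum fun x hx => ?_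
        have h1 := hL x (Finset.mem_sdiff.mp hx).1
        have h2 : (x j : ℝ) ^ 2 ≤ L ^ 2 := by
          rw [← sq_abs (x j : ℝ)]
          exact pow_le_pow_left₀ (abs_nonneg _) h1 2
        nlinarith [hP x]
    _ = L ^ 2 * (1 - P g 0) := by
        rw [Finset.sum_add_distrib, b1, ← Finset.mul_sum, b2, zero_add]
    _ ≤ L ^ 2 := by nlinarith [hP 0, sq_nonneg L]

end Pool.Agent.H515Z.Rotor
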