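import Mathlib
import Pool.Agent.H515Z.RotorEnergy

set_option autoImplicit false

/-! Combinatorics of rotor walks. -/

namespace Pool.Agent.H515Z.Rotor

variable {d : ℕ} (m : Site d → Equiv.Perm (Dir d)) (ρ : Site d → Dir d)

/-- The position at time `k`. -/
def pos (k : ℕ) : Site d := (walk m ρ k).1

/-- The number of visits to `x` before time `k`. -/
def N (k : ℕ) (x : Site d) : ℕ := ((Finset.range k).filter (fun i => pos m ρ i = x)).card

theorem walk_succ (k : ℕ) : walk m ρ (k + 1) = step m (walk m ρ k) :=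
  Function.iterate_succ_apply' _ _ _

theorem pos_zero : pos m ρ 0 = 0 := rfl

theorem N_succ (k : ℕ) (x : Site d) :
    N m ρ (k + 1) x = N m ρ k x + if pos m ρ k = x then 1 else 0 := by
  rw [N, N, Finset.range_add_one, Finset.filter_insert]
  split_ifs with h
  · rw [Finset.card_insert_of_notMem (by simp)]
  · rfl

theorem rot_eq (k : ℕ) (x : Site d) : (walk m ρ k).2 x = (m x ^ N m ρ k x) (ρ x) := by
  induction k with
  | zero => simp [N, walk]
  | succ k ih =>
    rw [walk_succ, N_succ, step]
    by_cases h : pos m ρ k = x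
    · have h' : (walk m ρ k).1 = x := h
      simp only [h', h, if_true, Function.update_self, ih, pow_succ', Equiv.Perm.mul_apply]
    · have h' : x ≠ (walk m ρ k).1 := fun e => h e.symm
      simp only [h, if_false, Function.update_of_ne h', ih, add_zero]

theorem pos_succ (k : ℕ) : pos m ρ (k + 1) =
    pos m ρ k + vec ((m (pos m ρ k) ^ N m ρ k (pos m ρ k)) (ρ (pos m ρ k))) := by
  rw [← rot_eq, pos, walk_succ]; rfl

theorem N_mono (x : Site d) : Monotone (fun k => N m ρ k x) :=
  monotone_nat_of_le_succ fun k => by rw [N_succ]; omega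

theorem N_lt {i j : ℕ} (h : i < j) : N m ρ i (pos m ρ i) < N m ρ j (pos m ρ i) := by
  have h1 : N m ρ (i + 1) (pos m ρ i) ≤ N m ρ j (pos m ρ i) := N_mono m ρ _ h
  rw [N_succ, if_pos rfl] at h1
  omega

theorem pow_eq_iff {σ : Equiv.Perm (Dir d)} (hσ : σ.IsCycleOn Set.univ) (e : Dir d) (a b : ℕ) :
    (σ ^ a) e = (σ ^ b) e ↔ a ≡ b [MOD 2 * d] := by
  have h : σ.IsCycleOn ((Finset.univ : Finset (Dir d)) : Set (Dir d)) := by simpa using hσ
  rw [h.pow_apply_eq_pow_apply (Finset.mem_univ e), Finset.card_univ, card_dir]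

variable {m} (hm : ∀ x, (m x).IsCycleOn Set.univ) (hd : 0 < d)
include hm hd

theorem N_le (k : ℕ) (hk : ∀ i, 1 ≤ i → i < k → pos m ρ i ≠ 0) (x : Site d) :
    N m ρ k x ≤ 2 * d := by
  induction k generalizing x with
  | zero => simp [N]
  | succ k ih =>
    have ih' := ih fun i h1 h2 => hk i h1 (by omega)
    by_cases hx : x = 0
    · have : (Finset.range (k + 1)).filter (fun i => pos m ρ i = x) ⊆ {0} := by
        intro i hi
        rw [Finset.mem_filter, Finset.mem_range] at hi
        rw [Finset.mem_singleton]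
        by_contra h
        exact hk i (by omega) hi.1 (hi.2.trans hx)
      have := Finset.card_le_card this
      rw [Finset.card_singleton] at this
      unfold N; omega
    · rw [← card_dir, ← Finset.card_univ]
      let dir : ℕ → Dir d := fun i => (m (pos m ρ i) ^ N m ρ i (pos m ρ i)) (ρ (pos m ρ i))
      have key : ∀ i j, i < j → j < k → pos m ρ (i + 1) = x → pos m ρ (j + 1) = x →
          dir i ≠ dir j := by
        intro i j hij hj h1 h2 h3
        rw [pos_succ] at h1 h2
        have h4 : pos m ρ i = pos m ρ j := by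
          have h5 : pos m ρ i + vec (dir i) = pos m ρ j + vec (dir j) := h1.trans h2.symm
          rw [h3] at h5
          exact add_right_cancel h5
        have a1 := N_lt m ρ hij
        have a2 := N_lt m ρ hj
        have a3 := ih' (pos m ρ j)
        simp only [dir] at h3
        rw [h4] at h3 a1
        rw [pow_eq_iff (hm _)] at h3
        have := Nat.ModEq.eq_of_lt_of_lt h3 (by omega) (by omega)
        omega
      refine Finset.card_le_card_of_injOn (fun i => dir (i - 1)) (fun _ _ => by simp) ?_
      intro i hi j hj hij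
      simp only [Finset.coe_filter, Finset.mem_range, Set.mem_ofPred_eq] at hi hj
      have i0 : i ≠ 0 := fun h => hx (by rw [← hi.2, h]; rfl)
      have j0 : j ≠ 0 := fun h => hx (by rw [← hj.2, h]; rfl)
      obtain ⟨i, rfl⟩ := Nat.exists_eq_succ_of_ne_zero i0
      obtain ⟨j, rfl⟩ := Nat.exists_eq_succ_of_ne_zero j0
      simp only [Nat.succ_eq_add_one, Nat.add_sub_cancel] at hij hi hj
      rcases lt_trichotomy i j with h | h | h
      · exact absurd hij (key i j h (by omega) hi.2 hj.2)
      · rw [h]
      · exact absurd hij.symm (key j i h (by omega) hj.2 hi.2)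

theorem finite_visits (h : ¬ Returns m ρ) (x : Site d) : {k | (walk m ρ k).1 = x}.Finite := by
  by_contra hinf
  obtain ⟨t, ht, hcard⟩ := Set.Infinite.exists_subset_card_eq hinf (2 * d + 1)
  have h1 := N_le ρ hm hd (t.sup id + 1) (fun i h1 _ h2 => h ⟨i, h1, h2⟩) x
  have h2 : t ⊆ (Finset.range (t.sup id + 1)).filter (fun i => pos m ρ i = x) := by
    intro i hi
    rw [Finset.mem_filter, Finset.mem_range]
    exact ⟨Nat.lt_succ_of_le (Finset.le_sup (f := id) hi), ht hi⟩
  have := Finset.card_le_card h2
  unfold N at h1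
  omega

omit hm hd in
open Classical in
/-- The number of exits from `x` made by one particle. -/
noncomputable def ex (m : Site d → Equiv.Perm (Dir d)) (ρ : Site d → Dir d) (x : Site d) : ℕ :=
  if h : Returns m ρ then N m ρ (Nat.find h) x else Set.ncard {k | (walk m ρ k).1 = x}

omit hm hd in
theorem next_eq (x : Site d) : next m ρ x = (m x ^ ex m ρ x) (ρ x) := by
  unfold next ex
  split_ifs with h
  · exact rot_eq _ _ _ _
  · rfl

theorem stop (W : Finset (Site d)) : ∃ k, (∀ i, 1 ≤ i → i < k → pos m ρ i ≠ 0) ∧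
    (∀ x ∈ W, N m ρ k x = ex m ρ x) ∧
    (Returns m ρ → pos m ρ k = 0) ∧ (¬ Returns m ρ → pos m ρ k ∉ W) := by
  classical
  by_cases h : Returns m ρ
  · refine ⟨Nat.find h, fun i h1 h2 h3 => Nat.find_min h h2 ⟨h1, h3⟩, fun x _ => ?_,
      fun _ => (Nat.find_spec h).2, fun h' => absurd h h'⟩
    rw [ex, dif_pos h]
  · have hfin : (⋃ x ∈ W, {k | (walk m ρ k).1 = x}).Finite :=
      W.finite_toSet.biUnion fun x _ => finite_visits ρ hm hd h x
    obtain ⟨b, hb⟩ := hfin.bddAbove
    have hb' : ∀ k, pos m ρ k ∈ W → k ≤ b := fun k hk =>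
      hb (Set.mem_biUnion (Finset.mem_coe.mpr hk) rfl)
    refine ⟨b + 1, fun i h1 _ h2 => h ⟨i, h1, h2⟩, fun x hx => ?_, fun h' => absurd h' h,
      fun _ hk => ?_⟩
    · rw [ex, dif_neg h, N, ← Set.ncard_coe_finset]
      congr 1
      ext k
      simp only [Finset.coe_filter, Finset.mem_range, Set.mem_ofPred_eq]
      constructor
      · exact fun hh => hh.2
      · intro hh
        have : pos m ρ k = x := hh
        exact ⟨Nat.lt_succ_of_le (hb' k (this ▸ hx)), hh⟩
    · have := hb' _ hk
      omega

/-- Sanity check: for an escaping particle the new configuration is the limit configuration. -/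
theorem next_eventually (h : ¬ Returns m ρ) (x : Site d) :
    ∃ K, ∀ k, K ≤ k → (walk m ρ k).2 x = next m ρ x := by
  obtain ⟨b, hb⟩ := (finite_visits ρ hm hd h x).bddAbove
  refine ⟨b + 1, fun k hk => ?_⟩
  rw [rot_eq, next_eq, ex, dif_neg h, N, ← Set.ncard_coe_finset]
  congr 3
  ext i
  simp only [Finset.coe_filter, Finset.mem_range, Set.mem_ofPred_eq]
  exact ⟨fun hh => hh.2, fun hh => ⟨lt_of_lt_of_le (Nat.lt_succ_of_le (hb hh)) hk, hh⟩⟩

theorem ex_le (x : Site d) : ex m ρ x ≤ 2 * d := by
  obtain ⟨k, h1, h2, -⟩ := stop ρ hm hd {x}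
  rw [← h2 x (by simp)]
  exact N_le ρ hm hd k h1 x

theorem ex_zero : ex m ρ 0 = 1 := by
  obtain ⟨k, h1, h2, h3, h4⟩ := stop ρ hm hd {0}
  classical
  unfold ex
  split_ifs with h
  · rw [N, Finset.card_eq_one]
    refine ⟨0, ?_⟩
    ext i
    simp only [Finset.mem_filter, Finset.mem_range, Finset.mem_singleton]
    constructor
    · rintro ⟨a, b⟩
      by_contra hi
      exact Nat.find_min h a ⟨by omega, b⟩
    · rintro rfl
      exact ⟨(Nat.find_spec h).1, rfl⟩
  · rw [Set.ncard_eq_one]
    refine ⟨0, ?_⟩
    ext i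
    simp only [Set.mem_ofPred_eq, Set.mem_singleton_iff]
    constructor
    · intro b
      by_contra hi
      exact h ⟨i, by omega, b⟩
    · rintro rfl; rfl

theorem ex_pos {x : Site d} (h : ex m ρ x ≠ 0) : ∃ k, pos m ρ k = x := by
  obtain ⟨k, -, h2, -⟩ := stop ρ hm hd {x}
  rw [← h2 x (by simp), N] at h
  obtain ⟨i, hi⟩ := Finset.card_ne_zero.mp h
  exact ⟨i, (Finset.mem_filter.mp hi).2⟩

omit hm hd in
theorem tele_time {D W : Finset (Site d)} (hW : Nbr D W) (g : Site d → ℝ)
    (hg : ∀ x, x ∉ D → g x = 0) (k : ℕ) :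
    ∑ x ∈ W, ∑ i ∈ Finset.range (N m ρ k x), (g (x + vec ((m x ^ i) (ρ x))) - g x) =
      g (pos m ρ k) - g 0 := by
  induction k with
  | zero => simp [N, pos_zero]
  | succ k ih =>
    have e1 : ∀ x, ∑ i ∈ Finset.range (N m ρ (k + 1) x), (g (x + vec ((m x ^ i) (ρ x))) - g x) =
        ∑ i ∈ Finset.range (N m ρ k x), (g (x + vec ((m x ^ i) (ρ x))) - g x) +
          if pos m ρ k = x then g (pos m ρ (k + 1)) - g (pos m ρ k) else 0 := by
      intro x
      rw [N_succ]
      split_ifs with h
      · rw [Finset.sum_range_succ, pos_succ, h]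
      · simp
    simp only [e1, Finset.sum_add_distrib, ih, Finset.sum_ite_eq]
    split_ifs with h
    · ring
    · rw [hg _ (fun hh => h (hW.sub hh)), pos_succ, hg _ (hW.out h _)]
      ring

open Classical in
theorem tele_one {D W : Finset (Site d)} (hW : Nbr D W) (g : Site d → ℝ)
    (hg : ∀ x, x ∉ D → g x = 0) :
    ∑ x ∈ W, ∑ i ∈ Finset.range (ex m ρ x), (g (x + vec ((m x ^ i) (ρ x))) - g x) =
      if Returns m ρ then 0 else -g 0 := by
  obtain ⟨k, -, h2, h3, h4⟩ := stop ρ hm hd W
  rw [Finset.sum_congr rfl fun x hx => by rw [← h2 x hx], tele_time ρ hW g hg]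
  split_ifs with h
  · rw [h3 h, sub_self]
  · rw [hg _ (fun hh => h4 h (hW.sub hh)), zero_sub]

omit hm hd in
/-- The total number of exits from `x` made by the first `n` particles. -/
noncomputable def U (m : Site d → Equiv.Perm (Dir d)) (ρ : Site d → Dir d) (n : ℕ) (x : Site d) :
    ℕ := ∑ j ∈ Finset.range n, ex m ((next m)^[j] ρ) x

omit hm hd in
theorem cfg_eq (n : ℕ) (x : Site d) : (next m)^[n] ρ x = (m x ^ U m ρ n x) (ρ x) := by
  induction n with
  | zero => simp [U]
  | succ n ih =>
    rw [Function.iterate_succ_apply', next_eq, ih, U, U, Finset.sum_range_succ, add_comm, pow_add]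
    rfl

theorem U_le (n : ℕ) (x : Site d) : U m ρ n x ≤ 2 * d * n := by
  calc U m ρ n x ≤ ∑ _j ∈ Finset.range n, 2 * d := Finset.sum_le_sum fun j _ => ex_le _ hm hd x
    _ = 2 * d * n := by simp [mul_comm]

theorem U_zero (n : ℕ) : U m ρ n 0 = n := by
  simp [U, ex_zero _ hm hd]

theorem tele {D W : Finset (Site d)} (hW : Nbr D W) (g : Site d → ℝ)
    (hg : ∀ x, x ∉ D → g x = 0) (n : ℕ) :
    ∑ x ∈ W, ∑ i ∈ Finset.range (U m ρ n x), (g (x + vec ((m x ^ i) (ρ x))) - g x) =
      -(escapes m ρ n : ℝ) * g 0 := by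
  classical
  induction n with
  | zero => simp [U, escapes]
  | succ n ih =>
    have e1 : ∀ x, ∑ i ∈ Finset.range (U m ρ (n + 1) x), (g (x + vec ((m x ^ i) (ρ x))) - g x) =
        ∑ i ∈ Finset.range (U m ρ n x), (g (x + vec ((m x ^ i) (ρ x))) - g x) +
        ∑ i ∈ Finset.range (ex m ((next m)^[n] ρ) x),
          (g (x + vec ((m x ^ i) ((next m)^[n] ρ x))) - g x) := by
      intro x
      rw [show U m ρ (n + 1) x = U m ρ n x + ex m ((next m)^[n] ρ) x from
        Finset.sum_range_succ _ _, Finset.sum_range_add]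
      congr 1
      refine Finset.sum_congr rfl fun i _ => ?_
      rw [cfg_eq, add_comm (U m ρ n x) i, pow_add]
      rfl
    simp only [e1, Finset.sum_add_distrib, ih, tele_one _ hm hd hW g hg]
    unfold escapes
    rw [Finset.range_add_one, Finset.filter_insert]
    split_ifs with h
    · simp
    · rw [Finset.card_insert_of_notMem (by simp)]
      push_cast
      ring

omit hm in
theorem rotor_sum {σ : Equiv.Perm (Dir d)} (hσ : σ.IsCycleOn Set.univ) (e0 : Dir d)
    (a : Dir d → ℝ) (u : ℕ) :
    |∑ i ∈ Finset.range u, a ((σ ^ i) e0) - u * ((∑ e, a e) / (2 * d))| ≤ 2 * ∑ e, |a e| := by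
  classical
  have hd' : (0 : ℝ) < d := by exact_mod_cast hd
  have inj : ∀ s : ℕ, Set.InjOn (fun i => (σ ^ (s + i)) e0) (Finset.range (2 * d) : Set ℕ) := by
    intro s i hi j hj hij
    simp only [Finset.coe_range, Set.mem_Iio] at hi hj
    have := (pow_eq_iff hσ e0 _ _).mp hij
    exact Nat.ModEq.eq_of_lt_of_lt (Nat.ModEq.add_left_cancel' s this) hi hj
  have full : ∀ s : ℕ, ∑ i ∈ Finset.range (2 * d), a ((σ ^ (s + i)) e0) = ∑ e, a e := by
    intro s
    rw [← Finset.sum_image (f := a) (inj s)]
    congr 1
    apply Finset.eq_univ_of_card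
    rw [Finset.card_image_of_injOn (inj s), Finset.card_range, card_dir]
  induction u using Nat.strong_induction_on with
  | _ u ih =>
    by_cases hu : u < 2 * d
    · have h1 : |∑ i ∈ Finset.range u, a ((σ ^ i) e0)| ≤ ∑ e, |a e| := by
        refine (Finset.abs_sum_le_sum_abs _ _).trans ?_
        have inj' : Set.InjOn (fun i => (σ ^ i) e0) (Finset.range u : Set ℕ) := by
          have := (inj 0).mono (Finset.coe_subset.mpr (Finset.range_subset_range.mpr hu.le))
          simpa using this
        rw [← Finset.sum_image (f := fun e => |a e|) inj']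
        exact Finset.sum_le_sum_of_subset_of_nonneg (Finset.subset_univ _)
          fun _ _ _ => abs_nonneg _
      have h2 : |u * ((∑ e, a e) / (2 * d))| ≤ ∑ e, |a e| := by
        rw [abs_mul, abs_div, Nat.abs_cast, abs_of_pos (by positivity : (0 : ℝ) < 2 * d),
          ← mul_div_assoc, div_le_iff₀ (by positivity)]
        have h3 : (u : ℝ) ≤ 2 * d := by exact_mod_cast hu.le
        have h4 := Finset.abs_sum_le_sum_abs a Finset.univ
        rw [mul_comm]
        exact mul_le_mul h4 h3 (by positivity) (Finset.sum_nonneg fun _ _ => abs_nonneg _)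
      have := abs_sub (∑ i ∈ Finset.range u, a ((σ ^ i) e0)) (u * ((∑ e, a e) / (2 * d)))
      linarith
    · obtain ⟨s, rfl⟩ : ∃ s, u = s + 2 * d := ⟨u - 2 * d, by omega⟩
      have := ih s (by omega)
      rw [Finset.sum_range_add, full]
      convert this using 2
      push_cast
      field_simp
      ring

omit hm hd in
theorem new_column (top : Fin d) (C : Finset (Site d)) (n : ℕ)
    (hC : ∀ y ∈ C, ∀ i, |y i| ≤ n)
    (hρ : ∀ x, Function.update x top 0 ∉ C → ρ x = (top, true)) :
    ∃ y0 : Site d, (∀ i, |y0 i| ≤ n + 1) ∧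
      ∀ k, Function.update (pos m ρ k) top 0 ∈ insert y0 C := by
  classical
  by_cases h : ∃ k, Function.update (pos m ρ k) top 0 ∉ C
  · let k0 := Nat.find h
    have h0 : Function.update (pos m ρ k0) top 0 ∉ C := Nat.find_spec h
    have h1 : ∀ k < k0, Function.update (pos m ρ k) top 0 ∈ C := fun k hk => by
      simpa using Nat.find_min h hk
    have ray : ∀ j : ℕ, ∀ i ≤ j, pos m ρ (k0 + i) = pos m ρ k0 + Pi.single top (i : ℤ) := by
      intro j
      induction j with
      | zero => intro i hi; obtain rfl : i = 0 := by omega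
                simp
      | succ j ih =>
        intro i hi
        by_cases hij : i ≤ j
        · exact ih i hij
        obtain rfl : i = j + 1 := by omega
        have hj := ih j le_rfl
        have hcol : Function.update (pos m ρ (k0 + j)) top 0 =
            Function.update (pos m ρ k0) top 0 := by
          rw [hj]
          funext i
          by_cases hi : i = top
          · subst hi; simp
          · simp [Function.update_of_ne hi, Pi.single_eq_of_ne hi]
        have hN : N m ρ (k0 + j) (pos m ρ (k0 + j)) = 0 := by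
          rw [N, Finset.card_eq_zero, Finset.filter_eq_empty_iff]
          intro i hi he
          rw [Finset.mem_range] at hi
          by_cases hik : i < k0
          · have := h1 i hik
            rw [he, hcol] at this
            exact h0 this
          · obtain ⟨i', rfl⟩ : ∃ i', i = k0 + i' := ⟨i - k0, by omega⟩
            rw [ih i' (by omega), hj] at he
            have := congrFun (add_left_cancel he) top
            simp at this
            omega
        rw [← add_assoc, pos_succ, hN, pow_zero, Equiv.Perm.one_apply, hρ _ (hcol ▸ h0), hj]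
        rw [add_assoc]
        congr 1
        simp [vec, ← Pi.single_add]
    refine ⟨Function.update (pos m ρ k0) top 0, fun i => ?_, fun k => ?_⟩
    · by_cases hi : i = top
      · subst hi; simp; positivity
      · rw [Function.update_of_ne hi]
        rcases Nat.eq_zero_or_pos k0 with hk | hk
        · rw [hk, pos_zero]; simp; positivity
        · obtain ⟨k, hk'⟩ : ∃ k, k0 = k + 1 := ⟨k0 - 1, by omega⟩
          have a1 := hC _ (h1 k (by omega)) i
          rw [Function.update_of_ne hi] at a1
          rw [hk', pos_succ, Pi.add_apply]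
          exact (abs_add_le _ _).trans (add_le_add a1 (abs_vec_le _ _))
    · by_cases hk : k < k0
      · exact Finset.mem_insert_of_mem (h1 k hk)
      · obtain ⟨j, rfl⟩ : ∃ j, k = k0 + j := ⟨k - k0, by omega⟩
        rw [ray j j le_rfl, Finset.mem_insert]
        left
        funext i
        by_cases hi : i = top
        · subst hi; simp
        · simp [Function.update_of_ne hi, Pi.single_eq_of_ne hi]
  · push Not at h
    exact ⟨0, fun i => by simp; positivity, fun k => Finset.mem_insert_of_mem (h k)⟩

theorem columns (top : Fin d) (n : ℕ) : ∃ C : Finset (Site d), C.card ≤ n ∧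
    (∀ y ∈ C, ∀ i, |y i| ≤ n) ∧
    ∀ x, U m (fun _ => (top, true)) n x ≠ 0 → Function.update x top 0 ∈ C := by
  classical
  induction n with
  | zero => exact ⟨∅, by simp, by simp, by simp [U]⟩
  | succ n ih =>
    obtain ⟨C, h1, h2, h3⟩ := ih
    obtain ⟨y0, a1, a2⟩ := new_column (m := m) ((next m)^[n] fun _ => (top, true)) top C n h2
      (fun x hx => by
        have : U m (fun _ => (top, true)) n x = 0 := by
          by_contra h; exact hx (h3 x h)
        rw [cfg_eq, this]; rfl)
    refine ⟨insert y0 C, (Finset.card_insert_le _ _).trans (by omega), ?_, ?_⟩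
    · intro y hy i
      rcases Finset.mem_insert.mp hy with rfl | hy
      · exact_mod_cast a1 i
      · have := h2 y hy i
        push_cast; linarith
    · intro x hx
      by_cases h : U m (fun _ => (top, true)) n x = 0
      · rw [U, Finset.sum_range_succ, ← U, h, zero_add] at hx
        obtain ⟨k, rfl⟩ := ex_pos _ hm hd hx
        exact a2 k
      · exact Finset.mem_insert_of_mem (h3 x h)

end Pool.Agent.H515Z.Rotor
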