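import Mathlib
import Pool.Agent.H515Z.RotorWalk

set_option autoImplicit false

/-! The escape rate of rotor walk with aligned initial rotors. -/

namespace Pool.Agent.H515Z.Rotor

open Filter Topology

variable {d : ℕ}

/-- Boxes. -/
noncomputable def box (b : Fin d → ℤ) : Finset (Site d) :=
  Fintype.piFinset fun i => Finset.Icc (-b i) (b i)

theorem mem_box {b : Fin d → ℤ} {x : Site d} : x ∈ box b ↔ ∀ i, |x i| ≤ b i := by
  simp [box, Fintype.mem_piFinset, abs_le]

theorem nbr_box (b : Fin d → ℤ) : Nbr (box fun i => b i - 1) (box b) := by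
  intro x hx
  rw [mem_box] at hx
  refine ⟨mem_box.mpr fun i => (hx i).trans (by omega), fun e => mem_box.mpr fun i => ?_⟩
  have h1 := hx i
  have h2 := abs_vec_le e i
  have h3 := abs_add_le (x i) (vec e i)
  rw [Pi.add_apply]
  omega

theorem two_abs_le (t l : ℝ) (hl : 0 < l) : 2 * |t| ≤ l + t ^ 2 / l := by
  rw [← sq_abs t, add_div' _ _ _ hl.ne', le_div_iff₀ hl]
  nlinarith [sq_nonneg (l - |t|)]

theorem estimate {m : Site d → Equiv.Perm (Dir d)} (hm : ∀ x, (m x).IsCycleOn Set.univ)
    (hd : 0 < d) (top j0 : Fin d) (hne : j0 ≠ top) (k K n : ℕ) (hK : 1 ≤ K) (hn : k + 3 ≤ n)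
    (η δ : ℝ) (hη : 0 < η)
    (hδ : 1 - P (hit (Set.univ : Set (Site d)) k) 0 ≤ escapeProb d + δ) :
    |(escapes m (fun _ => (top, true)) n : ℝ) - n * escapeProb d| ≤
      n * δ + 2 * d * n / K ^ 2 + 4 * d * (box (fun _ : Fin d => (k : ℤ) + 2)).card +
        10 * d * K * η * n + 4 * d * δ * n / η := by
  classical
  have hd' : (0 : ℝ) < d := by exact_mod_cast hd
  have hn' : (0 : ℝ) < n := by exact_mod_cast (by omega : 0 < n)
  have hK' : (1 : ℝ) ≤ K := by exact_mod_cast hK
  set ρ : Site d → Dir d := fun _ => (top, true) with hρ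
  set L : ℕ := n + k + 2 with hL
  set R : ℕ := K * L with hR
  have hLR : L ≤ R := Nat.le_mul_of_pos_left _ hK
  let b : Fin d → ℤ := fun i => if i = top then R else L
  set W := box b with hWdef
  set D := box (fun i => b i - 1) with hDdef
  set W0 := box (fun _ : Fin d => (k : ℤ) + 2) with hW0def
  set D0 := box (fun _ : Fin d => (k : ℤ) + 2 - 1) with hD0def
  have hW : Nbr D W := nbr_box b
  have hW0 : Nbr D0 W0 := nbr_box _
  have hb : ∀ i, (L : ℤ) ≤ b i := fun i => by
    simp only [b]; split_ifs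
    · exact_mod_cast hLR
    · exact le_rfl
  have hD : D0 ⊆ D := fun x hx => mem_box.mpr fun i => by
    have h1 := mem_box.mp hx i
    have h2 := hb i
    omega
  have h0 : (0 : Site d) ∈ D0 := mem_box.mpr fun i => by simp; omega
  obtain ⟨g, hg⟩ := exists_sol hd D (hD h0)
  obtain ⟨g0, hg0⟩ := exists_sol hd D0 h0
  have hu0 := hg0.upper k fun y hy => mem_box.mpr fun i => by have := hy i; omega
  have hu := hg.upper k fun y hy => hD (mem_box.mpr fun i => by have := hy i; omega)
  have hl := hg.lower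
  have hδ0 : 0 ≤ δ := by linarith
  obtain ⟨C, hC1, hC2, hC3⟩ := columns hm hd top n
  rw [← hρ] at hC3
  let u : Site d → ℕ := U m ρ n
  let err : Site d → ℝ := fun x =>
    ∑ i ∈ Finset.range (u x), (g (x + vec ((m x ^ i) (ρ x))) - g x) - u x * (P g x - g x)
  have htele := tele ρ hm hd hW g hg.out n
  rw [hg.zero, mul_one] at htele
  have hP : ∀ x, 0 ≤ P g x := P_nonneg hg.nonneg
  -- the main identity
  have hmain : (escapes m ρ n : ℝ) =
      n * (1 - P g 0) - ∑ x ∈ W \ D, u x * P g x - ∑ x ∈ W, err x := by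
    have a1 := hg.sum_lap (hD h0) (fun x => (u x : ℝ))
    have a2 := Finset.sum_sdiff hW.sub (f := fun x => (u x : ℝ) * (P g x - g x))
    have a3 : ∑ x ∈ W \ D, (u x : ℝ) * (P g x - g x) = ∑ x ∈ W \ D, u x * P g x :=
      Finset.sum_congr rfl fun x hx => by rw [hg.out x (Finset.mem_sdiff.mp hx).2, sub_zero]
    have a4 : ∑ x ∈ D, (u x : ℝ) * (P g x - g x) = -∑ x ∈ D, (u x : ℝ) * (g x - P g x) := by
      rw [← Finset.sum_neg_distrib]
      exact Finset.sum_congr rfl fun x _ => by ring
    have a5 : (u 0 : ℝ) = n := by simp only [u, U_zero ρ hm hd]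
    simp only [err, Finset.sum_sub_distrib (s := W)]
    rw [a5] at a1
    linarith
  -- the boundary term
  have hB0 : 0 ≤ ∑ x ∈ W \ D, (u x : ℝ) * P g x :=
    Finset.sum_nonneg fun x _ => mul_nonneg (Nat.cast_nonneg _) (hP x)
  have hB1 : ∑ x ∈ W \ D, (u x : ℝ) * P g x ≤ 2 * d * n / K ^ 2 := by
    have t1 := hg.top hd hW (hD h0) top j0 L R (Nat.cast_nonneg _) (fun x hx => by
      have := mem_box.mp hx j0
      simp only [b, if_neg hne] at this
      exact_mod_cast this)
    have t2 : ∑ x ∈ W \ D, (u x : ℝ) * P g x ≤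
        2 * d * n * ∑ x ∈ (W \ D).filter (fun x => (R : ℝ) ≤ |(x top : ℝ)|), P g x := by
      rw [Finset.sum_filter, Finset.mul_sum]
      refine Finset.sum_le_sum fun x hx => ?_
      split_ifs with h
      · refine mul_le_mul_of_nonneg_right ?_ (hP x)
        exact_mod_cast U_le ρ hm hd n x
      · have : u x = 0 := by
          by_contra hux
          apply (Finset.mem_sdiff.mp hx).2
          refine mem_box.mpr fun i => ?_
          by_cases hi : i = top
          · subst hi
            have h' : ¬ ((R : ℤ) ≤ |x i|) := fun h' => h (by exact_mod_cast h')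
            simp only [b, if_true]
            omega
          · have := hC2 _ (hC3 x hux) i
            rw [Function.update_of_ne hi] at this
            simp only [b, if_neg hi]
            omega
        simp [this]
    have hL' : (0 : ℝ) < L := by exact_mod_cast (by omega : 0 < L)
    have t3 : ∑ x ∈ (W \ D).filter (fun x => (R : ℝ) ≤ |(x top : ℝ)|), P g x ≤ 1 / K ^ 2 := by
      rw [le_div_iff₀ (by positivity)]
      have : (R : ℝ) = K * L := by rw [hR]; push_cast; ring
      rw [this] at t1 ⊢
      have hL2 : (0 : ℝ) < (L : ℝ) ^ 2 := by positivity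
      refine le_of_mul_le_mul_right ?_ hL2
      nlinarith
    calc _ ≤ _ := t2
      _ ≤ 2 * d * n * (1 / K ^ 2) := mul_le_mul_of_nonneg_left t3 (by positivity)
      _ = _ := by ring
  -- the error term
  set l : ℝ := η / n with hl'
  have hlpos : 0 < l := by positivity
  have herr : ∀ x, |err x| ≤ (if x ∈ W0 then (4 * d : ℝ) else 0) +
      (if u x ≠ 0 then 2 * d * l else 0) +
      (∑ e : Dir d, ((g (x + vec e) - g0 (x + vec e)) - (g x - g0 x)) ^ 2) / l := by
    intro x
    have r1 := rotor_sum hd (hm x) (ρ x) (fun e => g (x + vec e) - g x) (u x)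
    have r2 : (∑ e : Dir d, (g (x + vec e) - g x)) / (2 * d) = P g x - g x := by
      rw [Finset.sum_sub_distrib, sum_dir hd, Finset.sum_const, Finset.card_univ, card_dir,
        nsmul_eq_mul]
      push_cast
      field_simp
    rw [r2] at r1
    have p1 : (0 : ℝ) ≤ if u x ≠ 0 then 2 * d * l else 0 := by split_ifs <;> positivity
    have p2 : 0 ≤ (∑ e : Dir d, ((g (x + vec e) - g0 (x + vec e)) - (g x - g0 x)) ^ 2) / l :=
      div_nonneg (Finset.sum_nonneg fun _ _ => sq_nonneg _) hlpos.le
    by_cases hx : x ∈ W0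
    · rw [if_pos hx]
      have : ∑ e : Dir d, |g (x + vec e) - g x| ≤ 2 * d := by
        calc _ ≤ ∑ _e : Dir d, (1 : ℝ) := Finset.sum_le_sum fun e _ => by
              rw [abs_le]
              constructor <;> linarith [hg.nonneg x, hg.le_one x, hg.nonneg (x + vec e),
                hg.le_one (x + vec e)]
          _ = 2 * d := by simp [mul_comm]
      have r3 : |err x| ≤ 2 * ∑ e : Dir d, |g (x + vec e) - g x| := r1
      linarith
    · rw [if_neg hx]
      by_cases hux : u x = 0
      · have : err x = 0 := by simp [err, hux]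
        rw [this, abs_zero]
        linarith
      · rw [if_pos hux]
        have z1 : g0 x = 0 := hg0.out x fun h => hx (hW0.sub h)
        have z2 : ∀ e, g0 (x + vec e) = 0 := fun e => hg0.out _ (hW0.out hx e)
        have r3 : |err x| ≤ 2 * ∑ e : Dir d, |g (x + vec e) - g x| := r1
        simp only [z1, z2, sub_zero, zero_add]
        refine r3.trans ?_
        rw [Finset.mul_sum, Finset.sum_div]
        calc _ ≤ ∑ e : Dir d, (l + (g (x + vec e) - g x) ^ 2 / l) :=
              Finset.sum_le_sum fun e _ => two_abs_le _ _ hlpos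
          _ = _ := by
              rw [Finset.sum_add_distrib, Finset.sum_const, Finset.card_univ, card_dir,
                nsmul_eq_mul]
              push_cast
              ring
  have hcard : ((W.filter (fun x => u x ≠ 0)).card : ℝ) ≤ n * (5 * K * n) := by
    have s1 : W.filter (fun x => u x ≠ 0) ⊆ (C ×ˢ Finset.Icc (-(R : ℤ)) R).image
        (fun p => Function.update p.1 top p.2) := by
      intro x hx
      rw [Finset.mem_filter] at hx
      refine Finset.mem_image.mpr ⟨(Function.update x top 0, x top), ?_, by simp⟩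
      rw [Finset.mem_product, Finset.mem_Icc, ← abs_le]
      have := mem_box.mp hx.1 top
      simp only [b, if_true] at this
      exact ⟨hC3 x hx.2, this⟩
    have s2 := (Finset.card_le_card s1).trans Finset.card_image_le
    rw [Finset.card_product, Int.card_Icc] at s2
    have s3 : ((R : ℤ) + 1 - -(R : ℤ)).toNat = 2 * R + 1 := by omega
    rw [s3] at s2
    have s4 : 2 * R + 1 ≤ 5 * K * n := by
      have : R ≤ K * (2 * n) := Nat.mul_le_mul_left _ (by omega)
      have h2 : 1 ≤ K * n := Nat.mul_pos hK (by omega)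
      nlinarith
    have s5 := s2.trans (Nat.mul_le_mul hC1 s4)
    exact_mod_cast s5
  have hE : |∑ x ∈ W, err x| ≤ 4 * d * W0.card + 10 * d * K * η * n + 4 * d * δ * n / η := by
    refine (Finset.abs_sum_le_sum_abs _ _).trans ((Finset.sum_le_sum fun x _ => herr x).trans ?_)
    rw [Finset.sum_add_distrib, Finset.sum_add_distrib, ← Finset.sum_div,
      energy_diff hd hW hD h0 hg hg0, ← Finset.sum_filter, ← Finset.sum_filter,
      Finset.sum_const, Finset.sum_const, nsmul_eq_mul, nsmul_eq_mul]
    have c1 : ((W.filter (fun x => x ∈ W0)).card : ℝ) ≤ W0.card := by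
      exact_mod_cast Finset.card_le_card fun x hx => (Finset.mem_filter.mp hx).2
    have c2 : ((W.filter (fun x => u x ≠ 0)).card : ℝ) * (2 * d * l) ≤ 10 * d * K * η * n := by
      refine (mul_le_mul_of_nonneg_right hcard (by positivity)).trans (le_of_eq ?_)
      rw [hl']; field_simp; ring
    have c3 : 4 * d * ((1 - P g0 0) - (1 - P g 0)) / l ≤ 4 * d * δ * n / η := by
      have : 4 * d * δ * n / η = 4 * d * δ / l := by rw [hl']; field_simp
      rw [this]
      refine div_le_div_of_nonneg_right (mul_le_mul_of_nonneg_left (by linarith)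
        (by positivity)) hlpos.le
    have c4 := mul_le_mul_of_nonneg_right c1 (by positivity : (0 : ℝ) ≤ 4 * d)
    linarith
  rw [abs_le] at hE ⊢
  have q1 : n * escapeProb d ≤ n * (1 - P g 0) := mul_le_mul_of_nonneg_left hl hn'.le
  have q2 : n * (1 - P g 0) ≤ n * (escapeProb d + δ) :=
    mul_le_mul_of_nonneg_left (hu.trans hδ) hn'.le
  have q3 : 0 ≤ n * δ := mul_nonneg hn'.le hδ0
  have q4 : (0 : ℝ) ≤ 2 * d * n / K ^ 2 := by positivity
  constructor <;> nlinarith [hE.1, hE.2]

theorem escape_rate {m : Site d → Equiv.Perm (Dir d)} (hm : ∀ x, (m x).IsCycleOn Set.univ)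
    (top j0 : Fin d) (hne : j0 ≠ top) :
    Tendsto (fun n : ℕ => (escapes m (fun _ => (top, true)) n : ℝ) / n) atTop
      (𝓝 (escapeProb d)) := by
  have hd : 0 < d := Fin.pos top
  have hd' : (0 : ℝ) < d := by exact_mod_cast hd
  rw [Metric.tendsto_atTop]
  intro ε hε
  obtain ⟨K, hK⟩ := exists_nat_gt (10 * d / ε + 1)
  have hK1 : (1 : ℝ) < K := by
    have : 0 < 10 * d / ε := by positivity
    linarith
  have hK2 : 2 * d / (K : ℝ) ^ 2 < ε / 5 := by
    rw [div_lt_iff₀ (by positivity)]
    have h1 : 10 * d / ε < K := by linarith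
    rw [div_lt_iff₀ hε] at h1
    nlinarith
  set η : ℝ := ε / (50 * d * K) with hη
  have hη0 : 0 < η := by positivity
  set δ : ℝ := ε / 5 / (1 + 4 * d / η) with hδ
  have hδ0 : 0 < δ := by positivity
  obtain ⟨k, hk⟩ := (Metric.tendsto_atTop.mp (tendsto_escape hd)) δ hδ0
  have hk' := hk k le_rfl
  rw [Real.dist_eq, abs_lt] at hk'
  set M : ℝ := ((box (fun _ : Fin d => (k : ℤ) + 2)).card : ℝ) with hM
  obtain ⟨n0, hn0⟩ := exists_nat_gt (20 * d * M / ε)
  refine ⟨max n0 (k + 3), fun n hn => ?_⟩
  have h1 : k + 3 ≤ n := le_of_max_le_right hn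
  have h2 : (n0 : ℝ) ≤ n := by exact_mod_cast le_of_max_le_left hn
  have hn' : (0 : ℝ) < n := by exact_mod_cast (by omega : 0 < n)
  have est := estimate hm hd top j0 hne k K n (by exact_mod_cast hK1.le) h1 η δ hη0
    (by linarith [hk'.2])
  rw [Real.dist_eq, div_sub' hn'.ne', abs_div, abs_of_pos hn', div_lt_iff₀ hn']
  refine est.trans_lt ?_
  have a1 : n * δ + 4 * d * δ * n / η = ε / 5 * n := by
    have : δ * (1 + 4 * d / η) = ε / 5 := by rw [hδ]; field_simp
    rw [← this]; ring
  have a2 : 2 * d * n / (K : ℝ) ^ 2 < ε / 5 * n := by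
    have := mul_lt_mul_of_pos_right hK2 hn'
    calc _ = 2 * d / (K : ℝ) ^ 2 * n := by ring
      _ < _ := this
  have a3 : 10 * d * K * η * n = ε / 5 * n := by rw [hη]; field_simp; ring
  have a4 : 4 * d * M < ε / 5 * n := by
    have : 20 * d * M / ε < n := by linarith
    rw [div_lt_iff₀ hε] at this
    linarith
  have a5 : 0 < ε / 5 * n := by positivity
  rw [← hM]
  linarith

end Pool.Agent.H515Z.Rotor
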